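import Pool.Agent.J4H59.PD.LineB

/-!
# Rational functions on a `G`-set, with restrictions on the cells

`FQ Ω` is the module of rational functions on the `G`-set `Ω`.  Let `p : Ω → G ⧸ N` be equivariant;
its fibres are the cells.  A structure `Vq N Ω` is a submodule of `FQ Ω` consisting of functions
with support in finitely many cells which is closed under the restriction to cells and under
multiplication with rational numbers.  `MQ K R` is the module of all functions the restrictions of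
which to cells are in the submodule, with support in finitely many cells over each point of
`G ⧸ K`, and over finitely many translates of `R ⊆ G ⧸ K`.
-/

set_option autoImplicit false
set_option linter.unusedSectionVars false

open scoped Classical

namespace Pool.Agent.J4H59.PF

open Pool.Agent.Helper386.PD3 Pool.Agent.J4H59.PD

noncomputable section

variable {G : Type} [Group G]

/-- rational functions on a set -/
def FQ (Ω : Type) : Type := Ω → ℚ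

instance (Ω : Type) : AddCommGroup (FQ Ω) := inferInstanceAs (AddCommGroup (Ω → ℚ))

/-- translation of functions -/
def trQ (Ω : Type) [MulAction G Ω] : G →* AddMonoid.End (FQ Ω) where
  toFun g := { toFun := fun f x => f (g⁻¹ • x), map_zero' := rfl, map_add' := fun _ _ => rfl }
  map_one' := by
    refine AddMonoidHom.ext fun f => funext fun x => ?_
    change f ((1 : G)⁻¹ • x) = f x
    rw [inv_one, one_smul]
  map_mul' g h := by
    refine AddMonoidHom.ext fun f => funext fun x => ?_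
    change f ((g * h)⁻¹ • x) = f (h⁻¹ • g⁻¹ • x)
    rw [mul_inv_rev, mul_smul]

instance (Ω : Type) [MulAction G Ω] : Module (RR G) (FQ Ω) :=
  Module.compHom (FQ Ω) (liftR (trQ (G := G) Ω))

variable {Ω : Type} [MulAction G Ω]

theorem gofq_apply (g : G) (f : FQ Ω) (x : Ω) : (gof g • f) x = f (g⁻¹ • x) := by
  change ((liftR (trQ Ω) (gof g)) f) x = _
  rw [liftR_of]
  rfl

theorem fq_ext {f f' : FQ Ω} (h : ∀ x, f x = f' x) : f = f' := funext h

theorem fqadd_apply (f f' : FQ Ω) (x : Ω) : (f + f') x = f x + f' x := rfl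
theorem fqsub_apply (f f' : FQ Ω) (x : Ω) : (f - f') x = f x - f' x := rfl
theorem fqneg_apply (f : FQ Ω) (x : Ω) : (-f) x = -f x := rfl
theorem fqzero_apply (x : Ω) : (0 : FQ Ω) x = 0 := rfl

theorem fqsum_apply {ι : Type} (T : Finset ι) (F : ι → FQ Ω) (x : Ω) :
    (∑ i ∈ T, F i) x = ∑ i ∈ T, F i x := by
  induction T using Finset.induction_on with
  | empty => rfl
  | insert a T ha ih => rw [Finset.sum_insert ha, Finset.sum_insert ha, fqadd_apply, ih]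

/-- the support -/
def spq (f : FQ Ω) : Set Ω := {x | f x ≠ 0}

theorem spq_add (f f' : FQ Ω) : spq (f + f') ⊆ spq f ∪ spq f' := by
  intro x hx
  by_contra hcon
  rw [Set.mem_union, not_or] at hcon
  have h1 : f x = 0 := not_not.1 hcon.1
  have h2 : f' x = 0 := not_not.1 hcon.2
  apply hx
  rw [fqadd_apply, h1, h2, add_zero]

theorem spq_neg (f : FQ Ω) : spq (-f) ⊆ spq f := by
  intro x hx h
  apply hx
  rw [fqneg_apply, h, neg_zero]

/-- multiplication with a rational number -/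
def scq (q : ℚ) : FQ Ω →+ FQ Ω where
  toFun f x := q * f x
  map_zero' := by
    funext x
    exact mul_zero q
  map_add' f f' := by
    funext x
    exact mul_add q (f x) (f' x)

theorem scq_apply (q : ℚ) (f : FQ Ω) (x : Ω) : scq q f x = q * f x := rfl

theorem spq_scq (q : ℚ) (f : FQ Ω) : spq (scq q f) ⊆ spq f := by
  intro x hx h
  apply hx
  rw [scq_apply, h, mul_zero]

theorem scq_smul (q : ℚ) (r : RR G) (f : FQ Ω) : scq q (r • f) = r • scq q f := by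
  induction r using rr_ind with
  | h1 g =>
    refine fq_ext fun x => ?_
    rw [scq_apply, gofq_apply, gofq_apply, scq_apply]
  | h2 a b ha hb => rw [add_smul, add_smul, map_add, ha, hb]
  | h3 a ha => rw [neg_smul, neg_smul, map_neg, ha]

/-- cutting down the support of a function -/
def cutq (s : Set Ω) : FQ Ω →+ FQ Ω where
  toFun f x := if x ∈ s then f x else 0
  map_zero' := by
    funext x
    change (if x ∈ s then (0 : ℚ) else 0) = 0
    exact ite_self _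
  map_add' f f' := by
    funext x
    change (if x ∈ s then f x + f' x else 0) = (if x ∈ s then f x else 0) +
      (if x ∈ s then f' x else 0)
    split_ifs
    · rfl
    · rw [add_zero]

theorem cutq_apply (s : Set Ω) (f : FQ Ω) (x : Ω) :
    cutq s f x = if x ∈ s then f x else 0 := rfl

theorem cutq_of_mem {s : Set Ω} (f : FQ Ω) {x : Ω} (h : x ∈ s) : cutq s f x = f x :=
  if_pos h

theorem cutq_of_notMem {s : Set Ω} (f : FQ Ω) {x : Ω} (h : x ∉ s) : cutq s f x = 0 :=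
  if_neg h

theorem spq_cutq (s : Set Ω) (f : FQ Ω) : spq (cutq s f) ⊆ spq f := by
  intro x hx hx'
  apply hx
  rw [cutq_apply, hx', ite_self]

theorem gofq_cutq (g : G) (s : Set Ω) (f : FQ Ω) :
    gof g • cutq s f = cutq {x | g⁻¹ • x ∈ s} (gof g • f) := by
  refine fq_ext fun x => ?_
  rw [gofq_apply, cutq_apply, cutq_apply, gofq_apply]
  rfl

theorem scq_cutq (q : ℚ) (s : Set Ω) (f : FQ Ω) : scq q (cutq s f) = cutq s (scq q f) := by
  refine fq_ext fun x => ?_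
  rw [scq_apply, cutq_apply, cutq_apply, scq_apply]
  split_ifs
  · rfl
  · rw [mul_zero]

/-- a submodule from a property -/
def mkSubq (P : FQ Ω → Prop) (h0 : P 0) (hadd : ∀ f f', P f → P f' → P (f + f'))
    (hneg : ∀ f, P f → P (-f)) (hg : ∀ (g : G) f, P f → P (gof g • f)) :
    Submodule (RR G) (FQ Ω) where
  carrier := {f | P f}
  add_mem' {f f'} hf hf' := hadd f f' hf hf'
  zero_mem' := h0
  smul_mem' r f hf := by
    change P (r • f)
    induction r using rr_ind with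
    | h1 g => exact hg g f hf
    | h2 a b ha hb =>
      rw [add_smul]
      exact hadd _ _ ha hb
    | h3 a ha =>
      rw [neg_smul]
      exact hneg _ ha

/-- A submodule of functions with support in finitely many cells, closed under the restriction to
cells. -/
structure Vq (N : Subgroup G) (Ω : Type) [MulAction G Ω] where
  /-- projection to the cells -/
  p : Ω → G ⧸ N
  /-- the submodule -/
  V : Submodule (RR G) (FQ Ω)
  hp : ∀ (g : G) x, p (g • x) = g • p x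
  hcut : ∀ f ∈ V, ∀ y, cutq {x | p x = y} f ∈ V
  hfin : ∀ f ∈ V, (p '' spq f).Finite
  hsc : ∀ f ∈ V, ∀ q : ℚ, scq q f ∈ V

variable {N K : Subgroup G}

namespace Vq

variable (𝒱 : Vq N Ω)

theorem cut_gof (g : G) (y : G ⧸ N) (f : FQ Ω) :
    cutq {x | 𝒱.p x = y} (gof g • f) = gof g • cutq {x | 𝒱.p x = g⁻¹ • y} f := by
  rw [gofq_cutq]
  congr 1
  congr 1
  ext x
  rw [Set.mem_ofPred_eq, Set.mem_ofPred_eq, Set.mem_ofPred_eq, 𝒱.hp, smul_left_cancel_iff]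

theorem cut_cut (s s' : Set Ω) (f : FQ Ω) : cutq s (cutq s' f) = cutq (s ∩ s') f := by
  refine fq_ext fun x => ?_
  by_cases h : x ∈ s
  · rw [cutq_of_mem _ h]
    by_cases h' : x ∈ s'
    · rw [cutq_of_mem _ h', cutq_of_mem _ (Set.mem_inter h h')]
    · have h2 : x ∉ s ∩ s' := fun h'' => h' h''.2
      rw [cutq_of_notMem _ h', cutq_of_notMem _ h2]
  · have h2 : x ∉ s ∩ s' := fun h'' => h h''.1
    rw [cutq_of_notMem _ h, cutq_of_notMem _ h2]

/-- restrictions to unions of cells -/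
theorem cut_cell_pre (S : Set (G ⧸ N)) (y : G ⧸ N) (f : FQ Ω) :
    cutq {x | 𝒱.p x = y} (cutq {x | 𝒱.p x ∈ S} f) =
      if y ∈ S then cutq {x | 𝒱.p x = y} f else 0 := by
  rw [cut_cut]
  split_ifs with h
  · congr 1
    congr 1
    ext x
    rw [Set.mem_inter_iff, Set.mem_ofPred_eq, Set.mem_ofPred_eq]
    exact ⟨fun hx => hx.1, fun hx => ⟨hx, by rw [hx]; exact h⟩⟩
  · refine fq_ext fun x => ?_
    rw [fqzero_apply]
    refine cutq_of_notMem f fun hx => h ?_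
    have h1 : 𝒱.p x = y := hx.1
    rw [← h1]
    exact hx.2

/-- restrictions to cells in the module, support over finitely many translates of `R`, and in
finitely many cells over each point -/
def IsQ (K : Subgroup G) (R : Set (G ⧸ K)) (f : FQ Ω) : Prop :=
  (∀ y, cutq {x | 𝒱.p x = y} f ∈ 𝒱.V) ∧
    (∀ z : G ⧸ K, {y | y ∈ 𝒱.p '' spq f ∧ pu K y = z}.Finite) ∧
    ∃ T : Finset G, ∀ x, f x ≠ 0 → ∃ g ∈ T, g⁻¹ • pu K (𝒱.p x) ∈ R

variable {𝒱} {R R' : Set (G ⧸ K)}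

theorem IsQ.zero : 𝒱.IsQ K R 0 := by
  refine ⟨fun y => ?_, fun z => ?_, ∅, fun x hx => absurd rfl hx⟩
  · rw [map_zero]
    exact zero_mem _
  · convert Set.finite_empty
    ext y
    rw [Set.mem_ofPred_eq, Set.mem_empty_iff_false, iff_false]
    rintro ⟨⟨x, hx, -⟩, -⟩
    exact hx rfl

theorem IsQ.add {f f' : FQ Ω} (h : 𝒱.IsQ K R f) (h' : 𝒱.IsQ K R f') : 𝒱.IsQ K R (f + f') := by
  obtain ⟨h1, h2, T, hT⟩ := h
  obtain ⟨h1', h2', T', hT'⟩ := h'
  refine ⟨fun y => ?_, fun z => ?_, T ∪ T', fun x hx => ?_⟩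
  · rw [map_add]
    exact add_mem (h1 y) (h1' y)
  · refine ((h2 z).union (h2' z)).subset ?_
    rintro _ ⟨⟨x, hx, rfl⟩, hz⟩
    rcases spq_add f f' hx with h | h
    · exact Or.inl ⟨⟨x, h, rfl⟩, hz⟩
    · exact Or.inr ⟨⟨x, h, rfl⟩, hz⟩
  · rcases spq_add f f' hx with h | h
    · obtain ⟨g, hg, h2⟩ := hT x h
      exact ⟨g, Finset.mem_union_left _ hg, h2⟩
    · obtain ⟨g, hg, h2⟩ := hT' x h
      exact ⟨g, Finset.mem_union_right _ hg, h2⟩

/-- support conditions are inherited -/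
theorem IsQ.of_sub {f f' : FQ Ω} (h : 𝒱.IsQ K R f) (hc : ∀ y, cutq {x | 𝒱.p x = y} f' ∈ 𝒱.V)
    (hs : spq f' ⊆ spq f) : 𝒱.IsQ K R f' := by
  obtain ⟨-, h2, T, hT⟩ := h
  refine ⟨hc, fun z => (h2 z).subset ?_, T, fun x hx => hT x (hs hx)⟩
  rintro _ ⟨⟨x, hx, rfl⟩, hz⟩
  exact ⟨⟨x, hs hx, rfl⟩, hz⟩

theorem IsQ.neg {f : FQ Ω} (h : 𝒱.IsQ K R f) : 𝒱.IsQ K R (-f) := by
  refine h.of_sub (fun y => ?_) (spq_neg f)
  rw [map_neg]
  exact neg_mem (h.1 y)

theorem IsQ.sc (q : ℚ) {f : FQ Ω} (h : 𝒱.IsQ K R f) : 𝒱.IsQ K R (scq q f) := by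
  refine h.of_sub (fun y => ?_) (spq_scq q f)
  rw [← scq_cutq]
  exact 𝒱.hsc _ (h.1 y) q

theorem IsQ.cut {f : FQ Ω} (h : 𝒱.IsQ K R f) (S : Set (G ⧸ N)) :
    𝒱.IsQ K R (cutq {x | 𝒱.p x ∈ S} f) := by
  refine h.of_sub (fun y => ?_) (spq_cutq _ _)
  rw [cut_cell_pre]
  split_ifs
  · exact h.1 y
  · exact zero_mem _

theorem IsQ.gof (hNK : N ≤ K) (g : G) {f : FQ Ω} (h : 𝒱.IsQ K R f) :
    𝒱.IsQ K R (Pool.Agent.Helper386.PD3.gof g • f) := by
  obtain ⟨h1, h2, T, hT⟩ := h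
  refine ⟨fun y => ?_, fun z => ?_, T.image (fun g' => g * g'), fun x hx => ?_⟩
  · rw [𝒱.cut_gof]
    exact Submodule.smul_mem _ _ (h1 _)
  · refine ((h2 (g⁻¹ • z)).image fun y => g • y).subset ?_
    rintro _ ⟨⟨x, hx, rfl⟩, hz⟩
    have hx : (Pool.Agent.Helper386.PD3.gof g • f) x ≠ 0 := hx
    rw [gofq_apply] at hx
    refine ⟨𝒱.p (g⁻¹ • x), ⟨⟨_, hx, rfl⟩, ?_⟩, ?_⟩
    · rw [𝒱.hp, pu_smul hNK, hz]
    · change g • 𝒱.p (g⁻¹ • x) = 𝒱.p x
      rw [𝒱.hp, smul_inv_smul]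
  · rw [gofq_apply] at hx
    obtain ⟨g', hg', h2⟩ := hT _ hx
    refine ⟨g * g', Finset.mem_image_of_mem _ hg', ?_⟩
    rw [𝒱.hp, pu_smul hNK] at h2
    rw [mul_inv_rev, mul_smul]
    exact h2

variable (𝒱)

/-- functions with support over finitely many translates of `R` -/
def MQ (hNK : N ≤ K) (R : Set (G ⧸ K)) : Submodule (RR G) (FQ Ω) :=
  mkSubq (𝒱.IsQ K R) IsQ.zero (fun _ _ h h' => h.add h') (fun _ h => h.neg)
    fun g _ h => h.gof hNK g

variable (hNK : N ≤ K)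

theorem MQ_mono (h : R ⊆ R') : 𝒱.MQ hNK R ≤ 𝒱.MQ hNK R' := by
  rintro f ⟨h1, h2, T, hT⟩
  refine ⟨h1, h2, T, fun y hy => ?_⟩
  obtain ⟨g, hg, h'⟩ := hT y hy
  exact ⟨g, hg, h h'⟩

/-- cutting down, as an endomorphism -/
def cutM (R : Set (G ⧸ K)) (S : Set (G ⧸ N)) : 𝒱.MQ hNK R →+ 𝒱.MQ hNK R where
  toFun f := ⟨cutq {x | 𝒱.p x ∈ S} f.1, IsQ.cut (𝒱 := 𝒱) f.2 S⟩
  map_zero' := Subtype.ext (map_zero _)
  map_add' _ _ := Subtype.ext (map_add _ _ _)

theorem cutM_coe (S : Set (G ⧸ N)) (f : 𝒱.MQ hNK R) :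
    ((𝒱.cutM hNK R S f : 𝒱.MQ hNK R) : FQ Ω) = cutq {x | 𝒱.p x ∈ S} (f : FQ Ω) := rfl

/-- multiplication with rational numbers, as an endomorphism -/
def scM (R : Set (G ⧸ K)) (q : ℚ) : 𝒱.MQ hNK R →+ 𝒱.MQ hNK R where
  toFun f := ⟨scq q f.1, IsQ.sc (𝒱 := 𝒱) q f.2⟩
  map_zero' := Subtype.ext (map_zero _)
  map_add' _ _ := Subtype.ext (map_add _ _ _)

theorem scM_coe (q : ℚ) (f : 𝒱.MQ hNK R) :
    ((𝒱.scM hNK R q f : 𝒱.MQ hNK R) : FQ Ω) = scq q (f : FQ Ω) := rfl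

theorem scM_smul (q : ℚ) (r : RR G) (f : 𝒱.MQ hNK R) :
    𝒱.scM hNK R q (r • f) = r • 𝒱.scM hNK R q f :=
  Subtype.ext (scq_smul q r (f : FQ Ω))

theorem MQ_sup : 𝒱.MQ hNK R ⊔ 𝒱.MQ hNK R' = 𝒱.MQ hNK (R ∪ R') := by
  apply le_antisymm
  · exact sup_le (𝒱.MQ_mono hNK Set.subset_union_left) (𝒱.MQ_mono hNK Set.subset_union_right)
  · intro f hf
    have hf' : 𝒱.IsQ K (R ∪ R') f := hf
    obtain ⟨h1, h2, T, hT⟩ := hf'
    rw [Submodule.mem_sup]
    let C : Set (G ⧸ N) := {c | ∃ g ∈ T, g⁻¹ • pu K c ∈ R}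
    obtain ⟨hc1, hc1', -⟩ := IsQ.cut (𝒱 := 𝒱) hf C
    obtain ⟨hc2, hc2', -⟩ := IsQ.cut (𝒱 := 𝒱) hf Cᶜ
    refine ⟨cutq {x | 𝒱.p x ∈ C} f, ⟨hc1, hc1', T, ?_⟩, cutq {x | 𝒱.p x ∈ Cᶜ} f,
      ⟨hc2, hc2', T, ?_⟩, ?_⟩
    · intro x hx
      by_contra hcon
      exact hx (cutq_of_notMem f hcon)
    · intro x hx
      obtain ⟨g, hg, h⟩ := hT x (spq_cutq _ _ hx)
      refine ⟨g, hg, ?_⟩
      rcases h with h | h
      · exfalso
        apply hx
        apply cutq_of_notMem f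
        intro hx'
        exact hx' ⟨g, hg, h⟩
      · exact h
    · refine fq_ext fun x => ?_
      rw [fqadd_apply]
      by_cases h : 𝒱.p x ∈ C
      · rw [cutq_of_mem (s := {x | 𝒱.p x ∈ C}) f h,
          cutq_of_notMem (s := {x | 𝒱.p x ∈ Cᶜ}) f (fun h' => h' h), add_zero]
      · rw [cutq_of_notMem (s := {x | 𝒱.p x ∈ C}) f h,
          cutq_of_mem (s := {x | 𝒱.p x ∈ Cᶜ}) f h, zero_add]

/-- a function with support in finitely many cells is the sum of its restrictions -/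
theorem mem_of_fin {f : FQ Ω} (h : (𝒱.p '' spq f).Finite)
    (h' : ∀ y, cutq {x | 𝒱.p x = y} f ∈ 𝒱.V) : f ∈ 𝒱.V := by
  have h1 : f = ∑ y ∈ h.toFinset, cutq {x | 𝒱.p x = y} f := by
    refine fq_ext fun x => ?_
    rw [fqsum_apply]
    by_cases hx : f x = 0
    · rw [hx, Finset.sum_eq_zero]
      intro y _
      rw [cutq_apply, hx, ite_self]
    · rw [Finset.sum_eq_single (𝒱.p x)]
      · exact (cutq_of_mem (s := {x' | 𝒱.p x' = 𝒱.p x}) f rfl).symm
      · intro y _ hy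
        exact cutq_of_notMem (s := {x' | 𝒱.p x' = y}) f (fun h => hy h.symm)
      · intro h2
        exact absurd (h.mem_toFinset.2 ⟨x, hx, rfl⟩) h2
  rw [h1]
  exact Submodule.sum_mem _ fun y _ => h' y

theorem V_le_MQ (hR : R.Nonempty) : 𝒱.V ≤ 𝒱.MQ hNK R := by
  intro f hf
  have hfin := 𝒱.hfin f hf
  obtain ⟨c, hc⟩ := hR
  have h1 : ∀ y : G ⧸ K, ∃ g : G, g⁻¹ • y ∈ R := by
    intro y
    obtain ⟨g, hg⟩ := MulAction.exists_smul_eq G y c
    refine ⟨g⁻¹, ?_⟩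
    rw [inv_inv, hg]
    exact hc
  choose g hg using h1
  refine ⟨𝒱.hcut f hf, fun z => hfin.subset fun y hy => hy.1,
    hfin.toFinset.image fun y => g (pu K y), fun x hx => ?_⟩
  exact ⟨g (pu K (𝒱.p x)), Finset.mem_image_of_mem _ (hfin.mem_toFinset.2 ⟨x, hx, rfl⟩), hg _⟩

theorem MQ_inf (hR : R.Nonempty) (hR' : R'.Nonempty)
    (h : ∀ g : G, {c | c ∈ R ∧ g • c ∈ R'}.Finite) :
    𝒱.MQ hNK R ⊓ 𝒱.MQ hNK R' = 𝒱.V := by
  refine Submodule.ext fun f => ?_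
  rw [Submodule.mem_inf]
  constructor
  · rintro ⟨⟨h1, hz, T, hT⟩, ⟨-, -, T', hT'⟩⟩
    refine 𝒱.mem_of_fin ?_ h1
    have h2 : (⋃ g ∈ T, ⋃ g' ∈ T', (fun c : G ⧸ K => g • c) ''
        {c | c ∈ R ∧ (g'⁻¹ * g) • c ∈ R'}).Finite :=
      Set.Finite.biUnion (Finset.finite_toSet T) fun g _ =>
        Set.Finite.biUnion (Finset.finite_toSet T') fun g' _ => (h _).image _
    refine (h2.biUnion fun z _ => hz z).subset ?_
    rintro _ ⟨x, hx, rfl⟩
    obtain ⟨g, hg, hg1⟩ := hT x hx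
    obtain ⟨g', hg', hg1'⟩ := hT' x hx
    refine Set.mem_iUnion₂.2 ⟨pu K (𝒱.p x), Set.mem_iUnion₂.2 ⟨g, hg, Set.mem_iUnion₂.2
      ⟨g', hg', g⁻¹ • pu K (𝒱.p x), ⟨hg1, ?_⟩, smul_inv_smul _ _⟩⟩, ⟨_, hx, rfl⟩, rfl⟩
    rw [mul_smul, smul_inv_smul]
    exact hg1'
  · intro hf
    exact ⟨𝒱.V_le_MQ hNK hR hf, 𝒱.V_le_MQ hNK hR' hf⟩

theorem coe_sumq {ι : Type} {M : Submodule (RR G) (FQ Ω)} (T : Finset ι) (u : ι → M)
    (y : Ω) : ((∑ k ∈ T, u k : M) : FQ Ω) y = ∑ k ∈ T, (u k : FQ Ω) y := by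
  induction T using Finset.induction_on with
  | empty => rfl
  | insert a T ha ih =>
    rw [Finset.sum_insert ha, Finset.sum_insert ha, Submodule.coe_add, fqadd_apply, ih]

theorem cutM_eq {S : Set (G ⧸ N)} {m : 𝒱.MQ hNK R}
    (h : ∀ y, (m : FQ Ω) y ≠ 0 → 𝒱.p y ∈ S) : 𝒱.cutM hNK R S m = m := by
  apply Subtype.ext
  refine fq_ext fun y => ?_
  rw [cutM_coe]
  by_cases hy : (m : FQ Ω) y = 0
  · rw [cutq_apply, hy, ite_self]
  · exact cutq_of_mem (s := {x | 𝒱.p x ∈ S}) _ (h y hy)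

theorem cutM_zero {S : Set (G ⧸ N)} {m : 𝒱.MQ hNK R}
    (h : ∀ y, (m : FQ Ω) y ≠ 0 → 𝒱.p y ∉ S) : 𝒱.cutM hNK R S m = 0 := by
  apply Subtype.ext
  refine fq_ext fun y => ?_
  rw [cutM_coe]
  by_cases hy : (m : FQ Ω) y = 0
  · rw [cutq_apply, hy, ite_self]
    rfl
  · exact cutq_of_notMem (s := {x | 𝒱.p x ∈ S}) _ (h y hy)

theorem cutM_ne {S : Set (G ⧸ N)} {m : 𝒱.MQ hNK R} {y : Ω}
    (h : ((𝒱.cutM hNK R S m : 𝒱.MQ hNK R) : FQ Ω) y ≠ 0) : (m : FQ Ω) y ≠ 0 ∧ 𝒱.p y ∈ S := by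
  rw [cutM_coe] at h
  constructor
  · exact spq_cutq _ (m : FQ Ω) h
  · by_contra hcon
    exact h (cutq_of_notMem (s := {x | 𝒱.p x ∈ S}) _ hcon)

theorem sum_cutM {ι : Type} (I : Finset ι) (κ : G ⧸ N → ι) (m : 𝒱.MQ hNK R)
    (h : ∀ y, (m : FQ Ω) y ≠ 0 → κ (𝒱.p y) ∈ I) :
    ∑ i ∈ I, 𝒱.cutM hNK R {c | κ c = i} m = m := by
  apply Subtype.ext
  refine fq_ext fun y => ?_
  rw [coe_sumq]
  have h1 : ∀ i ∈ I, ((𝒱.cutM hNK R {c | κ c = i} m : 𝒱.MQ hNK R) : FQ Ω) y =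
      if κ (𝒱.p y) = i then (m : FQ Ω) y else 0 := fun i _ => rfl
  rw [Finset.sum_congr rfl h1, Finset.sum_ite_eq]
  split_ifs with h2
  · rfl
  · by_contra hcon
    exact h2 (h y (Ne.symm hcon))

end Vq

end

end Pool.Agent.J4H59.PF
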