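import Pool.Agent.J4H59.PE.Coh
import Pool.Agent.J4H59.PF.Oq

/-!
# Derivations with values in the rational functions over finitely many translates of a set
-/

set_option autoImplicit false
set_option linter.unusedSectionVars false

open scoped Classical

namespace Pool.Agent.J4H59.PF

open Pool.Agent.Helper386.PD3 Pool.Agent.J4H59.PD Pool.Agent.J4H59.PE

noncomputable section

variable {G : Type} [Group G]

/-- common denominators -/
theorem exists_den {ι : Type} (f : ι → ℚ) (T : Finset ι) :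
    ∃ D : ℤ, D ≠ 0 ∧ ∀ i ∈ T, ∃ z : ℤ, (D : ℚ) * f i = z := by
  induction T using Finset.induction_on with
  | empty => exact ⟨1, one_ne_zero, fun i hi => absurd hi (Finset.notMem_empty _)⟩
  | insert a T ha ih =>
    obtain ⟨D, hD, h⟩ := ih
    refine ⟨D * (f a).den, mul_ne_zero hD (by exact_mod_cast (f a).den_ne_zero), fun i hi => ?_⟩
    rcases Finset.mem_insert.1 hi with h1 | h1
    · refine ⟨D * (f a).num, ?_⟩
      rw [h1]
      push_cast
      rw [mul_assoc, mul_comm ((f a).den : ℚ), Rat.mul_den_eq_num]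
    · obtain ⟨z, hz⟩ := h i h1
      refine ⟨(f a).den * z, ?_⟩
      push_cast
      rw [← hz]
      ring

/-- functions with almost invariant translates are almost constant -/
theorem almost_constq {d : ℕ} {x : Fin d → G} (hx : Subgroup.closure (Set.range x) = ⊤)
    (h : AllDer (G := G) (RR G)) (f : G → ℚ)
    (hf : ∀ g, {x | f (g⁻¹ * x) ≠ f x}.Finite) : ∃ c : ℚ, {x | f x ≠ c}.Finite := by
  have h1 : ∀ j, ∃ D : ℤ, D ≠ 0 ∧ ∀ y, ∃ z : ℤ, (D : ℚ) * (f ((x j)⁻¹ * y) - f y) = z := by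
    intro j
    obtain ⟨D, hD, hD'⟩ := exists_den (fun y => f ((x j)⁻¹ * y) - f y) (hf (x j)).toFinset
    refine ⟨D, hD, fun y => ?_⟩
    by_cases hy : f ((x j)⁻¹ * y) = f y
    · exact ⟨0, by rw [hy, sub_self, mul_zero, Int.cast_zero]⟩
    · exact hD' y ((hf (x j)).mem_toFinset.2 hy)
  choose D hD hD' using h1
  let E : ℤ := ∏ j, D j
  have hE : E ≠ 0 := Finset.prod_ne_zero_iff.2 fun j _ => hD j
  have hEq : (E : ℚ) ≠ 0 := by exact_mod_cast hE
  have hgen : ∀ j y, ∃ z : ℤ, (E : ℚ) * (f ((x j)⁻¹ * y) - f y) = z := by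
    intro j y
    obtain ⟨z, hz⟩ := hD' j y
    obtain ⟨e, he⟩ : D j ∣ E := Finset.dvd_prod_of_mem _ (Finset.mem_univ j)
    refine ⟨e * z, ?_⟩
    rw [he]
    push_cast
    rw [← hz]
    ring
  have hall : ∀ g y, ∃ z : ℤ, (E : ℚ) * (f (g⁻¹ * y) - f y) = z := by
    intro g
    have hg : g ∈ Subgroup.closure (Set.range x) := by rw [hx]; trivial
    induction hg using Subgroup.closure_induction with
    | mem g hg =>
      obtain ⟨j, rfl⟩ := hg
      exact hgen j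
    | one =>
      intro y
      exact ⟨0, by rw [inv_one, one_mul, sub_self, mul_zero, Int.cast_zero]⟩
    | mul g g' _ _ ih ih' =>
      intro y
      obtain ⟨z, hz⟩ := ih y
      obtain ⟨z', hz'⟩ := ih' (g⁻¹ * y)
      refine ⟨z + z', ?_⟩
      push_cast
      rw [← hz, ← hz', mul_inv_rev, mul_assoc]
      ring
    | inv g _ ih =>
      intro y
      obtain ⟨z, hz⟩ := ih (g * y)
      refine ⟨-z, ?_⟩
      push_cast
      rw [← hz, inv_inv, inv_mul_cancel_left]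
      ring
  have hint : ∀ y, ∃ z : ℤ, (E : ℚ) * (f y - f 1) = z := by
    intro y
    obtain ⟨z, hz⟩ := hall y y
    refine ⟨-z, ?_⟩
    push_cast
    rw [← hz, inv_mul_cancel]
    ring
  choose F hF using hint
  obtain ⟨c, hc⟩ := almost_const h F (fun g => by
    refine (hf g).subset ?_
    intro y hy hy'
    apply hy
    have h2 : (F (g⁻¹ * y) : ℚ) = F y := by rw [← hF, ← hF, hy']
    exact_mod_cast h2)
  refine ⟨c / E + f 1, hc.subset ?_⟩
  intro y hy hy'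
  apply hy
  have h2 := hF y
  rw [hy'] at h2
  have h3 : f y - f 1 = c / E := by
    rw [eq_div_iff hEq, mul_comm, h2]
  rw [← h3]
  ring

theorem pu_pu {N K H : Subgroup G} (hNK : N ≤ K) (hKH : K ≤ H) (y : G ⧸ N) :
    pu H (pu K y) = pu H y := by
  induction y using QuotientGroup.induction_on with
  | H g => rw [pu_mk hNK, pu_mk hKH, pu_mk (hNK.trans hKH)]

variable {N K H : Subgroup G} {I : Type}

theorem cell_finiteq (𝒱 : Vq N (OmI I G)) (hp : ∀ x : OmI I G, 𝒱.p x = (x.2 : G ⧸ N))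
    (hfin : ∀ f ∈ 𝒱.V, ∀ i, {g : G | f (omk i g) ≠ 0}.Finite)
    {f : FQ (OmI I G)} (hf : ∀ y, cutq {x | 𝒱.p x = y} f ∈ 𝒱.V) (i : I) (y : G) :
    {n : N | f (omk i (y * n)) ≠ 0}.Finite := by
  have h1 := hfin _ (hf (y : G ⧸ N)) i
  refine Set.Finite.of_finite_image (f := fun n : N => y * (n : G)) (h1.subset ?_) ?_
  · rintro _ ⟨n, hn, rfl⟩
    have hn : f (omk i (y * n)) ≠ 0 := hn
    change cutq {x | 𝒱.p x = (y : G ⧸ N)} f (omk i (y * n)) ≠ 0
    rw [cutq_of_mem]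
    · exact hn
    · change 𝒱.p (omk i (y * n)) = _
      rw [hp]
      exact mk_mulK y n.2
  · intro n _ n' _ h
    exact Subtype.ext (mul_left_cancel h)

/-- the potential of a derivation, almost constant on the cells -/
theorem exists_potq (𝒱 : Vq N (OmI I G)) (hp : ∀ x : OmI I G, 𝒱.p x = (x.2 : G ⧸ N))
    (hfin : ∀ f ∈ 𝒱.V, ∀ i, {g : G | f (omk i g) ≠ 0}.Finite) (hNK : N ≤ K) (R : Set (G ⧸ K))
    {d : ℕ} {x : Fin d → N} (hx : Subgroup.closure (Set.range x) = ⊤)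
    (hN : AllDer (G := N) (RR N)) (hNinf : Infinite N) (δ : G → 𝒱.MQ hNK R)
    (hδ : ∀ g h, δ (g * h) = δ g + gof g • δ h) :
    ∃ φ c : I → G → ℚ,
      (∀ (g : G) i x, φ i (g⁻¹ * x) - φ i x = (δ g : FQ (OmI I G)) (omk i x)) ∧
      (∀ i y, {n : N | φ i (y * n) ≠ c i y}.Finite) ∧
      ∀ (g : G) i x, (φ i (g⁻¹ * x) - c i (g⁻¹ * x)) - (φ i x - c i x) =
        (δ g : FQ (OmI I G)) (omk i x) := by
  let φ : I → G → ℚ := fun i x => -(δ x : FQ (OmI I G)) (omk i x)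
  have hφ : ∀ (g : G) i x, φ i (g⁻¹ * x) - φ i x = (δ g : FQ (OmI I G)) (omk i x) := by
    intro g i x
    have h1 := congrArg (fun m : 𝒱.MQ hNK R => (m : FQ (OmI I G)) (omk i x)) (hδ g (g⁻¹ * x))
    have h2 : (δ (g * (g⁻¹ * x)) : FQ (OmI I G)) (omk i x) =
      (δ g : FQ (OmI I G)) (omk i x) + (gof g • (δ (g⁻¹ * x) : FQ (OmI I G))) (omk i x) := h1
    rw [mul_inv_cancel_left, gofq_apply, omI_smul] at h2
    change -(δ (g⁻¹ * x) : FQ (OmI I G)) (omk i (g⁻¹ * x)) -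
      -(δ x : FQ (OmI I G)) (omk i x) = _
    rw [h2]
    ring
  have hcf : ∀ (g : G) i y, {n : N | (δ g : FQ (OmI I G)) (omk i (y * n)) ≠ 0}.Finite :=
    fun g i y => cell_finiteq 𝒱 hp hfin (δ g).2.1 i y
  have hex : ∀ i y, ∃ c : ℚ, {n : N | φ i (y * n) ≠ c}.Finite := by
    intro i y
    refine almost_constq hx hN (fun n : N => φ i (y * n)) fun n' => ?_
    refine (hcf (y * n' * y⁻¹) i y).subset ?_
    intro n hn h0
    apply hn
    have h1 := hφ (y * n' * y⁻¹) i (y * n)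
    rw [h0] at h1
    have h2 : (y * (n' : G) * y⁻¹)⁻¹ * (y * n) = y * ((n'⁻¹ * n : N) : G) := by
      rw [Subgroup.coe_mul, Subgroup.coe_inv]
      group
    rw [h2] at h1
    change φ i (y * ((n'⁻¹ * n : N) : G)) = φ i (y * n)
    linarith
  choose c hc using hex
  refine ⟨φ, c, hφ, hc, fun g i x => ?_⟩
  have h1 := hcf g i x
  have h2 := hc i x
  have h3 := hc i (g⁻¹ * x)
  obtain ⟨n, hn⟩ := ((h1.union h2).union h3).exists_notMem
  rw [Set.mem_union, Set.mem_union, not_or, not_or] at hn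
  have h4 : (δ g : FQ (OmI I G)) (omk i (x * n)) = 0 := not_not.1 hn.1.1
  have h5 : φ i (x * n) = c i x := not_not.1 hn.1.2
  have h6 : φ i (g⁻¹ * x * n) = c i (g⁻¹ * x) := not_not.1 hn.2
  have h7 := hφ g i (x * n)
  rw [h4, ← mul_assoc, h5, h6] at h7
  have h8 := hφ g i x
  rw [← h8]
  linarith

/-- A potential which vanishes off a set of cells which is not everything -/
theorem inner_of_potq (𝒱 : Vq N (OmI I G)) (hNK : N ≤ K)
    (R : Set (G ⧸ K)) (δ : G → 𝒱.MQ hNK R) (m : FQ (OmI I G))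
    (hm : ∀ (g : G) x, m (g⁻¹ • x) - m x = (δ g : FQ (OmI I G)) x)
    (E : Set (G ⧸ N)) (hE : ∃ y, y ∉ E) (hm0 : ∀ x, 𝒱.p x ∉ E → m x = 0)
    (hpt : ∀ z : G ⧸ K, {y | y ∈ 𝒱.p '' spq m ∧ pu K y = z}.Finite)
    (hsup : ∃ T : Finset G, ∀ x, m x ≠ 0 → ∃ g ∈ T, g⁻¹ • pu K (𝒱.p x) ∈ R) :
    ∃ μ : 𝒱.MQ hNK R, ∀ g, δ g = gof g • μ - μ := by
  have hmM : m ∈ 𝒱.MQ hNK R := by
    refine ⟨fun y => ?_, hpt, hsup⟩
    obtain ⟨y', hy'⟩ := hE
    obtain ⟨g, hg⟩ := MulAction.exists_smul_eq G y' y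
    have h1 : cutq {x | 𝒱.p x = y} m =
        -cutq {x | 𝒱.p x = y} (δ g : FQ (OmI I G)) := by
      refine fq_ext fun x => ?_
      rw [fqneg_apply]
      by_cases hx : 𝒱.p x = y
      · have h3 : m (g⁻¹ • x) = 0 := by
          apply hm0
          rw [𝒱.hp, hx, ← hg, inv_smul_smul]
          exact hy'
        rw [cutq_of_mem (s := {x | 𝒱.p x = y}) m hx,
          cutq_of_mem (s := {x | 𝒱.p x = y}) _ hx, ← hm g x, h3]
        ring
      · rw [cutq_of_notMem (s := {x | 𝒱.p x = y}) m hx,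
          cutq_of_notMem (s := {x | 𝒱.p x = y}) _ hx, neg_zero]
    rw [h1]
    exact neg_mem ((δ g).2.1 _)
  refine ⟨⟨m, hmM⟩, fun g => ?_⟩
  apply Subtype.ext
  refine fq_ext fun x => ?_
  rw [← hm g x]
  change _ = (gof g • m) x - m x
  rw [gofq_apply]

/-- The main cohomological vanishing result, for a set in `H ⧸ K` with `H` of infinite index. -/
theorem allDer_MQ (𝒱 : Vq N (OmI I G)) (hp : ∀ x : OmI I G, 𝒱.p x = (x.2 : G ⧸ N))
    (hfin : ∀ f ∈ 𝒱.V, ∀ i, {g : G | f (omk i g) ≠ 0}.Finite) (hNK : N ≤ K) (hKH : K ≤ H)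
    (R : Set (G ⧸ K)) (hR : ∀ c ∈ R, pu H c = ((1 : G) : G ⧸ H)) {S : Finset G}
    (hS : Subgroup.closure (S : Set G) = ⊤) (hinf : Infinite (G ⧸ H))
    {d : ℕ} {x : Fin d → N} (hx : Subgroup.closure (Set.range x) = ⊤)
    (hN : AllDer (G := N) (RR N)) (hNinf : Infinite N)
    (htf : ∀ (x : G) (k : ℤ), k ≠ 0 → x ^ k = 1 → x = 1)
    (hB : ∀ (E : Set (G ⧸ H)) (y : G), BY S H E y ⊓ N = ⊥ →
      AllDer (G := G) (famF (BY S H E y)).sub) :
    AllDer (G := G) (𝒱.MQ hNK R) := by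
  have hNH : N ≤ H := hNK.trans hKH
  intro δ hδ
  obtain ⟨φ, c, hφ, hc, hm⟩ := exists_potq 𝒱 hp hfin hNK R hx hN hNinf δ hδ
  let E : Set (G ⧸ H) := (⋃ s ∈ S, pu H '' (𝒱.p '' spq (δ s : FQ (OmI I G)))) ∪
    {((1 : G) : G ⧸ H)}
  have hfinE : ∀ f : 𝒱.MQ hNK R, (pu H '' (𝒱.p '' spq (f : FQ (OmI I G)))).Finite := by
    intro f
    obtain ⟨T, hT⟩ := f.2.2.2
    refine (T.finite_toSet.image fun g : G => (g : G ⧸ H)).subset ?_
    rintro _ ⟨_, ⟨x, hx, rfl⟩, rfl⟩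
    obtain ⟨g, hg, h⟩ := hT x hx
    refine ⟨g, hg, ?_⟩
    have h1 := hR _ h
    rw [pu_smul hKH, pu_pu hNK hKH, inv_smul_eq_iff] at h1
    rw [h1]
    change (g : G ⧸ H) = ((g * 1 : G) : G ⧸ H)
    rw [mul_one]
  have hE : E.Finite := by
    refine Set.Finite.union ?_ (Set.finite_singleton _)
    exact Set.Finite.biUnion S.finite_toSet fun s _ => hfinE (δ s)
  have hEq : ∀ a b : G, EqG S H E a b → ∀ i, φ i a = φ i b := by
    intro a b hab i
    induction hab with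
    | rel a b h =>
      obtain ⟨s, hs, rfl, h1, h2⟩ := h
      have h3 := hφ s i (s * a)
      rw [inv_mul_cancel_left] at h3
      have h4 : (δ s : FQ (OmI I G)) (omk i (s * a)) = 0 := by
        by_contra hcon
        apply h2
        refine Or.inl (Set.mem_iUnion₂.2 ⟨s, hs, ⟨_, ⟨omk i (s * a), hcon, rfl⟩, ?_⟩⟩)
        rw [hp]
        exact pu_mk hNH _
      rw [h4] at h3
      linarith
    | refl a => rfl
    | symm a b _ ih => exact ih.symm
    | trans a b c _ _ ih ih' => exact ih.trans ih'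
  let E' : Set (G ⧸ H) := E ∪ {c | c ∉ E ∧ {c' | EqX S H E c' c}.Finite}
  have hE' : E'.Finite := hE.union (fin_comps hS hE hinf)
  have hout : ∀ y : G, (y : G ⧸ H) ∉ E' → ∀ i, φ i y = c i y := by
    intro y hy i
    rw [Set.mem_union, not_or] at hy
    obtain ⟨hy1, hy2⟩ := hy
    have hne : BY S H E y ⊓ N ≠ ⊥ := by
      intro hbot
      have hK : (BY S H E y).relIndex H = 0 := by
        by_contra hcon
        have h1 : (BY S H E y).relIndex N ≠ 0 :=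
          mt (Subgroup.relIndex_eq_zero_of_le_right hNH) hcon
        rw [← Subgroup.inf_relIndex_right, hbot, Subgroup.relIndex_bot_left] at h1
        exact h1 (Nat.card_eq_zero_of_infinite)
      exact hy2 ⟨hy1, comp_finite hS hE ⟨_, Or.inr rfl⟩ y hy1 (hB E y hbot) hK⟩
    obtain ⟨⟨b, hb⟩, hb1⟩ := (Subgroup.ne_bot_iff_exists_ne_one.1 hne)
    have hb1 : b ≠ 1 := fun h => hb1 (Subtype.ext h)
    have hord : ∀ k : ℤ, k ≠ 0 → b ^ k ≠ 1 := fun k hk h1 => hb1 (htf b k hk h1)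
    have hinj : Function.Injective fun k : ℤ => (⟨b, hb.2⟩ : N) ^ k := by
      intro k l hkl
      have h1 : b ^ k = b ^ l := congrArg Subtype.val hkl
      exact infinite_order hord 1 (by simpa using h1)
    obtain ⟨_, ⟨k, rfl⟩, hk⟩ := (Set.infinite_range_of_injective hinj).exists_notMem_finite (hc i y)
    have hk : φ i (y * (((⟨b, hb.2⟩ : N) ^ k : N) : G)) = c i y := not_not.1 hk
    rw [← hk]
    refine (hEq _ _ ?_ i).symm
    exact ((BY S H E y).zpow_mem hb.1 k).2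
  let m : FQ (OmI I G) := fun x => φ x.1 x.2 - c x.1 x.2
  have hm' : ∀ (g : G) (x : OmI I G), m (g⁻¹ • x) - m x = (δ g : FQ (OmI I G)) x := by
    rintro g ⟨i, x⟩
    exact hm g i x
  have hm0 : ∀ x : OmI I G, pu H (𝒱.p x) ∉ E' → m x = 0 := by
    intro x hx
    rw [hp, pu_mk hNH] at hx
    change φ x.1 x.2 - c x.1 x.2 = 0
    rw [hout x.2 hx, sub_self]
  obtain ⟨c0, hc0⟩ := hE'.exists_notMem
  have h1 : ∀ c' : G ⧸ H, ∃ g : G, g⁻¹ • c' = c0 := by
    intro c'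
    obtain ⟨g, hg⟩ := MulAction.exists_smul_eq G c' c0
    exact ⟨g⁻¹, by rw [inv_inv]; exact hg⟩
  choose γ hγ using h1
  have hsupp : ∀ x, m x ≠ 0 → (δ (γ (pu H (𝒱.p x))) : FQ (OmI I G)) x ≠ 0 := by
    intro x hx
    have h3 : m ((γ (pu H (𝒱.p x)))⁻¹ • x) = 0 := by
      apply hm0
      rw [𝒱.hp, pu_smul hNH, hγ]
      exact hc0
    have h4 := hm' (γ (pu H (𝒱.p x))) x
    rw [h3, zero_sub] at h4
    rw [← h4]
    exact neg_ne_zero.2 hx
  refine inner_of_potq 𝒱 hNK R δ m hm' {y | pu H y ∈ E'} ?_ hm0 (fun z => ?_) ?_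
  · obtain ⟨b, rfl⟩ := QuotientGroup.mk_surjective c0
    refine ⟨(b : G ⧸ N), ?_⟩
    change pu H (b : G ⧸ N) ∉ E'
    rw [pu_mk hNH]
    exact hc0
  · refine ((δ (γ (pu H z))).2.2.1 z).subset ?_
    rintro _ ⟨⟨x, hx, rfl⟩, hz⟩
    refine ⟨⟨x, ?_, rfl⟩, hz⟩
    have h2 := hsupp x hx
    rw [← pu_pu hNK hKH, hz] at h2
    exact h2
  · choose T hT using fun g => (δ g).2.2.2
    refine ⟨hE'.toFinset.biUnion fun c' => T (γ c'), fun x hx => ?_⟩
    have h2 : pu H (𝒱.p x) ∈ E' := by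
      by_contra hcon
      exact hx (hm0 x hcon)
    obtain ⟨g, hg, h5⟩ := hT (γ (pu H (𝒱.p x))) x (hsupp x hx)
    exact ⟨g, Finset.mem_biUnion.2 ⟨_, hE'.mem_toFinset.2 h2, hg⟩, h5⟩

/-- orbits of an element a power of which fixes the point are finite -/
theorem finite_zorbit {X : Type} [MulAction G X] {u : G} {y : X} {e : ℕ} (he : 0 < e)
    (h : u ^ e • y = y) : {y' | ∃ j : ℤ, y' = u ^ j • y}.Finite := by
  refine (Set.finite_range fun i : Fin e => u ^ (i : ℕ) • y).subset ?_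
  rintro _ ⟨j, rfl⟩
  have he' : (e : ℤ) ≠ 0 := by exact_mod_cast he.ne'
  have h1 : ∀ k : ℤ, (u ^ e) ^ k • y = y := by
    intro k
    have h2 : u ^ e ∈ MulAction.stabilizer G y := h
    exact (MulAction.stabilizer G y).zpow_mem h2 k
  obtain ⟨i, hi⟩ := Int.eq_ofNat_of_zero_le (Int.emod_nonneg j he')
  have hlt : i < e := by
    have := Int.emod_lt_of_pos j (by exact_mod_cast he : (0 : ℤ) < e)
    omega
  refine ⟨⟨i, hlt⟩, ?_⟩
  change u ^ i • y = u ^ j • y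
  have h3 : u ^ j = u ^ i * (u ^ e) ^ (j / e) := by
    rw [← zpow_natCast u e, ← zpow_mul, ← zpow_natCast u i, ← hi, ← zpow_add, Int.emod_add_mul_ediv]
  rw [h3, mul_smul, h1]

/-- The main cohomological vanishing result, for `H` of finite index. -/
theorem allDer_MQ_fin (𝒱 : Vq N (OmI I G)) (hp : ∀ x : OmI I G, 𝒱.p x = (x.2 : G ⧸ N))
    (hfin : ∀ f ∈ 𝒱.V, ∀ i, {g : G | f (omk i g) ≠ 0}.Finite) (hNK : N ≤ K) (hKH : K ≤ H)
    (hHK : H ≤ Subgroup.normalizer (K : Set G)) (hpow : ∀ x ∈ K, ∃ e : ℕ, 0 < e ∧ x ^ e ∈ N)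
    (R : Set (G ⧸ K)) (hHi : Finite (G ⧸ H))
    (hC : ∀ E : Set (G ⧸ N), (∀ z : G ⧸ K, {y | y ∈ E ∧ pu K y = z}.Finite) →
      (∃ T : Finset G, ∀ y ∈ E, ∃ g ∈ T, g⁻¹ • pu K y ∈ R) → ∃ y, y ∉ E)
    {d : ℕ} {x : Fin d → N} (hx : Subgroup.closure (Set.range x) = ⊤)
    (hN : AllDer (G := N) (RR N)) (hNinf : Infinite N)
    (htf : ∀ (x : G) (k : ℤ), k ≠ 0 → x ^ k = 1 → x = 1) :
    AllDer (G := G) (𝒱.MQ hNK R) := by
  have hNH : N ≤ H := hNK.trans hKH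
  intro δ hδ
  obtain ⟨φ, c, hφ, hc, hm⟩ := exists_potq 𝒱 hp hfin hNK R hx hN hNinf δ hδ
  obtain ⟨u, hu1⟩ := exists_ne (1 : N)
  have hu1 : (u : G) ≠ 1 := fun h => hu1 (Subtype.ext h)
  let ua : G ⧸ H → G := fun a => rp a * u * (rp a)⁻¹
  let Sg0 : G ⧸ H → Set (G ⧸ N) := fun a => 𝒱.p '' spq (δ (ua a)⁻¹ : FQ (OmI I G))
  let E : Set (G ⧸ N) := {y | ∃ j : ℤ, (ua (pu H y)) ^ j • y ∈ Sg0 (pu H y)}
  -- conjugates of `u` are in `K`
  have hconj : ∀ g : G, g⁻¹ * ua (g : G ⧸ H) * g ∈ K := by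
    intro g
    have hk : (rp (g : G ⧸ H))⁻¹ * g ∈ H := by rw [← QuotientGroup.eq, mk_rp]
    have h1 := (Subgroup.mem_normalizer_iff.1 (Subgroup.inv_mem _ (hHK hk)) _).1 (hNK u.2)
    have h2 : ((rp (g : G ⧸ H))⁻¹ * g)⁻¹ * (u : G) * ((rp (g : G ⧸ H))⁻¹ * g)⁻¹⁻¹ =
      g⁻¹ * ua (g : G ⧸ H) * g := by
      change _ = g⁻¹ * (rp (g : G ⧸ H) * u * (rp (g : G ⧸ H))⁻¹) * g
      group
    rwa [h2] at h1
  have hfixK : ∀ z : G ⧸ K, ua (pu H z) • z = z := by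
    intro z
    induction z using QuotientGroup.induction_on with
    | H g =>
      rw [pu_mk hKH]
      change ((ua (g : G ⧸ H) * g : G) : G ⧸ K) = (g : G ⧸ K)
      rw [eq_comm, QuotientGroup.eq, ← mul_assoc]
      exact hconj g
  have hfixKz : ∀ (z : G ⧸ K) (j : ℤ), ua (pu H z) ^ j • z = z := by
    intro z j
    have h2 : ua (pu H z) ∈ MulAction.stabilizer G z := hfixK z
    exact (MulAction.stabilizer G z).zpow_mem h2 j
  have hfixN : ∀ g : G, ∃ e : ℕ, 0 < e ∧ (g⁻¹ * ua (g : G ⧸ H) * g) ^ e ∈ N := fun g =>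
    hpow _ (hconj g)
  have horb : ∀ y : G ⧸ N, {y' | ∃ j : ℤ, y' = ua (pu H y) ^ j • y}.Finite := by
    intro y
    induction y using QuotientGroup.induction_on with
    | H g =>
      obtain ⟨e, he, heN⟩ := hfixN g
      rw [pu_mk hNH]
      refine finite_zorbit he ?_
      change ((ua (g : G ⧸ H) ^ e * g : G) : G ⧸ N) = (g : G ⧸ N)
      rw [eq_comm, QuotientGroup.eq]
      have h1 : (g⁻¹ * ua (g : G ⧸ H) * g) ^ e = g⁻¹ * (ua (g : G ⧸ H) ^ e * g) := by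
        have h2 := conj_pow (a := g⁻¹) (b := ua (g : G ⧸ H)) (i := e)
        rw [inv_inv] at h2
        rw [h2, mul_assoc]
      rwa [h1] at heN
  have hpuH : ∀ (y : G ⧸ N) (j : ℤ), pu H (ua (pu H y) ^ j • y) = pu H y := by
    intro y j
    rw [← pu_pu hNK hKH, ← pu_pu hNK hKH, pu_smul hNK, hfixKz]
  -- the potential is constant on the cells outside
  have hstep : ∀ (g : G) (i : I), (g : G ⧸ N) ∉ E → ∀ j : ℤ,
      φ i (ua (g : G ⧸ H) ^ (j + 1) * g) = φ i (ua (g : G ⧸ H) ^ j * g) := by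
    intro g i hg j
    have h1 := hφ (ua (g : G ⧸ H))⁻¹ i (ua (g : G ⧸ H) ^ j * g)
    have h2 : (δ (ua (g : G ⧸ H))⁻¹ : FQ (OmI I G)) (omk i (ua (g : G ⧸ H) ^ j * g)) = 0 := by
      by_contra hcon
      apply hg
      refine ⟨j, ?_⟩
      rw [pu_mk hNH]
      refine ⟨omk i (ua (g : G ⧸ H) ^ j * g), hcon, ?_⟩
      rw [hp]
      rfl
    have h3 : (ua (g : G ⧸ H))⁻¹⁻¹ * (ua (g : G ⧸ H) ^ j * g) = ua (g : G ⧸ H) ^ (j + 1) * g := by
      rw [inv_inv, ← mul_assoc, add_comm j 1, zpow_one_add]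
    rw [h2, h3] at h1
    linarith
  have hall : ∀ (g : G) (i : I), (g : G ⧸ N) ∉ E → ∀ j : ℤ,
      φ i (ua (g : G ⧸ H) ^ j * g) = φ i g := by
    intro g i hg j
    induction j using Int.induction_on with
    | zero => rw [zpow_zero, one_mul]
    | succ j ih => rw [hstep g i hg, ih]
    | pred j ih =>
      rw [← ih]
      have h1 := hstep g i hg (-(j : ℤ) - 1)
      rw [sub_add_cancel] at h1
      exact h1.symm
  have hout : ∀ (g : G) (i : I), (g : G ⧸ N) ∉ E → φ i g = c i g := by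
    intro g i hg
    obtain ⟨e, he, heN⟩ := hfixN g
    let n : N := ⟨_, heN⟩
    have hn1 : (n : G) ≠ 1 := by
      intro h1
      have h1 : (g⁻¹ * ua (g : G ⧸ H) * g) ^ e = 1 := h1
      have h2 : g⁻¹ * ua (g : G ⧸ H) * g = 1 := htf _ e (by exact_mod_cast he.ne') (by
        rw [zpow_natCast]
        exact h1)
      have h3 : g⁻¹ * ua (g : G ⧸ H) * g = ((rp (g : G ⧸ H))⁻¹ * g)⁻¹ * (u : G) *
          ((rp (g : G ⧸ H))⁻¹ * g) := by
        change g⁻¹ * (rp (g : G ⧸ H) * u * (rp (g : G ⧸ H))⁻¹) * g = _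
        group
      rw [h3] at h2
      apply hu1
      have h4 : (u : G) = ((rp (g : G ⧸ H))⁻¹ * g) * (((rp (g : G ⧸ H))⁻¹ * g)⁻¹ * (u : G) *
          ((rp (g : G ⧸ H))⁻¹ * g)) * ((rp (g : G ⧸ H))⁻¹ * g)⁻¹ := by group
      rw [h4, h2, mul_one, mul_inv_cancel]
    have hord : ∀ k : ℤ, k ≠ 0 → (n : G) ^ k ≠ 1 := fun k hk h1 => hn1 (htf _ k hk h1)
    have hinj : Function.Injective fun k : ℤ => n ^ k := by
      intro k l hkl
      have h1 : (n : G) ^ k = (n : G) ^ l := congrArg Subtype.val hkl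
      exact infinite_order hord 1 (by simpa using h1)
    obtain ⟨_, ⟨k, rfl⟩, hk⟩ := (Set.infinite_range_of_injective hinj).exists_notMem_finite (hc i g)
    have hk : φ i (g * ((n ^ k : N) : G)) = c i g := not_not.1 hk
    rw [← hk, ← hall g i hg (e * k)]
    congr 1
    change _ = g * ((g⁻¹ * ua (g : G ⧸ H) * g) ^ e) ^ k
    have h2 := conj_zpow (a := g⁻¹) (b := ua (g : G ⧸ H)) (i := (e : ℤ) * k)
    rw [inv_inv] at h2
    rw [← zpow_natCast, ← zpow_mul, h2]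
    group
  let m : FQ (OmI I G) := fun x => φ x.1 x.2 - c x.1 x.2
  have hm' : ∀ (g : G) (x : OmI I G), m (g⁻¹ • x) - m x = (δ g : FQ (OmI I G)) x := by
    rintro g ⟨i, x⟩
    exact hm g i x
  have hm0 : ∀ x : OmI I G, 𝒱.p x ∉ E → m x = 0 := by
    intro x hx
    rw [hp] at hx
    change φ x.1 x.2 - c x.1 x.2 = 0
    rw [hout x.2 x.1 hx, sub_self]
  have hEz : ∀ z : G ⧸ K, {y | y ∈ E ∧ pu K y = z}.Finite := by
    intro z
    have h1 : (⋃ y ∈ {y | y ∈ Sg0 (pu H z) ∧ pu K y = z}, {y' | ∃ j : ℤ, y' = ua (pu H y) ^ j • y}).Finite :=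
      Set.Finite.biUnion ((δ (ua (pu H z))⁻¹).2.2.1 z) fun y _ => horb y
    refine h1.subset ?_
    rintro y ⟨⟨j, hj⟩, hz⟩
    have hyz : pu H y = pu H z := by rw [← hz, pu_pu hNK hKH]
    have hz' : pu K (ua (pu H y) ^ j • y) = z := by
      rw [pu_smul hNK, hz, hyz, hfixKz]
    refine Set.mem_iUnion₂.2 ⟨ua (pu H y) ^ j • y, ⟨by rw [← hyz]; exact hj, hz'⟩, -j, ?_⟩
    rw [hpuH, zpow_neg, inv_smul_smul]
  have hET : ∃ T : Finset G, ∀ y ∈ E, ∃ g ∈ T, g⁻¹ • pu K y ∈ R := by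
    have := Fintype.ofFinite (G ⧸ H)
    choose T hT using fun g => (δ g).2.2.2
    refine ⟨(Finset.univ : Finset (G ⧸ H)).biUnion fun a => T (ua a)⁻¹, ?_⟩
    rintro y ⟨j, ⟨x, hx, hxy⟩⟩
    obtain ⟨g, hg, h⟩ := hT _ x hx
    refine ⟨g, Finset.mem_biUnion.2 ⟨_, Finset.mem_univ _, hg⟩, ?_⟩
    rw [hxy, pu_smul hNK] at h
    have h1 := hfixKz (pu K y) j
    rw [pu_pu hNK hKH] at h1
    rw [h1] at h
    exact h
  refine inner_of_potq 𝒱 hNK R δ m hm' E (hC E hEz hET) hm0 (fun z => (hEz z).subset ?_) ?_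
  · rintro _ ⟨⟨x, hx, rfl⟩, hz⟩
    refine ⟨?_, hz⟩
    by_contra hcon
    exact hx (hm0 x hcon)
  · obtain ⟨T, hT⟩ := hET
    refine ⟨T, fun x hx => hT _ ?_⟩
    by_contra hcon
    exact hx (hm0 x hcon)

end

end Pool.Agent.J4H59.PF
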