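import Pool.Agent.J4H59.PF.Tr
import Mathlib.GroupTheory.Schreier

/-!
# Overgroups which are unions of finite extensions
-/

set_option autoImplicit false
set_option linter.unusedSectionVars false

open scoped Classical

namespace Pool.Agent.J4H59.PF

open Pool.Agent.Helper386.PD3 Pool.Agent.J4H59.PD

noncomputable section

variable {G : Type} [Group G] {N K L H : Subgroup G}

/-- `N` has finite index in all subgroups of `K` generated by `N` and finitely many elements. -/
def Hul (N K : Subgroup G) : Prop :=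
  N ≤ K ∧ ∀ F : Finset G, (F : Set G) ⊆ K →
    N.relIndex (N ⊔ Subgroup.closure (F : Set G)) ≠ 0

theorem Hul.le (h : Hul N K) : N ≤ K := h.1

theorem hul_refl (N : Subgroup G) : Hul N N := by
  refine ⟨le_rfl, fun F hF => ?_⟩
  have h1 : N ⊔ Subgroup.closure (F : Set G) = N := sup_eq_left.2 ((Subgroup.closure_le _).2 hF)
  rw [h1, Subgroup.relIndex_self]
  exact one_ne_zero

theorem Hul.pow (h : Hul N K) {x : G} (hx : x ∈ K) : ∃ e : ℕ, 0 < e ∧ x ^ e ∈ N := by
  have h1 := h.2 {x} (by
    intro y hy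
    rw [Finset.coe_singleton, Set.mem_singleton_iff] at hy
    rw [hy]
    exact hx)
  obtain ⟨e, he, -, he'⟩ := Subgroup.exists_pow_mem_of_relIndex_ne_zero h1 (a := x)
    (Subgroup.mem_sup_right (Subgroup.subset_closure (by
      rw [Finset.coe_singleton]
      exact Set.mem_singleton x)))
  exact ⟨e, he, he'.1⟩

/-- finitely generated subgroups -/
theorem Hul.fg (h : Hul N K) (hL : L.FG) (hLK : L ≤ K) (hNL : N ≤ L) : N.relIndex L ≠ 0 := by
  obtain ⟨F, hF⟩ := hL
  have h1 := h.2 F (fun x hx => hLK (by rw [← hF]; exact Subgroup.subset_closure hx))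
  rw [hF, sup_eq_right.2 hNL] at h1
  exact h1

/-- Elements of the normaliser commensurate. -/
theorem Hul.as (h : Hul N K) (hfg : N.FG) {s : G} (hs : s ∈ Subgroup.normalizer (K : Set G)) :
    (As N s).index ≠ 0 := by
  let c : G →* G := (MulAut.conj s).toMonoidHom
  have h1 : As N s = (N.comap c).subgroupOf N := by
    ext n
    rw [Subgroup.mem_subgroupOf, Subgroup.mem_comap]
    rfl
  have h2 : (As N s).index = N.relIndex (N.map c) := by
    rw [h1, ← Subgroup.relIndex_comap]
    rfl
  rw [h2]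
  obtain ⟨F, hF⟩ := hfg
  have h3 : N.map c = Subgroup.closure ((F.image c : Finset G) : Set G) := by
    conv_lhs => rw [← hF]
    rw [MonoidHom.map_closure, Finset.coe_image]
  have h4 := h.2 (F.image c) (by
    intro y hy
    rw [Finset.coe_image] at hy
    obtain ⟨x, hx, rfl⟩ := hy
    have hxK : x ∈ K := h.1 (by rw [← hF]; exact Subgroup.subset_closure hx)
    exact (Subgroup.mem_normalizer_iff.1 hs x).1 hxK)
  rw [← h3] at h4
  exact mt (Subgroup.relIndex_eq_zero_of_le_right le_sup_right) h4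

/-- closure under finite extensions -/
theorem Hul.ext_fin (h : Hul N K) (hfg : N.FG) {F : Finset G}
    (hF : K.relIndex (K ⊔ Subgroup.closure (F : Set G)) ≠ 0) :
    N.relIndex (N ⊔ Subgroup.closure (F : Set G)) ≠ 0 := by
  set P := N ⊔ Subgroup.closure (F : Set G) with hP
  have hPfg : P.FG := Subgroup.FG.sup hfg ⟨F, rfl⟩
  have hKP : K.relIndex P ≠ 0 :=
    mt (Subgroup.relIndex_eq_zero_of_le_right (sup_le_sup_right h.1 _)) hF
  have h1 : (K ⊓ P).relIndex P ≠ 0 := by rwa [Subgroup.inf_relIndex_right]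
  have h2 : (K ⊓ P).FG := by
    have h3 : Group.FG P := (Group.fg_iff_subgroup_fg P).2 hPfg
    have h4 : (K.subgroupOf P).FiniteIndex := ⟨hKP⟩
    have h5 : Group.FG (K.subgroupOf P) := inferInstance
    have h6 : (K.subgroupOf P).FG := (Group.fg_iff_subgroup_fg _).1 h5
    have h7 : (K.subgroupOf P).map P.subtype = K ⊓ P := by
      rw [Subgroup.subgroupOf_map_subtype]
    rw [← h7]
    obtain ⟨T, hT⟩ := h6
    refine ⟨T.image P.subtype, ?_⟩
    rw [← hT, MonoidHom.map_closure, Finset.coe_image]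
  have h3 : N.relIndex (K ⊓ P) ≠ 0 := h.fg h2 inf_le_left (le_inf h.1 le_sup_left)
  rw [← Subgroup.relIndex_mul_relIndex N (K ⊓ P) P (le_inf h.1 le_sup_left) inf_le_right]
  exact mul_ne_zero h3 h1

/-- closure under unions of chains -/
theorem hul_sSup {c : Set (Subgroup G)} (hne : c.Nonempty) (hc : IsChain (· ≤ ·) c)
    (h : ∀ K ∈ c, Hul N K) : Hul N (sSup c) := by
  obtain ⟨K₀, hK₀⟩ := hne
  refine ⟨(h K₀ hK₀).1.trans (le_sSup hK₀), fun F hF => ?_⟩
  have hex : ∀ F : Finset G, (F : Set G) ⊆ (sSup c : Subgroup G) → ∃ K ∈ c, (F : Set G) ⊆ K := by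
    intro F
    induction F using Finset.induction_on with
    | empty =>
      intro _
      refine ⟨K₀, hK₀, ?_⟩
      rw [Finset.coe_empty]
      exact Set.empty_subset _
    | insert a F _ ih =>
      intro hF
      rw [Finset.coe_insert, Set.insert_subset_iff] at hF
      obtain ⟨K, hK, hFK⟩ := ih hF.2
      obtain ⟨K', hK', haK'⟩ := (Subgroup.mem_sSup_of_directedOn ⟨K₀, hK₀⟩ hc.directedOn).1 hF.1
      rcases hc.total hK hK' with h1 | h1
      · refine ⟨K', hK', ?_⟩
        rw [Finset.coe_insert, Set.insert_subset_iff]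
        exact ⟨haK', hFK.trans h1⟩
      · refine ⟨K, hK, ?_⟩
        rw [Finset.coe_insert, Set.insert_subset_iff]
        exact ⟨h1 haK', hFK⟩
  obtain ⟨K, hK, hFK⟩ := hex F hF
  exact (h K hK).2 F hFK

end

end Pool.Agent.J4H59.PF
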