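import Pool.Agent.J4H59.PE.AsmL
import Pool.Agent.J4H59.PF.Hull

/-!
# Lines
-/

set_option autoImplicit false
set_option linter.unusedSectionVars false

open scoped Classical

namespace Pool.Agent.J4H59.PF

open Pool.Agent.Helper386.PD3 Pool.Agent.J4H59.PD Pool.Agent.J4H59.PE Pool.Agent.Helper158

noncomputable section

variable {G : Type} [Group G] {U : Subgroup G}

/-- right translations by elements of the normaliser -/
theorem mk_mul_norm {a b z : G} (hz : z ∈ Subgroup.normalizer (U : Set G)) :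
    ((a * z : G) : G ⧸ U) = ((b * z : G) : G ⧸ U) ↔ (a : G ⧸ U) = (b : G ⧸ U) := by
  rw [QuotientGroup.eq, QuotientGroup.eq]
  have h1 : (a * z)⁻¹ * (b * z) = z⁻¹ * (a⁻¹ * b) * z⁻¹⁻¹ := by group
  rw [h1]
  exact (Subgroup.mem_normalizer_iff.1 (Subgroup.inv_mem _ hz) _).symm

/-- translation of a line -/
def lnBase (v : Ln U) : Ln U where
  h k := v.h k * (v.h 0)⁻¹
  st := v.st
  S := v.S
  hst := v.hst
  hS := v.hS
  hh k := by rw [v.hh, mul_assoc]
  hn k := Subgroup.mul_mem _ (v.hn k) (Subgroup.inv_mem _ (v.hn 0))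
  hj g := by
    obtain ⟨J, hJ⟩ := v.hj g
    refine ⟨J, fun k l hkl => hJ k l ?_⟩
    have hkl : ((g * (v.h k * (v.h 0)⁻¹) : G) : G ⧸ U) = ((v.h l * (v.h 0)⁻¹ : G) : G ⧸ U) := hkl
    rw [← mul_assoc] at hkl
    exact (mk_mul_norm (Subgroup.inv_mem _ (v.hn 0))).1 hkl
  hinj k l hkl := v.hinj k l ((mk_mul_norm (Subgroup.inv_mem _ (v.hn 0))).1 hkl)

theorem lnBase_zero (v : Ln U) : (lnBase v).h 0 = 1 := mul_inv_cancel _

/-- Lines from torsion quotients. -/
theorem exists_LnF {H : Subgroup G} (hUH : U ≤ H) (hHN : H ≤ Subgroup.normalizer (U : Set G))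
    {F : Finset G} (hF : H = U ⊔ Subgroup.closure (F : Set G)) (hinf : U.relIndex H = 0)
    (htor : ∀ h ∈ H, ∃ n : ℕ, 0 < n ∧ h ^ n ∈ U) :
    ∃ v : Ln U, v.h 0 = 1 ∧ (∀ k, v.h k ∈ H) ∧ ∀ T : Finset G, ∃ z ∈ H, ∀ g ∈ T, ∀ k : ℤ,
      g⁻¹ • (z : G ⧸ U) ≠ (v.h k : G ⧸ U) := by
  have hnorm : (U.subgroupOf H).Normal := ⟨fun n hn g => by
    rw [Subgroup.mem_subgroupOf] at hn ⊢
    exact (Subgroup.mem_normalizer_iff.1 (hHN g.2) _).1 hn⟩
  let Q := H ⧸ U.subgroupOf H
  have hQi : Infinite Q := by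
    by_contra hfin
    rw [not_infinite_iff_finite] at hfin
    exact Subgroup.index_ne_zero_of_finite (H := U.subgroupOf H) hinf
  have hFH : ∀ x ∈ F, x ∈ H := fun x hx => by
    rw [hF]
    exact Subgroup.mem_sup_right (Subgroup.subset_closure hx)
  have hQfg : Group.FG Q := by
    let π : H →* Q := QuotientGroup.mk' (U.subgroupOf H)
    refine Group.fg_def.2 ⟨F.attach.image fun x => π ⟨x.1, hFH x.1 x.2⟩, ?_⟩
    rw [eq_top_iff]
    set T : Subgroup Q := Subgroup.closure ((F.attach.image fun x => π ⟨x.1, hFH x.1 x.2⟩ :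
      Finset Q) : Set Q) with hT
    have h1 : H ≤ (T.comap π).map H.subtype := by
      conv_lhs => rw [hF]
      refine sup_le ?_ ?_
      · intro u hu
        refine ⟨⟨u, hUH hu⟩, ?_, rfl⟩
        change π ⟨u, hUH hu⟩ ∈ T
        have h2 : π ⟨u, hUH hu⟩ = 1 := by
          change QuotientGroup.mk' (U.subgroupOf H) _ = 1
          rw [QuotientGroup.mk'_apply, QuotientGroup.eq_one_iff, Subgroup.mem_subgroupOf]
          exact hu
        rw [h2]
        exact T.one_mem
      · rw [Subgroup.closure_le]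
        intro x hx
        refine ⟨⟨x, hFH x hx⟩, ?_, rfl⟩
        change π ⟨x, hFH x hx⟩ ∈ T
        apply Subgroup.subset_closure
        rw [Finset.mem_coe, Finset.mem_image]
        exact ⟨⟨x, hx⟩, Finset.mem_attach _ _, rfl⟩
    intro q _
    obtain ⟨h, rfl⟩ := QuotientGroup.mk'_surjective (U.subgroupOf H) q
    obtain ⟨h', h2, h3⟩ := h1 h.2
    have h4 : h' = h := Subtype.ext h3
    rw [h4] at h2
    exact h2
  have hQtor : ∀ g : Q, ∃ n : ℕ, 0 < n ∧ g ^ n = 1 := by
    intro g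
    induction g using QuotientGroup.induction_on with
    | H a =>
      obtain ⟨n, hn, hn'⟩ := htor a a.2
      refine ⟨n, hn, ?_⟩
      rw [← QuotientGroup.mk_pow, QuotientGroup.eq_one_iff, Subgroup.mem_subgroupOf]
      exact hn'
  obtain ⟨S, q, st, hst, hq, hj, hinj, hT⟩ := exists_line hQfg hQtor
  obtain ⟨h, h0, hh⟩ := exists_rec (H := H) (fun k => Quotient.out (st k)) (Quotient.out (q 0))
  have hmk : ∀ k, (QuotientGroup.mk (h k) : Q) = q k := by
    have hout : ∀ y : Q, (QuotientGroup.mk (Quotient.out y : H) : Q) = y :=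
      fun y => Quotient.out_eq' y
    intro k
    induction k using Int.induction_on with
    | zero => rw [h0]; exact hout _
    | succ k ih =>
      rw [hh, QuotientGroup.mk_mul, ih, hout, hq]
    | pred k ih =>
      have h1 := hh (-(k : ℤ) - 1)
      have h2 := hq (-(k : ℤ) - 1)
      rw [sub_add_cancel] at h1 h2
      rw [h1, QuotientGroup.mk_mul, hout, h2] at ih
      exact mul_left_cancel ih
  -- comparison of cosets
  have hcos : ∀ (g : G) (a b : H), g • ((a : G) : G ⧸ U) = ((b : G) : G ⧸ U) →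
      ∃ hg : g ∈ H, (QuotientGroup.mk (⟨g, hg⟩ * a : H) : Q) = QuotientGroup.mk b := by
    intro g a b hab
    have hab : ((g * a : G) : G ⧸ U) = ((b : G) : G ⧸ U) := hab
    rw [QuotientGroup.eq] at hab
    have hg : g ∈ H := by
      have h1 : g = b * ((g * a)⁻¹ * b)⁻¹ * (a : G)⁻¹ := by group
      rw [h1]
      exact H.mul_mem (H.mul_mem b.2 (H.inv_mem (hUH hab))) (H.inv_mem a.2)
    refine ⟨hg, ?_⟩
    rw [QuotientGroup.eq, Subgroup.mem_subgroupOf]
    exact hab
  let v : Ln U :=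
    { h := fun k => (h k : G)
      st := fun k => ((Quotient.out (st k) : H) : G)
      S := S.image fun s => ((Quotient.out s : H) : G)
      hst := fun k => Finset.mem_image_of_mem _ (hst k)
      hS := by
        intro s hs
        obtain ⟨t, -, rfl⟩ := Finset.mem_image.1 hs
        exact hHN (Quotient.out t : H).2
      hh := fun k => congrArg Subtype.val (hh k)
      hn := fun k => hHN (h k).2
      hj := by
        intro g
        by_cases hg : g ∈ H
        · obtain ⟨J, hJ⟩ := hj (QuotientGroup.mk ⟨g, hg⟩)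
          refine ⟨J, fun k l hkl => hJ k l ?_⟩
          obtain ⟨hg', h1⟩ := hcos g (h k) (h l) hkl
          rw [QuotientGroup.mk_mul, hmk, hmk] at h1
          exact h1
        · exact ⟨0, fun k l hkl => absurd (hcos g (h k) (h l) hkl).choose hg⟩
      hinj := by
        intro k l hkl
        obtain ⟨hg', h1⟩ := hcos 1 (h k) (h l) (by rw [one_smul]; exact hkl)
        rw [QuotientGroup.mk_mul, hmk, hmk] at h1
        have h2 : (QuotientGroup.mk (⟨1, hg'⟩ : H) : Q) = 1 := rfl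
        rw [h2, one_mul] at h1
        exact hinj k l h1 }
  refine ⟨lnBase v, lnBase_zero v, fun k => H.mul_mem (h k).2 (H.inv_mem (h 0).2), fun T => ?_⟩
  let T' : Finset Q := T.image fun g => if hg : g ∈ H then (QuotientGroup.mk ⟨g, hg⟩ : Q) else 1
  obtain ⟨z, hz⟩ := hT T'
  refine ⟨((Quotient.out z : H) : G) * ((h 0 : H) : G)⁻¹,
    H.mul_mem (Quotient.out z : H).2 (H.inv_mem (h 0).2), fun g hg k hk => ?_⟩
  have hk : ((g⁻¹ * (((Quotient.out z : H) : G) * ((h 0 : H) : G)⁻¹) : G) : G ⧸ U) =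
    ((((h k : H) : G) * ((h 0 : H) : G)⁻¹ : G) : G ⧸ U) := hk
  rw [← mul_assoc] at hk
  have hk := (mk_mul_norm (Subgroup.inv_mem _ (hHN (h 0).2))).1 hk
  obtain ⟨hg', h1⟩ := hcos g⁻¹ (Quotient.out z : H) (h k) hk
  have hgH : g ∈ H := by
    have := H.inv_mem hg'
    rwa [inv_inv] at this
  have h2 : (if hg : g ∈ H then (QuotientGroup.mk ⟨g, hg⟩ : Q) else 1) ∈ T' :=
    Finset.mem_image_of_mem _ hg
  rw [dif_pos hgH] at h2
  refine hz _ h2 k ?_
  rw [QuotientGroup.mk_mul, hmk] at h1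
  have h3 : (QuotientGroup.mk (Quotient.out z : H) : Q) = z := Quotient.out_eq' z
  have h4 : (QuotientGroup.mk (⟨g⁻¹, hg'⟩ : H) : Q) = (QuotientGroup.mk (⟨g, hgH⟩ : H) : Q)⁻¹ := rfl
  rw [h3, h4] at h1
  exact h1

/-- the line of powers of an element -/
theorem exists_Lnt {t : G} (hn : t ∈ Subgroup.normalizer (U : Set G))
    (ht : ∀ k : ℤ, k ≠ 0 → t ^ k ∉ U) :
    ∃ v : Ln U, v.h 0 = 1 ∧ ∀ k, v.h k = t ^ k := by
  have hnk : ∀ k : ℤ, t ^ k ∈ Subgroup.normalizer (U : Set G) := fun k => Subgroup.zpow_mem _ hn k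
  have huniq : ∀ k l : ℤ, ((t ^ k : G) : G ⧸ U) = ((t ^ l : G) : G ⧸ U) → k = l := by
    intro k l h
    rw [QuotientGroup.eq, ← zpow_neg, ← zpow_add] at h
    by_contra hne
    exact ht (-k + l) (by omega) h
  have hdiff : ∀ (g : G) (k l k' l' : ℤ), ((g * t ^ k : G) : G ⧸ U) = ((t ^ l : G) : G ⧸ U) →
      ((g * t ^ k' : G) : G ⧸ U) = ((t ^ l' : G) : G ⧸ U) → l - k = l' - k' := by
    intro g k l k' l' h h'
    have h1 : (g : G ⧸ U) = ((t ^ (l - k) : G) : G ⧸ U) := by
      refine (mk_mul_norm (hnk k)).1 ?_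
      rw [h, ← zpow_add, sub_add_cancel]
    have h2 : (g : G ⧸ U) = ((t ^ (l' - k') : G) : G ⧸ U) := by
      refine (mk_mul_norm (hnk k')).1 ?_
      rw [h', ← zpow_add, sub_add_cancel]
    exact huniq _ _ (h1.symm.trans h2)
  refine ⟨{ h := fun k => t ^ k
            st := fun _ => t
            S := {t}
            hst := fun _ => Finset.mem_singleton_self t
            hS := fun s hs => by
              rw [Finset.mem_singleton.1 hs]
              exact hn
            hh := fun k => by rw [add_comm, zpow_one_add]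
            hn := hnk
            hj := fun g => ?_
            hinj := huniq }, zpow_zero t, fun k => rfl⟩
  by_cases hex : ∃ k l : ℤ, ((g * t ^ k : G) : G ⧸ U) = ((t ^ l : G) : G ⧸ U)
  · obtain ⟨k₀, l₀, h₀⟩ := hex
    refine ⟨(l₀ - k₀).natAbs, fun k l hkl => ?_⟩
    have h1 := hdiff g k l k₀ l₀ hkl h₀
    omega
  · refine ⟨0, fun k l hkl => absurd ⟨k, l, hkl⟩ hex⟩

end

end Pool.Agent.J4H59.PF
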