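import Pool.Agent.J4H59.PF.ContraQ
import Pool.Agent.J4H59.PF.Lines

/-!
# The main argument
-/

set_option autoImplicit false
set_option linter.unusedSectionVars false

open scoped Classical

namespace Pool.Agent.J4H59.PF

open Pool.Agent.Helper386.PD3 Pool.Agent.J4H59.PD Pool.Agent.J4H59.PE Pool.Agent.Helper158

noncomputable section

variable {G : Type} [Group G]

/-- The main argument. -/
theorem core {n : ℕ} {w : G →* ℤˣ} {e0 e1 e2 e3 d0 d1 d2 : MR G n}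
    (h : Full w e0 e1 e2 e3 d0 d1 d2) (hfgG : Group.FG G)
    (htf : ∀ (x : G) (k : ℤ), k ≠ 0 → x ^ k = 1 → x = 1)
    {N : Subgroup G} (hfg : N.FG) (hNinf : Infinite N) (hN : AllDer (G := N) (RR N))
    {K H : Subgroup G} (hul : Hul N K) (hKH : K ≤ H)
    (hHK : H ≤ Subgroup.normalizer (K : Set G))
    (v : Ln K) (hv0 : v.h 0 = 1) (hvH : ∀ k, v.h k ∈ H)
    (hcase : (Infinite (G ⧸ H) ∧ ∀ (S : Finset G) (E : Set (G ⧸ H)) (y : G),
        BY S H E y ⊓ N = ⊥ → AllDer (G := G) (famF (BY S H E y)).sub) ∨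
      (Finite (G ⧸ H) ∧ ∀ E : Set (G ⧸ N), (∀ z : G ⧸ K, {y | y ∈ E ∧ pu K y = z}.Finite) →
        (∃ T : Finset G, ∀ y ∈ E, ∃ g ∈ T, g⁻¹ • pu K y ∈ v.pos.R ∪ v.neg.R) → ∃ y, y ∉ E)) :
    False := by
  obtain ⟨d, x, hcl⟩ := exists_gens hfg
  have hxG : Subgroup.closure (Set.range fun i => (x i : G)) = N := by
    have h1 : (Set.range fun i => (x i : G)) = N.subtype '' (Set.range x) := by
      rw [← Set.range_comp]
      rfl
    rw [h1, ← MonoidHom.map_closure, hcl, ← MonoidHom.range_eq_map, Subgroup.range_subtype]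
  obtain ⟨S, hS⟩ := Group.fg_def.1 hfgG
  have hNK : N ≤ K := hul.1
  let 𝒱 := VVq x w
  have hposne : v.pos.R.Nonempty := ⟨_, 0, rfl⟩
  have hnegne : v.neg.R.Nonempty := ⟨_, 0, rfl⟩
  have hp0 : (v.pos.h 0 : G ⧸ K) = ((1 : G) : G ⧸ K) := by
    change ((v.h ((0 : ℕ) : ℤ) : G) : G ⧸ K) = _
    rw [Nat.cast_zero, hv0]
  have hm0 : (v.neg.h 0 : G ⧸ K) = ((1 : G) : G ⧸ K) := by
    change ((v.h (-((0 : ℕ) : ℤ)) : G) : G ⧸ K) = _
    rw [Nat.cast_zero, neg_zero, hv0]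
  have hP : ResInner w (𝒱.V_le_MQ hNK hposne) :=
    𝒱.resInner_ray hNK v.pos _ hxG (fun s hs => hul.as hfg (v.pos.hS s hs)) hp0 hposne
  have hQ : ResInner w (𝒱.V_le_MQ hNK hnegne) :=
    𝒱.resInner_ray hNK v.neg _ hxG (fun s hs => hul.as hfg (v.neg.hS s hs)) hm0 hnegne
  have hM : AllDer (G := G) (𝒱.MQ hNK (v.pos.R ∪ v.neg.R)) := by
    rcases hcase with ⟨hinf, hB⟩ | ⟨hfin, hC⟩
    · refine allDer_MQ 𝒱 (fun _ => rfl) (VVq_fin x w) hNK hKH _ ?_ hS hinf hcl hN hNinf htf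
        fun E y hbot => hB S E y hbot
      rintro c (⟨k, rfl⟩ | ⟨k, rfl⟩)
      · change pu H ((v.h k : G) : G ⧸ K) = _
        rw [pu_mk hKH, eq_comm, QuotientGroup.eq, inv_one, one_mul]
        exact hvH _
      · change pu H ((v.h (-(k : ℤ)) : G) : G ⧸ K) = _
        rw [pu_mk hKH, eq_comm, QuotientGroup.eq, inv_one, one_mul]
        exact hvH _
    · exact allDer_MQ_fin 𝒱 (fun _ => rfl) (VVq_fin x w) hNK hKH hHK (fun x hx => hul.pow hx) _
        hfin hC hcl hN hNinf htf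
  rw [← 𝒱.MQ_sup hNK] at hM
  have hfin : ∀ g : G, {c | c ∈ v.pos.R ∧ g • c ∈ v.neg.R}.Finite := by
    intro g
    obtain ⟨J, hJ⟩ := v.hj g
    refine ((Finset.finite_toSet (Finset.range (J + 1))).image
      fun k : ℕ => (v.h k : G ⧸ K)).subset ?_
    rintro _ ⟨⟨k, rfl⟩, ⟨l, hl⟩⟩
    refine ⟨k, ?_, rfl⟩
    have h1 := hJ k (-(l : ℤ)) hl.symm
    rw [Finset.mem_coe, Finset.mem_range]
    omega
  have hI : AllDer (G := G) (Du w 𝒱.V) := glueR h (𝒱.MQ hNK v.pos.R) (𝒱.MQ hNK v.neg.R) 𝒱.V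
    (𝒱.MQ_inf hNK hposne hnegne hfin) (𝒱.V_le_MQ hNK hposne) (𝒱.V_le_MQ hNK hnegne) hP hQ hM
  refine contraQ x w hcl hI hN ?_ ?_
  · intro z k hk hz
    apply Subtype.ext
    exact htf z k hk (congrArg Subtype.val hz)
  · obtain ⟨z, hz⟩ := exists_ne (1 : N)
    exact ⟨z, hz⟩

/-- The case of an element of infinite order. -/
theorem t_case {n : ℕ} {w : G →* ℤˣ} {e0 e1 e2 e3 d0 d1 d2 : MR G n}
    (h : Full w e0 e1 e2 e3 d0 d1 d2) (hfgG : Group.FG G) (hG : AllDer (G := G) (RR G))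
    (htf : ∀ (x : G) (k : ℤ), k ≠ 0 → x ^ k = 1 → x = 1)
    {N : Subgroup G} (hfg : N.FG) (hNinf : Infinite N) (hN : AllDer (G := N) (RR N))
    {K : Subgroup G} (hul : Hul N K) {t : G} (hn : t ∈ Subgroup.normalizer (K : Set G))
    (ht : ∀ k : ℤ, k ≠ 0 → t ^ k ∉ K) :
    (K ⊔ Subgroup.zpowers t).index ≠ 0 ∧ N.relIndex K ≠ 0 := by
  obtain ⟨v, hv0, hvt⟩ := exists_Lnt hn ht
  have hHK : K ⊔ Subgroup.zpowers t ≤ Subgroup.normalizer (K : Set G) :=
    sup_le Subgroup.le_normalizer ((Subgroup.zpowers_le).2 hn)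
  have hvH : ∀ k, v.h k ∈ K ⊔ Subgroup.zpowers t := fun k => by
    rw [hvt]
    exact Subgroup.zpow_mem _ (Subgroup.mem_sup_right (Subgroup.mem_zpowers t)) k
  have hidx : (K ⊔ Subgroup.zpowers t).index ≠ 0 := by
    intro hidx
    refine core h hfgG htf hfg hNinf hN hul le_sup_left hHK v hv0 hvH (Or.inl ⟨?_, ?_⟩)
    · by_contra hfin
      rw [not_infinite_iff_finite] at hfin
      exact Subgroup.index_ne_zero_of_finite hidx
    · intro S E y hbot
      have hbot' : BY S (K ⊔ Subgroup.zpowers t) E y ⊓ K = ⊥ := by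
        rw [eq_bot_iff]
        rintro b ⟨hb, hbK⟩
        obtain ⟨e, he, heN⟩ := hul.pow hbK
        have h1 : b ^ e ∈ BY S (K ⊔ Subgroup.zpowers t) E y ⊓ N := ⟨Subgroup.pow_mem _ hb e, heN⟩
        rw [hbot, Subgroup.mem_bot] at h1
        rw [Subgroup.mem_bot]
        refine htf b e (by exact_mod_cast he.ne') ?_
        rw [zpow_natCast]
        exact h1
      obtain ⟨z, hz⟩ := cyc_of_inf hn ht (BY_le y) hbot'
      rw [hz]
      exact allDer_cyc h hG htf z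
  refine ⟨hidx, fun hrel => ?_⟩
  refine core h hfgG htf hfg hNinf hN hul le_sup_left hHK v hv0 hvH (Or.inr ⟨?_, ?_⟩)
  · exact Nat.finite_of_card_ne_zero hidx
  · intro E hE _
    by_contra hcon
    push Not at hcon
    have h1 := hE ((1 : G) : G ⧸ K)
    have h2 : (Set.univ : Set (K ⧸ N.subgroupOf K)).Finite := by
      let f : K ⧸ N.subgroupOf K → G ⧸ N := fun q => (((Quotient.out q : K) : G) : G ⧸ N)
      have hf : Function.Injective f := by
        intro q q' hqq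
        have hqq : (((Quotient.out q : K) : G) : G ⧸ N) = (((Quotient.out q' : K) : G) : G ⧸ N) :=
          hqq
        rw [QuotientGroup.eq] at hqq
        rw [← Quotient.out_eq' q, ← Quotient.out_eq' q']
        change (QuotientGroup.mk (Quotient.out q : K) : K ⧸ N.subgroupOf K) =
          QuotientGroup.mk (Quotient.out q' : K)
        rw [QuotientGroup.eq, Subgroup.mem_subgroupOf]
        exact hqq
      refine Set.Finite.of_finite_image (f := f) (h1.subset ?_) hf.injOn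
      rintro _ ⟨q, -, rfl⟩
      refine ⟨hcon _, ?_⟩
      change pu K (((Quotient.out q : K) : G) : G ⧸ N) = _
      rw [pu_mk hul.1, eq_comm, QuotientGroup.eq, inv_one, one_mul]
      exact (Quotient.out q : K).2
    have h3 : Finite (K ⧸ N.subgroupOf K) := Set.finite_univ_iff.1 h2
    exact Subgroup.index_ne_zero_of_finite (H := N.subgroupOf K) hrel

/-- The case of a torsion quotient. -/
theorem tor_case {n : ℕ} {w : G →* ℤˣ} {e0 e1 e2 e3 d0 d1 d2 : MR G n}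
    (h : Full w e0 e1 e2 e3 d0 d1 d2) (hfgG : Group.FG G) (hG : AllDer (G := G) (RR G))
    (htf : ∀ (x : G) (k : ℤ), k ≠ 0 → x ^ k = 1 → x = 1)
    {N : Subgroup G} (hfg : N.FG) (hNinf : Infinite N) (hN : AllDer (G := N) (RR N))
    {K H : Subgroup G} (hul : Hul N K) (hKH : K ≤ H)
    (hHK : H ≤ Subgroup.normalizer (K : Set G)) {F : Finset G}
    (hF : H = K ⊔ Subgroup.closure (F : Set G)) (hinf : K.relIndex H = 0)
    (htor : ∀ h ∈ H, ∃ n : ℕ, 0 < n ∧ h ^ n ∈ K) : False := by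
  obtain ⟨v, hv0, hvH, hv⟩ := exists_LnF hKH hHK hF hinf htor
  refine core h hfgG htf hfg hNinf hN hul hKH hHK v hv0 hvH ?_
  by_cases hinfH : Infinite (G ⧸ H)
  · refine Or.inl ⟨hinfH, fun S E y hbot => ?_⟩
    have hz : BY S H E y = Subgroup.zpowers 1 := by
      rw [Subgroup.zpowers_one_eq_bot, eq_bot_iff]
      intro b hb
      obtain ⟨k, hk, hkK⟩ := htor b (BY_le y hb)
      obtain ⟨e, he, heN⟩ := hul.pow hkK
      have h1 : (b ^ k) ^ e ∈ BY S H E y ⊓ N := ⟨Subgroup.pow_mem _ (Subgroup.pow_mem _ hb k) e, heN⟩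
      rw [hbot, Subgroup.mem_bot] at h1
      rw [Subgroup.mem_bot]
      refine htf b k (by exact_mod_cast hk.ne') ?_
      refine htf _ e (by exact_mod_cast he.ne') ?_
      rw [zpow_natCast, zpow_natCast]
      exact h1
    rw [hz]
    exact allDer_cyc h hG htf 1
  · rw [not_infinite_iff_finite] at hinfH
    refine Or.inr ⟨hinfH, ?_⟩
    rintro E - ⟨T, hT⟩
    obtain ⟨z, -, hz⟩ := hv T
    refine ⟨(z : G ⧸ N), fun hzE => ?_⟩
    obtain ⟨g, hg, hcon⟩ := hT _ hzE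
    rw [pu_mk hul.1] at hcon
    rcases hcon with ⟨k, hk⟩ | ⟨k, hk⟩
    · exact hz g hg k hk.symm
    · exact hz g hg (-(k : ℤ)) hk.symm

end

end Pool.Agent.J4H59.PF
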