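import Pool.Agent.J4H59.PF.Hull

/-!
# Conjugates of subgroups of finite index
-/

set_option autoImplicit false
set_option linter.unusedSectionVars false

open scoped Classical

namespace Pool.Agent.J4H59.PF

open Pool.Agent.Helper386.PD3 Pool.Agent.J4H59.PD

noncomputable section

variable {G : Type} [Group G] {N K : Subgroup G}

/-- finite extensions of finitely generated groups -/
theorem fg_of_rel (hfg : N.FG) (hNK : N ≤ K) (h : N.relIndex K ≠ 0) : K.FG := by
  have hfi : (N.subgroupOf K).FiniteIndex := ⟨h⟩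
  have hF : Fintype (K ⧸ N.subgroupOf K) := Fintype.ofFinite _
  let T : Finset G := Finset.univ.image fun q : K ⧸ N.subgroupOf K => ((Quotient.out q : K) : G)
  have h1 : K = N ⊔ Subgroup.closure (T : Set G) := by
    apply le_antisymm
    · intro k hk
      have h2 : (QuotientGroup.mk (Quotient.out (QuotientGroup.mk (⟨k, hk⟩ : K) :
          K ⧸ N.subgroupOf K) : K) : K ⧸ N.subgroupOf K) = QuotientGroup.mk (⟨k, hk⟩ : K) :=
        Quotient.out_eq' _
      rw [QuotientGroup.eq, Subgroup.mem_subgroupOf] at h2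
      have h3 : k = ((Quotient.out (QuotientGroup.mk (⟨k, hk⟩ : K) : K ⧸ N.subgroupOf K) : K) : G) *
          (((Quotient.out (QuotientGroup.mk (⟨k, hk⟩ : K) : K ⧸ N.subgroupOf K))⁻¹ *
            (⟨k, hk⟩ : K) : K) : G) := by
        rw [Subgroup.coe_mul, Subgroup.coe_inv, mul_inv_cancel_left]
      rw [h3]
      refine Subgroup.mul_mem _ (Subgroup.mem_sup_right (Subgroup.subset_closure ?_))
        (Subgroup.mem_sup_left h2)
      rw [Finset.mem_coe, Finset.mem_image]
      exact ⟨_, Finset.mem_univ _, rfl⟩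
    · refine sup_le hNK ?_
      rw [Subgroup.closure_le]
      intro x hx
      rw [Finset.mem_coe, Finset.mem_image] at hx
      obtain ⟨q, -, rfl⟩ := hx
      exact (Quotient.out q : K).2
  rw [h1]
  exact Subgroup.FG.sup hfg ⟨T, rfl⟩

/-- Subgroups of finite index are determined by homomorphisms to permutation groups. -/
theorem exists_perm {M : Type} [Group M] (A : Subgroup M) {q : ℕ} (hq : Nat.card (M ⧸ A) = q)
    (hq0 : q ≠ 0) : ∃ (f : M →* Equiv.Perm (Fin q)) (p : Fin q), ∀ m, m ∈ A ↔ f m p = p := by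
  have hfin : Finite (M ⧸ A) := Nat.finite_of_card_ne_zero (by rw [hq]; exact hq0)
  let e : (M ⧸ A) ≃ Fin q := Finite.equivFinOfCardEq hq
  refine ⟨(e.permCongrHom).toMonoidHom.comp (MulAction.toPermHom M (M ⧸ A)),
    e (QuotientGroup.mk 1), fun m => ?_⟩
  have h1 : ((e.permCongrHom).toMonoidHom.comp (MulAction.toPermHom M (M ⧸ A))) m
      (e (QuotientGroup.mk 1)) = e (m • (QuotientGroup.mk 1 : M ⧸ A)) := by
    change e (m • e.symm (e (QuotientGroup.mk 1))) = _
    rw [Equiv.symm_apply_apply]
  rw [h1, e.apply_eq_iff_eq]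
  change m ∈ A ↔ (QuotientGroup.mk (m * 1) : M ⧸ A) = QuotientGroup.mk 1
  rw [mul_one, eq_comm (a := (QuotientGroup.mk m : M ⧸ A)), QuotientGroup.eq, inv_one, one_mul]

/-- A power of an element normalising a finitely generated group normalises a given subgroup of
finite index. -/
theorem exists_pow_norm (hfg : N.FG) (hNK : N ≤ K) (h : N.relIndex K ≠ 0) {t : G}
    (ht : t ∈ Subgroup.normalizer (K : Set G)) :
    ∃ m : ℕ, 0 < m ∧ t ^ m ∈ Subgroup.normalizer (N : Set G) := by
  have hK : K.FG := fg_of_rel hfg hNK h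
  have hKfg : Group.FG K := (Group.fg_iff_subgroup_fg K).2 hK
  obtain ⟨S, hS⟩ := Group.fg_def.1 hKfg
  let q := N.relIndex K
  let c : ℕ → G →* G := fun j => (MulAut.conj (t ^ j)).toMonoidHom
  have hc : ∀ j x, c j x = t ^ j * x * (t ^ j)⁻¹ := fun j x => rfl
  have hcK : ∀ j, K.map (c j) = K := by
    intro j
    have hj : t ^ j ∈ Subgroup.normalizer (K : Set G) := Subgroup.pow_mem _ ht j
    ext x
    constructor
    · rintro ⟨y, hy, rfl⟩
      exact (Subgroup.mem_normalizer_iff.1 hj y).1 hy
    · intro hx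
      refine ⟨(t ^ j)⁻¹ * x * t ^ j, ?_, ?_⟩
      · rw [SetLike.mem_coe]
        refine (Subgroup.mem_normalizer_iff.1 hj _).2 ?_
        have h1 : t ^ j * ((t ^ j)⁻¹ * x * t ^ j) * (t ^ j)⁻¹ = x := by group
        rw [h1]
        exact hx
      · rw [hc]
        group
  let A : ℕ → Subgroup K := fun j => (N.map (c j)).subgroupOf K
  have hA : ∀ j, Nat.card (K ⧸ A j) = q := by
    intro j
    have h1 : (N.map (c j)).relIndex (K.map (c j)) = N.relIndex K :=
      Subgroup.relIndex_map_map_of_injective _ _ (MulAut.conj (t ^ j)).injective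
    rw [hcK] at h1
    exact h1
  choose f p hf using fun j => exists_perm (A j) (hA j) h
  obtain ⟨i, j, hij, heq⟩ := Finite.exists_ne_map_eq_of_infinite
    (fun j : ℕ => ((fun s : S => f j s.1 : S → Equiv.Perm (Fin q)), p j))
  have h1 : f i = f j := by
    have h2 : Set.EqOn (f i) (f j) (S : Set K) := fun s hs =>
      congrFun (congrArg Prod.fst heq) ⟨s, hs⟩
    exact MonoidHom.eq_of_eqOn_dense hS h2
  have h2 : p i = p j := congrArg Prod.snd heq
  have h3 : N.map (c i) = N.map (c j) := by
    have hle : ∀ j, N.map (c j) ≤ K := fun j => by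
      rw [← hcK j]
      exact Subgroup.map_mono hNK
    ext x
    constructor
    · intro hx
      have h4 : (⟨x, hle i hx⟩ : K) ∈ A i := hx
      rw [hf, h1, h2, ← hf] at h4
      exact h4
    · intro hx
      have h4 : (⟨x, hle j hx⟩ : K) ∈ A j := hx
      rw [hf, ← h1, ← h2, ← hf] at h4
      exact h4
  -- the power
  have key : ∀ i j : ℕ, i < j → N.map (c i) = N.map (c j) →
      ∃ m : ℕ, 0 < m ∧ t ^ m ∈ Subgroup.normalizer (N : Set G) := by
    intro i j hij h3
    refine ⟨j - i, by omega, Subgroup.mem_normalizer_iff.2 fun x => ?_⟩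
    have hji : t ^ j = t ^ i * t ^ (j - i) := by rw [← pow_add, Nat.add_sub_cancel' hij.le]
    constructor
    · intro hx
      have h4 : c j x ∈ N.map (c i) := by
        rw [h3]
        exact ⟨x, hx, rfl⟩
      obtain ⟨y, hy, h5⟩ := h4
      rw [hc, hc, hji] at h5
      have h6 : t ^ (j - i) * x * (t ^ (j - i))⁻¹ = y := by
        have h7 : y = (t ^ i)⁻¹ * (t ^ i * y * (t ^ i)⁻¹) * t ^ i := by group
        rw [h7, h5]
        group
      rw [h6]
      exact hy
    · intro hx
      have h4 : c i (t ^ (j - i) * x * (t ^ (j - i))⁻¹) ∈ N.map (c j) := by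
        rw [← h3]
        exact ⟨_, hx, rfl⟩
      obtain ⟨y, hy, h5⟩ := h4
      have h6 : c i (t ^ (j - i) * x * (t ^ (j - i))⁻¹) = c j x := by
        rw [hc, hc, hji]
        group
      rw [h6] at h5
      have h7 := (MulAut.conj (t ^ j)).injective h5
      rw [← h7]
      exact hy
  rcases lt_or_gt_of_ne hij with hlt | hlt
  · exact key i j hlt h3
  · exact key j i hlt h3.symm

end

end Pool.Agent.J4H59.PF
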