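import Pool.Agent.J4H59.PE.Fin1
import Pool.Agent.J4H59.PF.AsmQ
import Pool.Agent.J4H59.PF.Conj

/-!
# Ascending series starting from finitely generated subgroups with one end
-/

set_option autoImplicit false
set_option linter.unusedSectionVars false

open scoped Classical

namespace Pool.Agent.J4H59.PF

open Pool.Agent.Helper386.PD3 Pool.Agent.J4H59.PD Pool.Agent.J4H59.PE Pool.Agent.Helper158

noncomputable section

variable {G : Type} [Group G]

/-- The smallest set of subgroups which contains `N`, which contains with `K` all the subgroups in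
which `K` is normal or has finite index, and which contains the unions of its nonempty chains. -/
inductive Asc (N : Subgroup G) : Subgroup G → Prop
  | refl : Asc N N
  | step (K L : Subgroup G) : Asc N K → K ≤ L → L ≤ Subgroup.normalizer (K : Set G) → Asc N L
  | fin (K L : Subgroup G) : Asc N K → K ≤ L → K.relIndex L ≠ 0 → Asc N L
  | union (c : Set (Subgroup G)) : c.Nonempty → IsChain (· ≤ ·) c → (∀ K ∈ c, Asc N K) →
      Asc N (sSup c)

theorem pow_int {t : G} {K : Subgroup G} (ht : ∀ n : ℕ, 0 < n → t ^ n ∉ K) :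
    ∀ k : ℤ, k ≠ 0 → t ^ k ∉ K := by
  intro k hk hkU
  rcases Int.natAbs_eq k with h | h
  · rw [h, zpow_natCast] at hkU
    exact ht k.natAbs (Int.natAbs_pos.2 hk) hkU
  · rw [h, zpow_neg, zpow_natCast] at hkU
    have := K.inv_mem hkU
    rw [inv_inv] at this
    exact ht k.natAbs (Int.natAbs_pos.2 hk) this

/-- One step. -/
theorem hul_step {n : ℕ} {w : G →* ℤˣ} {e0 e1 e2 e3 d0 d1 d2 : MR G n}
    (h : Full w e0 e1 e2 e3 d0 d1 d2) (hfgG : Group.FG G) (hG : AllDer (G := G) (RR G))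
    (htf : ∀ (x : G) (k : ℤ), k ≠ 0 → x ^ k = 1 → x = 1)
    {N : Subgroup G} (hfg : N.FG) (hNinf : Infinite N) (hN : AllDer (G := N) (RR N))
    {K L : Subgroup G} (hul : Hul N K) (hKL : K ≤ L)
    (hLK : L ≤ Subgroup.normalizer (K : Set G)) :
    Hul N L ∨ ∃ s ∈ L, s ∈ Subgroup.normalizer (N : Set G) ∧ ∀ k : ℤ, k ≠ 0 → s ^ k ∉ N := by
  by_cases hF : ∀ F : Finset G, (F : Set G) ⊆ L →
    N.relIndex (N ⊔ Subgroup.closure (F : Set G)) ≠ 0
  · exact Or.inl ⟨hul.1.trans hKL, hF⟩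
  · right
    push Not at hF
    obtain ⟨F, hFL, hF⟩ := hF
    have hHL : K ⊔ Subgroup.closure (F : Set G) ≤ L := sup_le hKL ((Subgroup.closure_le _).2 hFL)
    have hinf : K.relIndex (K ⊔ Subgroup.closure (F : Set G)) = 0 := by
      by_contra hcon
      exact hul.ext_fin hfg hcon hF
    by_cases htor : ∀ h ∈ K ⊔ Subgroup.closure (F : Set G), ∃ n : ℕ, 0 < n ∧ h ^ n ∈ K
    · exact (tor_case h hfgG hG htf hfg hNinf hN hul le_sup_left (hHL.trans hLK) rfl hinf
        htor).elim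
    · push Not at htor
      obtain ⟨t, htH, ht⟩ := htor
      have htn : t ∈ Subgroup.normalizer (K : Set G) := hLK (hHL htH)
      have ht' := pow_int ht
      obtain ⟨-, hrel⟩ := t_case h hfgG hG htf hfg hNinf hN hul htn ht'
      obtain ⟨m, hm, hm'⟩ := exists_pow_norm hfg hul.1 hrel htn
      refine ⟨t ^ m, L.pow_mem (hHL htH) m, hm', fun k hk hkN => ?_⟩
      refine ht' (m * k) (mul_ne_zero (by exact_mod_cast hm.ne') hk) (hul.1 ?_)
      rw [zpow_mul, zpow_natCast]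
      exact hkN

theorem asc_hul {n : ℕ} {w : G →* ℤˣ} {e0 e1 e2 e3 d0 d1 d2 : MR G n}
    (h : Full w e0 e1 e2 e3 d0 d1 d2) (hfgG : Group.FG G) (hG : AllDer (G := G) (RR G))
    (htf : ∀ (x : G) (k : ℤ), k ≠ 0 → x ^ k = 1 → x = 1)
    {N : Subgroup G} (hfg : N.FG) (hNinf : Infinite N) (hN : AllDer (G := N) (RR N))
    {L : Subgroup G} (hasc : Asc N L) :
    Hul N L ∨ ∃ s ∈ L, s ∈ Subgroup.normalizer (N : Set G) ∧ ∀ k : ℤ, k ≠ 0 → s ^ k ∉ N := by
  induction hasc with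
  | refl => exact Or.inl (hul_refl N)
  | step K L _ hKL hLK ih =>
    rcases ih with ih | ⟨s, hs, hs'⟩
    · exact hul_step h hfgG hG htf hfg hNinf hN ih hKL hLK
    · exact Or.inr ⟨s, hKL hs, hs'⟩
  | fin K L _ hKL hLK ih =>
    rcases ih with ih | ⟨s, hs, hs'⟩
    · refine Or.inl ⟨ih.1.trans hKL, fun F hF => ih.ext_fin hfg ?_⟩
      exact mt (Subgroup.relIndex_eq_zero_of_le_right
        (sup_le hKL ((Subgroup.closure_le _).2 hF))) hLK
    · exact Or.inr ⟨s, hKL hs, hs'⟩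
  | union c hne hc _ ih =>
    by_cases hall : ∀ K ∈ c, Hul N K
    · exact Or.inl (hul_sSup hne hc hall)
    · push Not at hall
      obtain ⟨K, hK, hK'⟩ := hall
      obtain ⟨s, hs, hs'⟩ := (ih K hK).resolve_left hK'
      exact Or.inr ⟨s, le_sSup hK hs, hs'⟩

variable {P : ℕ → Type} [∀ i, AddCommGroup (P i)]
  [∀ i, Module (MonoidAlgebra ℤ G) (P i)] {d : ∀ i, P (i + 1) →ₗ[MonoidAlgebra ℤ G] P i}
  {ε : P 0 →+ ℤ}

theorem main_asc (hR : Reso P d ε) (m : ℕ) (hm : ∀ i, m < i → Subsingleton (P i))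
    [∀ i, Module.Finite (MonoidAlgebra ℤ G) (P i)]
    [∀ i, Module.Projective (MonoidAlgebra ℤ G) (P i)]
    (hcoh : ∀ i, i ≠ 3 → Subsingleton (groupCohomology (Rep.leftRegular ℤ G) i))
    (htop : Nonempty (groupCohomology (Rep.leftRegular ℤ G) 3 ≃+ ℤ))
    (N : Subgroup G) (hfg : N.FG) (hN : N ≠ ⊥)
    (hone : Subsingleton (groupCohomology (Rep.leftRegular ℤ N) 1))
    (H : Subgroup G) (hH : H ≠ ⊤ → H.FG) (hasc : Asc N H) (hinf : N.relIndex H = 0) :
    ∃ t ∈ H, t ∈ Subgroup.normalizer (N : Set G) ∧ (∀ k : ℤ, k ≠ 0 → t ^ k ∉ N) ∧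
      (N ⊔ Subgroup.zpowers t).FiniteIndex := by
  have hH' : H.FG := by
    by_cases h : H = ⊤
    · rw [h]
      exact (Group.fg_def.1 (fg_of_reso hR m hm hcoh htop))
    · exact hH h
  obtain ⟨w, n, e0, e1, e2, e3, d0, d1, d2, hF⟩ := exists_full hR m hm hcoh htop
  have htf := tf_int hR m hm
  rcases asc_hul hF (fg_of_low hF.low) (allDer_RR (hcoh 1 (by norm_num))) htf hfg
    (inf_of_ne_bot htf hN) (allDer_RR hone) hasc with h | ⟨t, htH, htn, ht⟩
  · exact absurd hinf (h.fg hH' le_rfl h.1)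
  · exact ⟨t, htH, htn, ht, main_t hR m hm hcoh htop N hfg hN hone t htn ht⟩

end

end Pool.Agent.J4H59.PF
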