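import Pool.Agent.J4H59.PF.TransQ

/-!
# The augmentation ideal of a group with one end is not projective, up to multiples
-/

set_option autoImplicit false
set_option linter.unusedSectionVars false

open scoped Classical

namespace Pool.Agent.J4H59.PF

open Pool.Agent.Helper386.PD3 Pool.Agent.J4H59.PD Pool.Agent.J4H59.PE

noncomputable section

variable {G : Type} [Group G] {N : Subgroup G} {d : ℕ} (x : Fin d → N) (w : G →* ℤˣ)

theorem isRel_zs {x : Fin d → N} {u : Fin d → RR N} (h : IsRel x u) (z : ℤ) :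
    IsRel x (fun b => z • u b) := by
  unfold IsRel at *
  simp only [smul_mul_assoc, ← Finset.smul_sum, h, smul_zero]

/-- the module -/
abbrev Wm : Type := ↥(VVq x w).V

/-- the boundary subgroup -/
def Bq : AddSubgroup (Fin d → Wm x w) := AddSubgroup.closure
  {β | ∃ (u : K1 x) (f : Wm x w), (VVq x w).Ov ((1 : G) : G ⧸ N) (f : FQ (OmI (K1 x) G)) ∧
    β = fun b => dg w (jj N (u.1 b)) • f}

/-- the coordinate functions form a boundary -/
theorem vq_mem (hcl : Subgroup.closure (Set.range x) = ⊤)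
    (hall : AllDer (G := G) (Du w (Wm x w))) : (vq x w : Fin d → Wm x w) ∈ Bq x w := by
  by_contra hv
  have hne : (QuotientAddGroup.mk (vq x w) : (Fin d → Wm x w) ⧸ Bq x w) ≠ 0 := by
    intro h
    exact hv ((QuotientAddGroup.eq_zero_iff _).1 h)
  obtain ⟨ψ0, hψ0⟩ := CharacterModule.exists_character_apply_ne_zero_of_ne_zero hne
  let ψ : (Fin d → Wm x w) →+ EE :=
    AddMonoidHom.comp (show ((Fin d → Wm x w) ⧸ Bq x w) →+ EE from ψ0)
      (QuotientAddGroup.mk' (Bq x w))
  have hψ1 : ∀ β ∈ Bq x w, ψ β = 0 := by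
    intro β hβ
    have : (QuotientAddGroup.mk β : (Fin d → Wm x w) ⧸ Bq x w) = 0 :=
      (QuotientAddGroup.eq_zero_iff _).2 hβ
    change ψ0 (QuotientAddGroup.mk β) = 0
    rw [this]
    exact map_zero (show ((Fin d → Wm x w) ⧸ Bq x w) →+ EE from ψ0)
  have hψv : ψ (vq x w) ≠ 0 := hψ0
  let ψb : Fin d → Du w (Wm x w) := unPsi w ψ
  have hψb : ∀ β, ψ β = ∑ b, (ψb b).ev (β b) := by
    intro β
    have h1 : Psi ψb = ψ := Psi_unPsi ψ
    rw [← h1, Psi_apply]
  have hrel : ∀ u : Fin d → RR N, IsRel x u → ∀ f : Wm x w,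
      (VVq x w).Ov ((1 : G) : G ⧸ N) (f : FQ (OmI (K1 x) G)) →
      (∑ b, jj N (u b) • ψb b).ev f = 0 := by
    intro u hu f hf
    rw [Du.ev_sum]
    have h1 := hψ1 _ (AddSubgroup.subset_closure ⟨⟨u, hu⟩, f, hf, rfl⟩)
    rw [hψb] at h1
    exact h1
  have hfox : ∀ n : N, ∃ W : Fin d → RR N, gof n - 1 = ∑ j, W j * (gof (x j) - 1) := by
    intro n
    obtain ⟨W, hW, -⟩ := exists_fox x (x := n) (by rw [hcl]; trivial)
    exact ⟨W, hW⟩
  choose ρ hρ using hfox
  let D : N → Du w (Wm x w) := fun n => ∑ b, jj N (ρ n b) • ψb b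
  have hD : Vq.BD D := by
    intro n m f hf
    have hu : IsRel x fun b => ρ (n * m) b - ρ n b - gof n * ρ m b := by
      unfold IsRel
      simp only [sub_mul, Finset.sum_sub_distrib, mul_assoc, ← Finset.mul_sum, ← hρ]
      rw [gof_mul, mul_sub, mul_one]
      abel
    have h1 := hrel _ hu f hf
    have h2 : (∑ b, jj N (ρ (n * m) b - ρ n b - gof n * ρ m b) • ψb b) =
        D (n * m) - D n - gof (n : G) • D m := by
      change _ = ∑ b, jj N (ρ (n * m) b) • ψb b - ∑ b, jj N (ρ n b) • ψb b -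
        gof (n : G) • ∑ b, jj N (ρ m b) • ψb b
      rw [Finset.smul_sum, ← Finset.sum_sub_distrib, ← Finset.sum_sub_distrib]
      refine Finset.sum_congr rfl fun b _ => ?_
      rw [map_sub, map_sub, map_mul, jj_of, sub_smul, sub_smul, mul_smul]
    rw [h2, Du.ev_sub, Du.ev_sub] at h1
    rw [sub_sub, sub_eq_zero] at h1
    exact h1
  have hDx : ∀ a (f : Wm x w), (VVq x w).Ov ((1 : G) : G ⧸ N) (f : FQ (OmI (K1 x) G)) →
      (D (x a)).ev f = (ψb a).ev f := by
    intro a f hf
    have hu : IsRel x fun b => ρ (x a) b - (Pi.single a 1 : Fin d → RR N) b := by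
      unfold IsRel
      simp only [sub_mul, Finset.sum_sub_distrib, ← hρ, sum_single_mul, sub_self]
    have h1 := hrel _ hu f hf
    have h2 : (∑ b, jj N (ρ (x a) b - (Pi.single a 1 : Fin d → RR N) b) • ψb b) =
        D (x a) - ψb a := by
      have h3 : ∀ b, jj N (ρ (x a) b - (Pi.single a 1 : Fin d → RR N) b) • ψb b =
          jj N (ρ (x a) b) • ψb b - if b = a then ψb b else 0 := by
        intro b
        by_cases hb : b = a
        · subst hb
          rw [Pi.single_eq_same, if_pos rfl, map_sub, map_one, sub_smul, one_smul]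
        · rw [Pi.single_eq_of_ne hb, if_neg hb, sub_zero, sub_zero]
      rw [Finset.sum_congr rfl fun b _ => h3 b, Finset.sum_sub_distrib, Finset.sum_ite_eq' ,
        if_pos (Finset.mem_univ a)]
    rw [h2, Du.ev_sub, sub_eq_zero] at h1
    exact h1
  obtain ⟨μ, hμ⟩ := Vq.inner_base hall hD
  apply hψv
  rw [hψb]
  have h1 : ∀ b, (ψb b).ev (vq x w b) = μ.ev (dg w (gof ((x b : N) : G) - 1) • vq x w b) := by
    intro b
    rw [← hDx b _ (ov_vq x w b), hμ _ _ (ov_vq x w b), ← Du.ev_smul, sub_smul, one_smul]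
  rw [Finset.sum_congr rfl fun b _ => h1 b, ← map_sum, vq_rel, map_zero]

theorem mem_Bq (β : Fin d → Wm x w) (h : β ∈ Bq x w) :
    ∃ D : ℤ, D ≠ 0 ∧ ∃ Θ : Fin d → Fin d → RR N, (∀ c, IsRel x (Θ c)) ∧
      ∀ b, D • β b = ∑ c, dg w (jj N (Θ c b)) • vq x w c := by
  induction h using AddSubgroup.closure_induction with
  | mem β h =>
    obtain ⟨u, f, hf, rfl⟩ := h
    obtain ⟨D, hD, q, hq⟩ := ov_span x w f hf
    refine ⟨D, hD, fun c b => dg (w.comp N.subtype) (q c) * u.1 b, fun c => IsRel.mul u.2 _,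
      fun b => ?_⟩
    change D • (dg w (jj N (u.1 b)) • f) = _
    rw [smul_comm, hq, Finset.smul_sum]
    refine Finset.sum_congr rfl fun c _ => ?_
    rw [map_mul, dg_mul, dg_jj w (dg (w.comp N.subtype) (q c)), dg_dg, mul_smul]
  | zero =>
    refine ⟨1, one_ne_zero, fun _ _ => 0, fun c => ?_, fun b => ?_⟩
    · unfold IsRel
      simp
    · rw [Finset.sum_eq_zero]
      · rw [one_smul]
        rfl
      · intro c _
        rw [map_zero, dg_zero, zero_smul]
  | add β β' _ _ ih ih' =>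
    obtain ⟨D, hD, Θ, h1, h2⟩ := ih
    obtain ⟨D', hD', Θ', h1', h2'⟩ := ih'
    refine ⟨D * D', mul_ne_zero hD hD', fun c b => D' • Θ c b + D • Θ' c b,
      fun c => (isRel_zs (h1 c) D').add (isRel_zs (h1' c) D), fun b => ?_⟩
    rw [Pi.add_apply, smul_add, mul_smul, mul_smul, h2', smul_comm D D', h2, Finset.smul_sum,
      Finset.smul_sum, ← Finset.sum_add_distrib]
    refine Finset.sum_congr rfl fun c _ => ?_
    have e : ∀ (z : ℤ) (a : RR G), dg w (z • a) = z • dg w a := fun z a => by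
      have h5 := map_zsmul (AddMonoidHom.mk' (fun a : RR G => dg w a) (fun a b => dg_add w a b)) z a
      exact h5
    rw [map_add, dg_add, add_smul, map_zsmul, map_zsmul, e, e, smul_assoc, smul_assoc]
  | neg β _ ih =>
    obtain ⟨D, hD, Θ, h1, h2⟩ := ih
    refine ⟨D, hD, fun c b => -Θ c b, fun c => (h1 c).neg, fun b => ?_⟩
    rw [Pi.neg_apply, smul_neg, h2, ← Finset.sum_neg_distrib]
    refine Finset.sum_congr rfl fun c _ => ?_
    rw [map_neg, dg_neg]
    exact (neg_smul (dg w (jj N (Θ c b))) (vq x w c)).symm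

/-- the relation module is a direct summand, up to multiples -/
theorem exists_projq (hcl : Subgroup.closure (Set.range x) = ⊤)
    (hall : AllDer (G := G) (Du w (Wm x w))) :
    ∃ D : ℤ, D ≠ 0 ∧ ∃ Θ : Fin d → Fin d → RR N, (∀ c, IsRel x (Θ c)) ∧
      ∀ u : Fin d → RR N, IsRel x u → ∀ b, D • u b = ∑ c, u c * Θ c b := by
  obtain ⟨D, hD, Θ, h1, h2⟩ := mem_Bq x w _ (vq_mem x w hcl hall)
  refine ⟨D, hD, Θ, h1, fun u hu b => ?_⟩
  have h3 := congrArg (fun f : Wm x w => (f : FQ (OmI (K1 x) G))) (h2 b)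
  have h4 : ((∑ c, dg w (jj N (Θ c b)) • vq x w c : Wm x w) : FQ (OmI (K1 x) G)) =
      toQ (G := G) (em fun u : K1 x => ∑ c, dg w (jj N (u.1 c * Θ c b))) := by
    rw [Submodule.coe_sum, em_sum, map_sum]
    refine Finset.sum_congr rfl fun c _ => ?_
    rw [Submodule.coe_smul, vq_coe, ← map_smul]
    unfold vo
    rw [em_smul]
    congr 2
    funext u
    rw [← dg_mul, map_mul]
  have h4' : ((D • vq x w b : Wm x w) : FQ (OmI (K1 x) G)) =
      toQ (G := G) (D • em fun u : K1 x => dg w (jj N (u.1 b))) := by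
    rw [map_zsmul]
    rfl
  have h5 : (em fun u : K1 x => D • dg w (jj N (u.1 b))) =
      em fun u : K1 x => ∑ c, dg w (jj N (u.1 c * Θ c b)) := by
    apply toQ_inj (G := G)
    rw [← h4]
    refine Eq.trans ?_ h3
    change _ = ((D • vq x w b : Wm x w) : FQ (OmI (K1 x) G))
    rw [h4']
    rfl
  have h6 : D • dg w (jj N (u b)) = ∑ c, dg w (jj N (u c * Θ c b)) :=
    congrFun (em_inj h5) ⟨u, hu⟩
  have e : ∀ (z : ℤ) (a : RR G), dg w (z • a) = z • dg w a := fun z a => by
    have h5 := map_zsmul (AddMonoidHom.mk' (fun a : RR G => dg w a) (fun a b => dg_add w a b)) z a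
    exact h5
  rw [← e, ← map_zsmul, ← dg_sum, ← map_sum] at h6
  have h7 := congrArg (dg w) h6
  rw [dg_dg, dg_dg] at h7
  exact jj_inj h7

/-- the final contradiction -/
theorem contraQ (hcl : Subgroup.closure (Set.range x) = ⊤)
    (hall : AllDer (G := G) (Du w (Wm x w))) (hN : AllDer (G := N) (RR N))
    (htf : ∀ (z : N) (k : ℤ), k ≠ 0 → z ^ k = 1 → z = 1) (hne : ∃ z : N, z ≠ 1) : False := by
  obtain ⟨D, hD, Θ, hΘ, hu⟩ := exists_projq x w hcl hall
  have hfox : ∀ n : N, ∃ W : Fin d → RR N, gof n - 1 = ∑ j, W j * (gof (x j) - 1) := by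
    intro n
    obtain ⟨W, hW, -⟩ := exists_fox x (x := n) (by rw [hcl]; trivial)
    exact ⟨W, hW⟩
  choose ρ hρ using hfox
  have hder : ∀ b, ∃ c : RR N, ∀ n, (D • ρ n b - ∑ c, ρ n c * Θ c b) = gof n • c - c := by
    intro b
    refine hN (fun n => D • ρ n b - ∑ c, ρ n c * Θ c b) fun n m => ?_
    have hr : IsRel x fun b => ρ (n * m) b - ρ n b - gof n * ρ m b := by
      unfold IsRel
      simp only [sub_mul, Finset.sum_sub_distrib, mul_assoc, ← Finset.mul_sum, ← hρ]
      rw [gof_mul, mul_sub, mul_one]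
      abel
    have h1 := hu _ hr b
    simp only [sub_mul, Finset.sum_sub_distrib, mul_assoc, ← Finset.mul_sum, smul_sub] at h1
    change D • ρ (n * m) b - ∑ c, ρ (n * m) c * Θ c b = (D • ρ n b - ∑ c, ρ n c * Θ c b) +
      gof n * (D • ρ m b - ∑ c, ρ m c * Θ c b)
    rw [mul_sub, mul_smul_comm]
    rw [← sub_eq_zero] at h1 ⊢
    rw [← h1]
    abel
  choose c hc using hder
  have hxa : ∀ a b, D • (Pi.single a 1 : Fin d → RR N) b - Θ a b = gof (x a) * c b - c b := by
    intro a b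
    rw [← smul_eq_mul, ← hc b (x a)]
    have hr : IsRel x fun b => ρ (x a) b - (Pi.single a 1 : Fin d → RR N) b := by
      unfold IsRel
      simp only [sub_mul, Finset.sum_sub_distrib, ← hρ, sum_single_mul, sub_self]
    have h1 := hu _ hr b
    simp only [sub_mul, Finset.sum_sub_distrib, sum_single_mul, smul_sub] at h1
    rw [← sub_eq_zero] at h1 ⊢
    rw [← neg_eq_zero, ← h1]
    abel
  -- a nontrivial generator
  obtain ⟨a, ha⟩ : ∃ a, x a ≠ 1 := by
    by_contra hcon
    push Not at hcon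
    obtain ⟨z, hz⟩ := hne
    apply hz
    have hz' : z ∈ Subgroup.closure (Set.range x) := by rw [hcl]; trivial
    have h1 : Subgroup.closure (Set.range x) ≤ ⊥ := by
      rw [Subgroup.closure_le]
      rintro _ ⟨i, rfl⟩
      exact hcon i
    exact h1 hz'
  let γ : RR N := ∑ b, c b * (gof (x b) - 1)
  have h1 : (gof (x a) - 1) * (D • 1 - γ) = 0 := by
    have h2 : ∑ b, (D • (Pi.single a 1 : Fin d → RR N) b - Θ a b) * (gof (x b) - 1) =
        ∑ b, (gof (x a) * c b - c b) * (gof (x b) - 1) :=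
      Finset.sum_congr rfl fun b _ => by rw [hxa]
    have h3 : ∑ b, Θ a b * (gof (x b) - 1) = 0 := hΘ a
    have h5 : ∑ b, (D • (Pi.single a 1 : Fin d → RR N) b - Θ a b) * (gof (x b) - 1) =
        D • (gof (x a) - 1) := by
      have h6 : ∀ b, (D • (Pi.single a 1 : Fin d → RR N) b - Θ a b) * (gof (x b) - 1) =
          D • ((Pi.single a 1 : Fin d → RR N) b * (gof (x b) - 1)) -
            Θ a b * (gof (x b) - 1) :=
        fun b => by rw [sub_mul, smul_mul_assoc]
      rw [Finset.sum_congr rfl fun b _ => h6 b, Finset.sum_sub_distrib, ← Finset.smul_sum,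
        sum_single_mul, h3, sub_zero]
    rw [h5] at h2
    have h4 : ∑ b, (gof (x a) * c b - c b) * (gof (x b) - 1) = (gof (x a) - 1) * γ := by
      change _ = (gof (x a) - 1) * ∑ b, c b * (gof (x b) - 1)
      rw [Finset.mul_sum]
      refine Finset.sum_congr rfl fun b _ => ?_
      rw [← mul_assoc, sub_mul (gof (x a)) 1 (c b), one_mul]
    rw [mul_sub, mul_smul_comm, mul_one, ← h4, ← h2, sub_self]
  have h2 : D • 1 - γ = 0 := nzd_left (fun k hk h3 => ha (htf _ k hk h3)) h1
  have h3 : eps (D • 1 - γ) = 0 := by rw [h2, map_zero]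
  rw [map_sub, map_zsmul, map_one, map_sum, Finset.sum_eq_zero] at h3
  · rw [sub_zero, smul_eq_mul, mul_one] at h3
    exact hD h3
  · intro b _
    rw [map_mul, map_sub, eps_of, map_one, sub_self, mul_zero]

end

end Pool.Agent.J4H59.PF
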