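import Pool.Agent.J4H59.PF.Res

/-!
# A Mayer-Vietoris argument
-/

set_option autoImplicit false
set_option linter.unusedSectionVars false

open scoped Classical Matrix

namespace Pool.Agent.J4H59.PF

open Pool.Agent.Helper386.PD3 Pool.Agent.J4H59.PD

noncomputable section

variable {G : Type} [Group G] {n : ℕ}

section

variable {M M' : Type} [AddCommGroup M] [Module (RR G) M] [AddCommGroup M'] [Module (RR G) M']

/-- exactness after a homomorphism under which all derivations become inner -/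
theorem exact_of_res {e0 e1 e2 d0 d1 : MR G n} (hL : Low e0 e1 e2 d0 d1) (f : M →ₗ[RR G] M')
    (hM : ∀ δ : G → M, (∀ g h, δ (g * h) = δ g + gof g • δ h) →
      ∃ μ : M', ∀ g, f (δ g) = gof g • μ - μ)
    (φ : Fin n → M) (h1 : col e1 φ = φ) (h2 : col d1 φ = 0) :
    ∃ θ : Fin n → M', col d0 θ = fun i => f (φ i) := by
  obtain ⟨ε, hε, ⟨u0, hu0, hεu0⟩, hεd, hεex⟩ := hL.aug
  let pre : (Fin n → RR G) → (Fin n → RR G) := fun x =>
    if h : ∃ v, v ᵥ* d0 = x then h.choose else 0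
  have hpre : ∀ v, pre (v ᵥ* d0) ᵥ* d0 = v ᵥ* d0 := by
    intro v
    have h : ∃ v', v' ᵥ* d0 = v ᵥ* d0 := ⟨v, rfl⟩
    change (if h : ∃ v', v' ᵥ* d0 = v ᵥ* d0 then h.choose else 0) ᵥ* d0 = v ᵥ* d0
    rw [dif_pos h]
    exact h.choose_spec
  let β : (Fin n → RR G) → M := fun x => pr (pre x) φ
  have hβ : ∀ v, β (v ᵥ* d0) = pr v φ := by
    intro v
    rw [← sub_eq_zero]
    change pr (pre (v ᵥ* d0)) φ - pr v φ = 0
    rw [← pr_sub, ← h1, ← pr_vecMul]
    have h3 : ((pre (v ᵥ* d0) - v) ᵥ* e1) ᵥ* d0 = 0 := by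
      rw [Matrix.vecMul_vecMul, hL.e1d0, Matrix.sub_vecMul, hpre, sub_self]
    obtain ⟨u, hu⟩ := hL.ex1 ((pre (v ᵥ* d0) - v) ᵥ* e1)
      (by rw [Matrix.vecMul_vecMul, hL.ee1]) h3
    rw [← hu, pr_vecMul, h2, pr_zero']
  have hβadd : ∀ x y, (∃ v, v ᵥ* d0 = x) → (∃ v, v ᵥ* d0 = y) → β (x + y) = β x + β y := by
    rintro _ _ ⟨v, rfl⟩ ⟨v', rfl⟩
    rw [← Matrix.add_vecMul, hβ, hβ, hβ, pr_add]
  have hβsmul : ∀ (r : RR G) x, (∃ v, v ᵥ* d0 = x) → β (r • x) = r • β x := by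
    rintro r _ ⟨v, rfl⟩
    rw [← Matrix.smul_vecMul, hβ, hβ, pr_smul]
  have hβneg : ∀ x, (∃ v, v ᵥ* d0 = x) → β (-x) = -β x := by
    intro x hx
    have := hβsmul (-1) x hx
    rw [neg_smul, one_smul, neg_smul, one_smul] at this
    exact this
  have hmem : ∀ g : G, ∃ v, v ᵥ* d0 = gof g • u0 - u0 := by
    intro g
    refine hεex _ ?_ ?_
    · rw [Matrix.sub_vecMul, Matrix.smul_vecMul, hu0]
    · rw [map_sub, hε, sub_self]
  obtain ⟨μ, hμ₀⟩ := hM (fun g : G => β (gof g • u0 - u0)) (by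
    intro g h
    change β (gof (g * h) • u0 - u0) = β (gof g • u0 - u0) + gof g • β (gof h • u0 - u0)
    have e : gof (g * h) • u0 - u0 = (gof g • u0 - u0) + gof g • (gof h • u0 - u0) := by
      rw [gof_mul, mul_smul, smul_sub]
      abel
    rw [e, hβadd _ _ (hmem g), hβsmul _ _ (hmem h)]
    obtain ⟨v, hv⟩ := hmem h
    exact ⟨gof g • v, by rw [Matrix.smul_vecMul, hv]⟩)
  let β₀ := β
  have hβ₀ : ∀ v, β₀ (v ᵥ* d0) = pr v φ := hβ
  have hβ₀add : ∀ x y, (∃ v, v ᵥ* d0 = x) → (∃ v, v ᵥ* d0 = y) → β₀ (x + y) = β₀ x + β₀ y := hβadd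
  have hβ₀smul : ∀ (r : RR G) x, (∃ v, v ᵥ* d0 = x) → β₀ (r • x) = r • β₀ x := hβsmul
  have hβ₀neg : ∀ x, (∃ v, v ᵥ* d0 = x) → β₀ (-x) = -β₀ x := hβneg
  have hμ₁ : ∀ g : G, f (β₀ (gof g • u0 - u0)) = gof g • μ - μ := hμ₀
  clear_value β₀
  clear hβ hβadd hβsmul hβneg
  let φ' : Fin n → M' := fun i => f (φ i)
  let β' : (Fin n → RR G) → M' := fun x => f (β₀ x)
  have hβ : ∀ v, β' (v ᵥ* d0) = pr v φ' := by
    intro v
    change f (β₀ (v ᵥ* d0)) = ∑ i, v i • f (φ i)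
    rw [hβ₀]
    unfold pr
    rw [map_sum]
    exact Finset.sum_congr rfl fun i _ => map_smul f _ _
  have hβadd : ∀ x y, (∃ v, v ᵥ* d0 = x) → (∃ v, v ᵥ* d0 = y) → β' (x + y) = β' x + β' y := by
    intro x y hx hy
    change f (β₀ (x + y)) = f (β₀ x) + f (β₀ y)
    rw [hβ₀add x y hx hy, map_add]
  have hβsmul : ∀ (r : RR G) x, (∃ v, v ᵥ* d0 = x) → β' (r • x) = r • β' x := by
    intro r x hx
    change f (β₀ (r • x)) = r • f (β₀ x)
    rw [hβ₀smul r x hx, map_smul]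
  have hβneg : ∀ x, (∃ v, v ᵥ* d0 = x) → β' (-x) = -β' x := by
    intro x hx
    change f (β₀ (-x)) = -f (β₀ x)
    rw [hβ₀neg x hx, map_neg]
  have hμ : ∀ g : G, β' (gof g • u0 - u0) = gof g • μ - μ := hμ₁
  let F : (Fin n → RR G) → M' := fun x => β' (x - ε x • u0) + ε x • μ
  have hFmem : ∀ x, x ᵥ* e0 = x → ∃ v, v ᵥ* d0 = x - ε x • u0 := by
    intro x hx
    refine hεex _ ?_ ?_
    · rw [Matrix.sub_vecMul, hx]
      have : (ε x • u0) ᵥ* e0 = ε x • (u0 ᵥ* e0) := Matrix.smul_vecMul _ _ _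
      rw [this, hu0]
    · rw [map_sub, map_zsmul, hεu0, smul_eq_mul, mul_one, sub_self]
  have hFadd : ∀ x y, x ᵥ* e0 = x → y ᵥ* e0 = y → F (x + y) = F x + F y := by
    intro x y hx hy
    change β' (x + y - ε (x + y) • u0) + ε (x + y) • μ = (β' (x - ε x • u0) + ε x • μ) +
      (β' (y - ε y • u0) + ε y • μ)
    have e : x + y - ε (x + y) • u0 = (x - ε x • u0) + (y - ε y • u0) := by
      rw [map_add, add_smul]
      abel
    rw [e, hβadd _ _ (hFmem x hx) (hFmem y hy), map_add, add_smul]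
    abel
  have hFneg : ∀ x, x ᵥ* e0 = x → F (-x) = -F x := by
    intro x hx
    change β' (-x - ε (-x) • u0) + ε (-x) • μ = -(β' (x - ε x • u0) + ε x • μ)
    have e : -x - ε (-x) • u0 = -(x - ε x • u0) := by
      rw [map_neg, neg_smul]
      abel
    rw [e, hβneg _ (hFmem x hx), map_neg, neg_smul]
    abel
  have hFg : ∀ (g : G) x, x ᵥ* e0 = x → F (gof g • x) = gof g • F x := by
    intro g x hx
    change β' (gof g • x - ε (gof g • x) • u0) + ε (gof g • x) • μ =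
      gof g • (β' (x - ε x • u0) + ε x • μ)
    have e : gof g • x - ε (gof g • x) • u0 = gof g • (x - ε x • u0) +
        (((ε x : ℤ) : RR G)) • (gof g • u0 - u0) := by
      rw [hε, smul_sub, smul_sub, Int.cast_smul_eq_zsmul, Int.cast_smul_eq_zsmul, smul_comm]
      abel
    obtain ⟨v, hv⟩ := hFmem x hx
    obtain ⟨v', hv'⟩ := hmem g
    rw [e, hβadd _ _ ⟨gof g • v, by rw [Matrix.smul_vecMul, hv]⟩
      ⟨(((ε x : ℤ) : RR G)) • v', by rw [Matrix.smul_vecMul, hv']⟩, hβsmul _ _ ⟨v, hv⟩,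
      hβsmul _ _ ⟨v', hv'⟩, hμ, hε, smul_add, Int.cast_smul_eq_zsmul, smul_sub]
    have e2 : gof g • ε x • μ = ε x • gof g • μ := smul_comm _ _ _
    rw [e2]
    abel
  have hFsmul : ∀ (r : RR G) x, x ᵥ* e0 = x → F (r • x) = r • F x := by
    intro r x hx
    induction r using rr_ind with
    | h1 g => exact hFg g x hx
    | h2 a b ha hb =>
      rw [add_smul, hFadd _ _ (by rw [Matrix.smul_vecMul, hx]) (by rw [Matrix.smul_vecMul, hx]),
        ha, hb, add_smul]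
    | h3 a ha =>
      rw [neg_smul, hFneg _ (by rw [Matrix.smul_vecMul, hx]), ha, neg_smul]
  have hFd : ∀ v, F (v ᵥ* d0) = pr v φ' := by
    intro v
    change β' (v ᵥ* d0 - ε (v ᵥ* d0) • u0) + ε (v ᵥ* d0) • μ = _
    rw [hεd, zero_smul, zero_smul, sub_zero, add_zero, hβ]
  have hrow : ∀ i, (e0 i) ᵥ* e0 = e0 i := by
    intro i
    funext j
    have := congrFun (congrFun hL.ee0 i) j
    exact this
  have hFsum : ∀ (s : Finset (Fin n)) (c : Fin n → RR G),
      F (∑ i ∈ s, c i • e0 i) = ∑ i ∈ s, c i • F (e0 i) ∧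
        (∑ i ∈ s, c i • e0 i) ᵥ* e0 = ∑ i ∈ s, c i • e0 i := by
    intro s c
    induction s using Finset.induction_on with
    | empty =>
      simp only [Finset.sum_empty]
      refine ⟨?_, Matrix.zero_vecMul _⟩
      have := hFsmul 0 0 (Matrix.zero_vecMul _)
      rw [zero_smul, zero_smul] at this
      exact this
    | insert a s ha ih =>
      rw [Finset.sum_insert ha, Finset.sum_insert ha]
      have h1 : (c a • e0 a) ᵥ* e0 = c a • e0 a := by rw [Matrix.smul_vecMul, hrow]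
      refine ⟨?_, ?_⟩
      · rw [hFadd _ _ h1 ih.2, ih.1, hFsmul _ _ (hrow a)]
      · rw [Matrix.add_vecMul, h1, ih.2]
  refine ⟨fun i => F (e0 i), ?_⟩
  funext i
  change ∑ j, d0 i j • F (e0 j) = φ' i
  rw [← (hFsum Finset.univ (d0 i)).1]
  have h3 : ∑ j, d0 i j • e0 j = d0 i := by
    have h4 : (d0 i) ᵥ* e0 = ∑ j, d0 i j • e0 j := Matrix.vecMul_eq_sum _ _
    rw [← h4]
    have h5 : (d0 * e0) i = (d0 i) ᵥ* e0 := rfl
    rw [← h5, hL.d0e0]
  rw [h3]
  have h6 := hFd (Pi.single i 1)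
  rw [Matrix.single_one_vecMul, pr_single] at h6
  exact h6

end

section

variable {w : G →* ℤˣ} {F : Type} [AddCommGroup F] [Module (RR G) F]

/-- restriction of characters, as a linear map -/
def resL {M' M : Submodule (RR G) F} (hle : M' ≤ M) : Du w M →ₗ[RR G] Du w M' where
  toFun ψ := resD hle ψ
  map_add' ψ ψ' := rfl
  map_smul' r ψ := by
    refine Du.ext fun m => ?_
    rw [RingHom.id_apply, resD_ev, Du.ev_smul, Du.ev_smul, resD_ev, LinearMap.map_smul]

theorem res_bound {e0 e1 e2 d0 d1 : MR G n} (hL : Low e0 e1 e2 d0 d1)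
    {M' M : Submodule (RR G) F} {hle : M' ≤ M} (hM : ResInner w hle) (v' : Fin n → M')
    (hv1' : col (dgM w e1) v' = v') (hv0' : col (dgM w d0) v' = 0) :
    ∃ u : Fin n → M, col (dgM w d1) u = fun i => Submodule.inclusion hle (v' i) := by
  let v : Fin n → M := fun i => Submodule.inclusion hle (v' i)
  have hcolv : ∀ D : MR G n, col D v = fun i => Submodule.inclusion hle (col D v' i) := by
    intro D
    funext i
    change ∑ j, D i j • Submodule.inclusion hle (v' j) =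
      Submodule.inclusion hle (∑ j, D i j • v' j)
    rw [map_sum]
    exact Finset.sum_congr rfl fun j _ => (map_smul _ _ _).symm
  have hv1 : col (dgM w e1) v = v := by rw [hcolv, hv1']
  have hv0 : col (dgM w d0) v = 0 := by
    rw [hcolv, hv0']
    funext i
    exact map_zero _
  change ∃ u : Fin n → M, col (dgM w d1) u = v
  by_contra hcon
  let S : AddSubgroup (Fin n → M) :=
    (AddMonoidHom.mk' (fun u : Fin n → M => col (dgM w d1) u) (fun a b => col_add _ a b)).range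
  have hvS : v ∉ S := by
    rintro ⟨u, hu⟩
    exact hcon ⟨u, hu⟩
  have hne : (QuotientAddGroup.mk v : (Fin n → M) ⧸ S) ≠ 0 := by
    intro h
    exact hvS ((QuotientAddGroup.eq_zero_iff v).1 h)
  obtain ⟨ψ0, hψ0⟩ := CharacterModule.exists_character_apply_ne_zero_of_ne_zero hne
  let ψ : (Fin n → M) →+ EE := AddMonoidHom.comp (show ((Fin n → M) ⧸ S) →+ EE from ψ0)
    (QuotientAddGroup.mk' S)
  have hψ1 : ∀ u, ψ (col (dgM w d1) u) = 0 := by
    intro u
    have : (QuotientAddGroup.mk (col (dgM w d1) u) : (Fin n → M) ⧸ S) = 0 :=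
      (QuotientAddGroup.eq_zero_iff _).2 ⟨u, rfl⟩
    change ψ0 (QuotientAddGroup.mk (col (dgM w d1) u)) = 0
    rw [this]
    exact map_zero (show ((Fin n → M) ⧸ S) →+ EE from ψ0)
  have hψv : ψ v ≠ 0 := hψ0
  let Ψ : (Fin n → M) →+ EE :=
    ψ.comp (AddMonoidHom.mk' (fun u : Fin n → M => col (dgM w e1) u) (fun a b => col_add _ a b))
  have hΨ : ∀ x, Ψ x = ψ (col (dgM w e1) x) := fun x => rfl
  obtain ⟨θ, hθ⟩ := exact_of_res hL (resL hle) hM (unPsi w Ψ) (by
      apply Psi_inj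
      refine AddMonoidHom.ext fun x => ?_
      rw [Psi_col, Psi_unPsi, hΨ, hΨ, ← col_mul, ← dgM_mul, hL.ee1]) (by
      apply Psi_inj
      refine AddMonoidHom.ext fun x => ?_
      rw [Psi_col, Psi_unPsi, hΨ, ← col_mul, ← dgM_mul, hL.d1e1, hψ1, Psi_zero])
  apply hψv
  rw [← hv1, ← hΨ]
  have h2 : Ψ v = Psi (col d0 θ) v' := by
    have h3 : Ψ v = Psi (unPsi w Ψ) v := by rw [Psi_unPsi]
    rw [hθ, h3]
    rfl
  rw [h2, Psi_col, hv0', map_zero]

/-- The Mayer-Vietoris argument. -/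
theorem glueR {e0 e1 e2 e3 d0 d1 d2 : MR G n} (h : Full w e0 e1 e2 e3 d0 d1 d2)
    (Mp Mm Mi : Submodule (RR G) F) (hinf : Mp ⊓ Mm = Mi) (hlp : Mi ≤ Mp) (hlm : Mi ≤ Mm)
    (hp : ResInner w hlp) (hm : ResInner w hlm)
    (hM : AllDer (G := G) ↥(Mp ⊔ Mm)) : AllDer (G := G) (Du w Mi) := by
  subst hinf
  refine allDer_of_rowExact h.colow fun z hz1 hz0 => ?_
  obtain ⟨bp, hbp⟩ := res_bound h.colow hp z hz1 hz0
  obtain ⟨bm, hbm⟩ := res_bound h.colow hm z hz1 hz0
  rw [dgM_dgM] at hz1 hz0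
  rw [dgM_dgM] at hbp hbm
  have hp3 : col d1 (fun i => (bp i : F)) = fun i => (z i : F) := by
    funext i
    rw [← col_coe]
    exact congrArg Subtype.val (congrFun hbp i)
  have hm3 : col d1 (fun i => (bm i : F)) = fun i => (z i : F) := by
    funext i
    rw [← col_coe]
    exact congrArg Subtype.val (congrFun hbm i)
  -- the difference
  let β : Fin n → ↥(Mp ⊔ Mm) := fun i => ⟨(bp i : F) - (bm i : F),
    Submodule.sub_mem _ (Submodule.mem_sup_left (bp i).2) (Submodule.mem_sup_right (bm i).2)⟩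
  have hβ : col d1 β = 0 := by
    funext i
    apply Subtype.ext
    rw [col_coe]
    have h1 : (fun j => ((β j : ↥(Mp ⊔ Mm)) : F)) = (fun j => (bp j : F)) - fun j => (bm j : F) := rfl
    rw [h1, col_sub, hp3, hm3, sub_self]
    rfl
  obtain ⟨c, hc⟩ := exact_of_allDer h.low hM (col e1 β) (by rw [← col_mul, h.low.ee1])
    (by rw [← col_mul, h.low.d1e1, hβ])
  have hc2 : ∀ i, ∃ x ∈ Mp, ∃ y ∈ Mm, x + y = (c i : F) := fun i => Submodule.mem_sup.1 (c i).2
  choose x hx y hy hxy using hc2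
  have hceq : col d0 (fun i => (c i : F)) = col e1 (fun i => (bp i : F)) -
      col e1 (fun i => (bm i : F)) := by
    funext i
    rw [← col_coe, hc, col_coe]
    have h1 : (fun j => ((β j : ↥(Mp ⊔ Mm)) : F)) = (fun j => (bp j : F)) - fun j => (bm j : F) := rfl
    rw [h1, col_sub]
  have hcxy : (fun i => (c i : F)) = x + y := by
    funext i
    exact (hxy i).symm
  rw [hcxy, col_add] at hceq
  have hkey : col e1 (fun i => (bp i : F)) - col d0 x = col e1 (fun i => (bm i : F)) + col d0 y := by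
    rw [sub_eq_iff_eq_add]
    have : col e1 (fun i => (bp i : F)) = (col d0 x + col d0 y) + col e1 (fun i => (bm i : F)) := by
      rw [hceq, sub_add_cancel]
    rw [this]
    abel
  have hcolmem : ∀ (M : Submodule (RR G) F) (D : MR G n) (φ : Fin n → F), (∀ i, φ i ∈ M) →
      ∀ i, col D φ i ∈ M := by
    intro M D φ hφ i
    exact Submodule.sum_mem _ fun j _ => Submodule.smul_mem _ _ (hφ j)
  let b : Fin n → ↥(Mp ⊓ Mm) := fun i => ⟨(col e1 (fun i => (bp i : F)) - col d0 x) i,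
    Submodule.sub_mem _ (hcolmem Mp _ _ (fun j => (bp j).2) i) (hcolmem Mp _ _ hx i), by
      change (col e1 (fun i => (bp i : F)) - col d0 x) i ∈ Mm
      rw [hkey]
      exact Submodule.add_mem _ (hcolmem Mm _ _ (fun j => (bm j).2) i) (hcolmem Mm _ _ hy i)⟩
  refine ⟨b, ?_⟩
  rw [dgM_dgM]
  funext i
  apply Subtype.ext
  rw [col_coe]
  have h1 : (fun j => ((b j : ↥(Mp ⊓ Mm)) : F)) = col e1 (fun i => (bp i : F)) - col d0 x := rfl
  rw [h1, col_sub, ← col_mul, ← col_mul, h.low.d1e1, h.low.dd, col_zero, sub_zero, hp3]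

end

end

end Pool.Agent.J4H59.PF
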