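import Pool.Agent.J4H59.PE.Contra
import Pool.Agent.J4H59.PF.CohQ
import Pool.Agent.J4H59.PF.Glue

/-!
# The rational module generated by the coordinate functions of the relation module
-/

set_option autoImplicit false
set_option linter.unusedSectionVars false

open scoped Classical

namespace Pool.Agent.J4H59.PF

open Pool.Agent.Helper386.PD3 Pool.Agent.J4H59.PD Pool.Agent.J4H59.PE

noncomputable section

variable {G : Type} [Group G]

section toq

variable {Ω : Type} [MulAction G Ω]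

/-- integral functions as rational functions -/
def toQ : FO Ω →ₗ[RR G] FQ Ω where
  toFun f := fun x => (f x : ℚ)
  map_add' f f' := by
    refine fq_ext fun x => ?_
    rw [fqadd_apply, foadd_apply]
    push_cast
    rfl
  map_smul' r f := by
    rw [RingHom.id_apply]
    induction r using rr_ind with
    | h1 g =>
      refine fq_ext fun x => ?_
      rw [gofo_apply, gofq_apply]
    | h2 a b ha hb =>
      rw [add_smul, add_smul, ← ha, ← hb]
      refine fq_ext fun x => ?_
      rw [fqadd_apply, foadd_apply]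
      push_cast
      rfl
    | h3 a ha =>
      rw [neg_smul, neg_smul, ← ha]
      refine fq_ext fun x => ?_
      rw [fqneg_apply, foneg_apply]
      push_cast
      rfl

theorem toQ_apply (f : FO Ω) (x : Ω) : toQ (G := G) f x = (f x : ℚ) := rfl

theorem toQ_inj {f f' : FO Ω} (h : toQ (G := G) f = toQ (G := G) f') : f = f' := by
  refine fo_ext fun x => ?_
  have h1 := congrFun h x
  rw [toQ_apply, toQ_apply] at h1
  exact_mod_cast h1

theorem cutq_toQ (s : Set Ω) (f : FO Ω) : cutq s (toQ (G := G) f) = toQ (G := G) (cuto s f) := by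
  refine fq_ext fun x => ?_
  rw [toQ_apply, cutq_apply, cuto_apply, toQ_apply]
  split_ifs
  · rfl
  · norm_num

theorem fqz_apply (z : ℤ) (f : FQ Ω) (x : Ω) : (z • f) x = (z : ℚ) * f x := by
  have h2 : (z • f) x = z • (f x) := rfl
  rw [h2, zsmul_eq_mul]

end toq

section K1

variable {N : Subgroup G} {d : ℕ} (x : Fin d → N) (w : G →* ℤˣ)

/-- the rational submodule with its cells -/
def VVq : Vq N (OmI (K1 x) G) where
  p := fun p => (p.2 : G ⧸ N)
  V := mkSubq (fun f => ∃ D : ℤ, D ≠ 0 ∧ ∃ r : Fin d → RR G, D • f = toQ (G := G) (LL x w r))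
    ⟨1, one_ne_zero, 0, by rw [smul_zero, map_zero, map_zero]⟩
    (by
      rintro f f' ⟨D, hD, r, hr⟩ ⟨D', hD', r', hr'⟩
      refine ⟨D * D', mul_ne_zero hD hD', D' • r + D • r', ?_⟩
      rw [smul_add, map_add, map_add, map_zsmul, map_zsmul, map_zsmul, map_zsmul, ← hr, ← hr',
        smul_smul, smul_smul, mul_comm D' D])
    (by
      rintro f ⟨D, hD, r, hr⟩
      refine ⟨D, hD, -r, ?_⟩
      rw [smul_neg, hr, map_neg, map_neg])
    (by
      rintro g f ⟨D, hD, r, hr⟩
      refine ⟨D, hD, gof g • r, ?_⟩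
      rw [map_smul, map_smul, ← hr]
      exact smul_comm _ _ _)
  hp g p := rfl
  hcut := by
    rintro f ⟨D, hD, r, hr⟩ y
    refine ⟨D, hD, fun b => rest y (r b), ?_⟩
    rw [← map_zsmul, hr, cutq_toQ]
    exact congrArg _ (cut_LL x w y r)
  hfin := by
    rintro f ⟨D, hD, r, hr⟩
    refine ((VV1 x w).hfin (LL x w r) ⟨r, rfl⟩).subset ?_
    rintro _ ⟨p, hp, rfl⟩
    refine ⟨p, ?_, rfl⟩
    intro h0
    apply hp
    have h1 := congrFun hr p
    rw [fqz_apply, toQ_apply, h0, Int.cast_zero] at h1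
    rcases mul_eq_zero.1 h1 with h | h
    · exact absurd (by exact_mod_cast h) hD
    · exact h
  hsc := by
    rintro f ⟨D, hD, r, hr⟩ q
    refine ⟨D * q.den, mul_ne_zero hD (by exact_mod_cast q.den_ne_zero), q.num • r, ?_⟩
    rw [map_zsmul, map_zsmul, ← hr]
    refine fq_ext fun p => ?_
    rw [fqz_apply, fqz_apply, fqz_apply, scq_apply]
    have h1 := Rat.mul_den_eq_num q
    push_cast
    rw [← h1]
    ring

theorem VVq_mem {f : FQ (OmI (K1 x) G)} : f ∈ (VVq x w).V ↔
    ∃ D : ℤ, D ≠ 0 ∧ ∃ r : Fin d → RR G, D • f = toQ (G := G) (LL x w r) := Iff.rfl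

theorem VVq_fin (f : FQ (OmI (K1 x) G)) (hf : f ∈ (VVq x w).V) (i : K1 x) :
    {g : G | f (omk i g) ≠ 0}.Finite := by
  obtain ⟨D, hD, r, hr⟩ := hf
  refine (VV1_fin x w (LL x w r) ⟨r, rfl⟩ i).subset ?_
  intro g hg h0
  apply hg
  have h1 := congrFun hr (omk i g)
  rw [fqz_apply, toQ_apply, h0, Int.cast_zero] at h1
  rcases mul_eq_zero.1 h1 with h | h
  · exact absurd (by exact_mod_cast h) hD
  · exact h

/-- the coordinate functions, in the submodule -/
def vq (b : Fin d) : (VVq x w).V := ⟨toQ (G := G) (vo x w b), by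
  refine ⟨1, one_ne_zero, Pi.single b 1, ?_⟩
  rw [one_smul, LL_apply, Finset.sum_eq_single b]
  · rw [Pi.single_eq_same, one_smul]
  · intro c _ hc
    rw [Pi.single_eq_of_ne hc, zero_smul]
  · intro h
    exact absurd (Finset.mem_univ b) h⟩

theorem vq_coe (b : Fin d) :
    ((vq x w b : (VVq x w).V) : FQ (OmI (K1 x) G)) = toQ (G := G) (vo x w b) := rfl

theorem ov_vq (b : Fin d) :
    (VVq x w).Ov ((1 : G) : G ⧸ N) (vq x w b : FQ (OmI (K1 x) G)) := by
  intro p hp
  refine bs_vv x w b p ?_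
  intro h0
  apply hp
  rw [vq_coe, toQ_apply]
  have h0 : (vo x w b) p = 0 := h0
  rw [h0, Int.cast_zero]

theorem ov_span (f : (VVq x w).V)
    (hf : (VVq x w).Ov ((1 : G) : G ⧸ N) (f : FQ (OmI (K1 x) G))) :
    ∃ D : ℤ, D ≠ 0 ∧ ∃ q : Fin d → RR N, D • f = ∑ c, jj N (q c) • vq x w c := by
  obtain ⟨D, hD, r, hr⟩ := f.2
  have h1 : ∀ b, ∃ a : RR N, jj N a = rest ((1 : G) : G ⧸ N) (r b) := by
    intro b
    refine exists_jj _ fun g hg => ?_
    rw [rest_coeff, if_neg]
    intro h
    rw [eq_comm, QuotientGroup.eq, inv_one, one_mul] at h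
    exact hg h
  choose q hq using h1
  refine ⟨D, hD, q, Subtype.ext ?_⟩
  have h2 : (f : FQ (OmI (K1 x) G)) = cutq {p | (p.2 : G ⧸ N) = ((1 : G) : G ⧸ N)} f :=
    (Vq.Ov.cut_eq hf).symm
  have h3 : ((D • f : (VVq x w).V) : FQ (OmI (K1 x) G)) = D • (f : FQ (OmI (K1 x) G)) := rfl
  have h4 : ((∑ c, jj N (q c) • vq x w c : (VVq x w).V) : FQ (OmI (K1 x) G)) =
      ∑ c, jj N (q c) • toQ (G := G) (vo x w c) := by
    rw [Submodule.coe_sum]
    rfl
  rw [h3, h4, h2, ← map_zsmul, hr, cutq_toQ, cut_LL, LL_apply, map_sum]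
  exact Finset.sum_congr rfl fun b _ => by rw [← hq, map_smul]

/-- the relation satisfied by the coordinate functions -/
theorem vq_rel : ∑ b, dg w (gof ((x b : N) : G) - 1) • vq x w b = 0 := by
  apply Subtype.ext
  have h1 := congrArg (fun m : (VV1 x w).V => (m : FO (OmI (K1 x) G))) (vv_rel x w)
  have h2 : (∑ b, dg w (gof ((x b : N) : G) - 1) • vo x w b) = 0 := by
    refine Eq.trans ?_ h1
    change _ = ((∑ b, dg w (gof ((x b : N) : G) - 1) • vv x w b : (VV1 x w).V) :
      FO (OmI (K1 x) G))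
    rw [Submodule.coe_sum]
    rfl
  have h3 := congrArg (toQ (G := G)) h2
  rw [map_sum, map_zero] at h3
  rw [Submodule.coe_sum]
  change _ = (0 : FQ (OmI (K1 x) G))
  rw [← h3]
  exact Finset.sum_congr rfl fun b _ => by
    rw [map_smul]
    rfl

end K1

end

end Pool.Agent.J4H59.PF
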