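import Pool.Agent.J4H59.PF.Tr

/-!
# Pushing cycles along a ray by means of transfers, continued
-/

set_option autoImplicit false
set_option linter.unusedSectionVars false

open scoped Classical

namespace Pool.Agent.J4H59.PF

open Pool.Agent.Helper386.PD3 Pool.Agent.J4H59.PD

noncomputable section

variable {G : Type} [Group G] {N K : Subgroup G} {Ω : Type} [MulAction G Ω]

/-- characters separate the elements of a module -/
theorem eq_zero_of_ev {M : Type} [AddCommGroup M] (w : G →* ℤˣ) {m : M}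
    (h : ∀ ψ : Du w M, ψ.ev m = 0) : m = 0 := by
  by_contra hm
  obtain ⟨ψ, hψ⟩ := CharacterModule.exists_character_apply_ne_zero_of_ne_zero hm
  exact hψ (h ψ)

theorem ev_zs {M : Type} [AddCommGroup M] {w : G →* ℤˣ} (z : ℤ) (ψ : Du w M) (m : M) :
    (z • ψ).ev m = z • ψ.ev m := rfl

namespace Vq

variable (𝒱 : Vq N Ω) (hNK : N ≤ K) (r : Ray K) {w : G →* ℤˣ}

/-- The pushing operator of one step. -/
theorem exists_Zs {d : ℕ} (x : Fin d → G) (hx : Subgroup.closure (Set.range x) = N) (s : G)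
    (hs : (As N s).index ≠ 0) :
    ∃ Z : (Fin d → 𝒱.MQ hNK r.R) →+ (Fin d → 𝒱.MQ hNK r.R),
      (∀ δ : G → Du w (𝒱.MQ hNK r.R), (∀ g h, δ (g * h) = δ g + gof g • δ h) →
        ∀ c, bdy w x c = 0 → ∑ j, (δ (x j)).ev (c j) = ∑ j, (δ (x j)).ev (Z c j)) ∧
      (∀ c, bdy w x c = 0 → bdy w x (Z c) = 0) ∧
      (∀ (k : ℕ) (c : Fin d → 𝒱.MQ hNK r.R), (∀ j, c j ∈ 𝒱.Fq hNK r k) →
        (∀ j y, (c j : FQ Ω) y ≠ 0 → 𝒱.p y ∈ Pc N r s) → ∀ j, Z c j ∈ 𝒱.Fq hNK r (k + 1)) := by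
  have hfi : (As N s).FiniteIndex := ⟨hs⟩
  have hF : Fintype (N ⧸ As N s) := Fintype.ofFinite _
  let q : ℕ := Fintype.card (N ⧸ As N s)
  have hq : (q : ℚ) ≠ 0 := by
    have h1 : q ≠ 0 := Fintype.card_ne_zero
    exact_mod_cast h1
  have hxN : ∀ j, x j ∈ N := fun j => by
    rw [← hx]
    exact Subgroup.subset_closure ⟨j, rfl⟩
  let xN : Fin d → N := fun j => ⟨x j, hxN j⟩
  let r' : Fin d → N ⧸ As N s → G := fun j i => ((rp (xN j • i) : N) : G) * s⁻¹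
  let n' : Fin d → N ⧸ As N s → G := fun j i =>
    s * ((((rp (xN j • i))⁻¹ * xN j * rp i : N)) : G) * s⁻¹
  have hn' : ∀ j i, n' j i ∈ N := by
    intro j i
    have h1 : (rp (xN j • i))⁻¹ * (xN j * rp i) ∈ As N s := by
      rw [← QuotientGroup.eq, mk_rp]
      conv_lhs => rw [← mk_rp i]
      rfl
    rw [← mul_assoc] at h1
    exact h1
  choose β hβ hβ' using fun (j : Fin d) (i : N ⧸ As N s) =>
    𝒱.foxU hNK r (w := w) x hx (n' j i) (hn' j i)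
  let Γ : Fin d → Fin d → RR G := fun l j =>
    ∑ i, β j i l * (((w (r' j i) : ℤˣ) : ℤ) • gof (r' j i)⁻¹)
  let L : (Fin d → 𝒱.MQ hNK r.R) → Fin d → 𝒱.MQ hNK r.R := fun c l => ∑ j, Γ l j • c j
  have hmain : ∀ δ : G → Du w (𝒱.MQ hNK r.R), (∀ g h, δ (g * h) = δ g + gof g • δ h) → ∀ c,
      ((q : ℕ) : ℤ) • ∑ j, (δ (x j)).ev (c j) +
        (∑ i : N ⧸ As N s, δ (((rp i : N) : G) * s⁻¹)).ev (bdy w x c) =
      ∑ l, (δ (x l)).ev (L c l) := by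
    intro δ hδ c
    have h1 : ∀ l, (δ (x l)).ev (L c l) = ∑ j, ∑ i, (δ (x l)).ev
        (β j i l • (((w (r' j i) : ℤˣ) : ℤ) • gof (r' j i)⁻¹ • c j)) := by
      intro l
      change (δ (x l)).ev (∑ j, Γ l j • c j) = _
      rw [map_sum]
      refine Finset.sum_congr rfl fun j _ => ?_
      change (δ (x l)).ev ((∑ i, β j i l * (((w (r' j i) : ℤˣ) : ℤ) • gof (r' j i)⁻¹)) • c j) = _
      rw [Finset.sum_smul, map_sum]
      refine Finset.sum_congr rfl fun i _ => ?_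
      rw [mul_smul, smul_assoc]
    rw [Finset.sum_congr rfl fun l _ => h1 l, Finset.sum_comm]
    rw [ev_bdy, Finset.smul_sum, ← Finset.sum_add_distrib]
    refine Finset.sum_congr rfl fun j _ => ?_
    rw [Finset.sum_comm]
    have h2 : ∀ i, ∑ l, (δ (x l)).ev
        (β j i l • (((w (r' j i) : ℤˣ) : ℤ) • gof (r' j i)⁻¹ • c j)) =
        (gof (r' j i) • δ (n' j i)).ev (c j) := by
      intro i
      rw [← hβ' j i δ hδ, Du.ev_gof, ev_zsmul']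
    rw [Finset.sum_congr rfl fun i _ => h2 i, ← Du.ev_sum]
    have h3 := transfer_id δ hδ (As N s) s (xN j)
    have h4 : ∑ i, gof (r' j i) • δ (n' j i) = ∑ i : N ⧸ As N s,
      gof (((rp (xN j • i) : N) : G) * s⁻¹) •
      δ (s * ((((rp (xN j • i))⁻¹ * xN j * rp i : N)) : G) * s⁻¹) := rfl
    rw [h4, h3, Du.ev_add]
    rfl
  let Z : (Fin d → 𝒱.MQ hNK r.R) →+ (Fin d → 𝒱.MQ hNK r.R) := AddMonoidHom.mk'
    (fun c l => 𝒱.scM hNK r.R (q : ℚ)⁻¹ (L c l)) (by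
      intro c c'
      funext l
      change 𝒱.scM hNK r.R (q : ℚ)⁻¹ (∑ j, Γ l j • (c + c') j) =
        𝒱.scM hNK r.R (q : ℚ)⁻¹ (∑ j, Γ l j • c j) + 𝒱.scM hNK r.R (q : ℚ)⁻¹ (∑ j, Γ l j • c' j)
      rw [← map_add, ← Finset.sum_add_distrib]
      congr 1
      exact Finset.sum_congr rfl fun j _ => by rw [Pi.add_apply, smul_add])
  have hZ : ∀ c l, Z c l = 𝒱.scM hNK r.R (q : ℚ)⁻¹ (L c l) := fun c l => rfl
  -- division by the index
  have hZ' : ∀ c l, Z c l = L (fun j => 𝒱.scM hNK r.R (q : ℚ)⁻¹ (c j)) l := by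
    intro c l
    rw [hZ]
    change 𝒱.scM hNK r.R (q : ℚ)⁻¹ (∑ j, Γ l j • c j) =
      ∑ j, Γ l j • 𝒱.scM hNK r.R (q : ℚ)⁻¹ (c j)
    rw [map_sum]
    exact Finset.sum_congr rfl fun j _ => 𝒱.scM_smul hNK _ _ _
  have hqs : ∀ m : 𝒱.MQ hNK r.R, ((q : ℕ) : ℤ) • 𝒱.scM hNK r.R (q : ℚ)⁻¹ m = m := by
    intro m
    apply Subtype.ext
    refine fq_ext fun y => ?_
    have h1 : ∀ (z : ℤ) (f : 𝒱.MQ hNK r.R), ((z • f : 𝒱.MQ hNK r.R) : FQ Ω) y =
        (z : ℚ) * (f : FQ Ω) y := by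
      intro z f
      have h2 : ((z • f : 𝒱.MQ hNK r.R) : FQ Ω) y = z • ((f : FQ Ω) y) := rfl
      rw [h2, zsmul_eq_mul]
    rw [h1, scM_coe, scq_apply, Int.cast_natCast, mul_inv_cancel_left₀ hq]
  have hbs : ∀ c : Fin d → 𝒱.MQ hNK r.R,
      bdy w x (fun j => 𝒱.scM hNK r.R (q : ℚ)⁻¹ (c j)) =
        𝒱.scM hNK r.R (q : ℚ)⁻¹ (bdy w x c) := by
    intro c
    unfold bdy
    rw [map_sum]
    refine Finset.sum_congr rfl fun j _ => ?_
    rw [map_sub, map_zsmul, 𝒱.scM_smul hNK]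
  have hone : ∀ δ : G → Du w (𝒱.MQ hNK r.R), (∀ g h, δ (g * h) = δ g + gof g • δ h) →
      ∀ c, bdy w x c = 0 → ∑ j, (δ (x j)).ev (c j) = ∑ j, (δ (x j)).ev (Z c j) := by
    intro δ hδ c hc
    have h1 := hmain δ hδ (fun j => 𝒱.scM hNK r.R (q : ℚ)⁻¹ (c j))
    rw [hbs, hc, map_zero, map_zero, add_zero, Finset.smul_sum] at h1
    have h2 : ∀ j, ((q : ℕ) : ℤ) • (δ (x j)).ev (𝒱.scM hNK r.R (q : ℚ)⁻¹ (c j)) =
        (δ (x j)).ev (c j) := by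
      intro j
      rw [← ev_zsmul', hqs]
    rw [Finset.sum_congr rfl fun j _ => h2 j] at h1
    rw [h1]
    exact Finset.sum_congr rfl fun l _ => by rw [hZ']
  refine ⟨Z, hone, fun c hc => ?_, fun k c hc hcs l => ?_⟩
  · refine eq_zero_of_ev w fun ψ => ?_
    have h1 := hone (fun g => gof g • ψ - ψ) (by
      intro g h
      rw [gof_mul, mul_smul, smul_sub]
      abel) c hc
    rw [← ev_bdy, ← ev_bdy, hc, map_zero] at h1
    exact h1.symm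
  · rw [hZ]
    refine 𝒱.Fq_sc hNK r _ ?_
    refine sum_mem fun j _ => ?_
    change (∑ i, β j i l * (((w (r' j i) : ℤˣ) : ℤ) • gof (r' j i)⁻¹)) • c j ∈ _
    rw [Finset.sum_smul]
    refine sum_mem fun i _ => ?_
    rw [mul_smul, smul_assoc]
    refine hβ j i l _ _ (zsmul_mem ?_ _)
    have h1 : (r' j i)⁻¹ = s * (((rp (xN j • i) : N) : G))⁻¹ := by
      change (((rp (xN j • i) : N) : G) * s⁻¹)⁻¹ = _
      group
    have hmem : (((rp (xN j • i) : N) : G))⁻¹ ∈ K :=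
      K.inv_mem (hNK (rp (xN j • i)).2)
    rw [h1, gof_mul, mul_smul]
    refine 𝒱.Fq_step hNK r (𝒱.Fq_gof hNK r hmem (hc j)) ?_
    refine 𝒱.gof_piece hNK r hmem ?_ (hcs j)
    intro y hy
    obtain ⟨l, -, hl⟩ := hc j y hy
    exact ⟨l, Nat.zero_le _, hl⟩

/-- Cycles over the ray pair to zero with all derivations. -/
theorem push {d : ℕ} (x : Fin d → G) (hx : Subgroup.closure (Set.range x) = N)
    (hS : ∀ s ∈ r.S, (As N s).index ≠ 0) (δ : G → Du w (𝒱.MQ hNK r.R))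
    (hδ : ∀ g h, δ (g * h) = δ g + gof g • δ h) (c : Fin d → 𝒱.MQ hNK r.R)
    (hc : ∀ j, c j ∈ 𝒱.Fq hNK r 0) (hbc : bdy w x c = 0) : ∑ j, (δ (x j)).ev (c j) = 0 := by
  have hxN : ∀ j, x j ∈ N := fun j => by
    rw [← hx]
    exact Subgroup.subset_closure ⟨j, rfl⟩
  have hex : ∀ s : G, ∃ Z : (Fin d → 𝒱.MQ hNK r.R) →+ (Fin d → 𝒱.MQ hNK r.R), s ∈ r.S →
      (∀ δ : G → Du w (𝒱.MQ hNK r.R), (∀ g h, δ (g * h) = δ g + gof g • δ h) →
        ∀ c, bdy w x c = 0 → ∑ j, (δ (x j)).ev (c j) = ∑ j, (δ (x j)).ev (Z c j)) ∧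
      (∀ c, bdy w x c = 0 → bdy w x (Z c) = 0) ∧
      (∀ (k : ℕ) (c : Fin d → 𝒱.MQ hNK r.R), (∀ j, c j ∈ 𝒱.Fq hNK r k) →
        (∀ j y, (c j : FQ Ω) y ≠ 0 → 𝒱.p y ∈ Pc N r s) → ∀ j, Z c j ∈ 𝒱.Fq hNK r (k + 1)) := by
    intro s
    by_cases hs : s ∈ r.S
    · obtain ⟨Z, hZ⟩ := 𝒱.exists_Zs hNK r (w := w) x hx s (hS s hs)
      exact ⟨Z, fun _ => hZ⟩
    · exact ⟨0, fun h => absurd h hs⟩
  choose Zs hZs using hex
  let C : G → 𝒱.MQ hNK r.R →+ 𝒱.MQ hNK r.R := fun s => 𝒱.cutM hNK r.R (Pc N r s)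
  let Cf : G → (Fin d → 𝒱.MQ hNK r.R) →+ (Fin d → 𝒱.MQ hNK r.R) := fun s =>
    AddMonoidHom.mk' (fun u j => C s (u j)) (fun u u' => funext fun j => map_add _ _ _)
  have hCb : ∀ s (u : Fin d → 𝒱.MQ hNK r.R), (∀ j, u j ∈ 𝒱.Fq hNK r 0) →
      bdy w x (Cf s u) = C s (bdy w x u) := by
    intro s u hu
    unfold bdy
    rw [map_sum]
    refine Finset.sum_congr rfl fun j _ => ?_
    change ((w (x j) : ℤˣ) : ℤ) • gof (x j)⁻¹ • C s (u j) - C s (u j) = _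
    rw [𝒱.gof_cutM hNK r (hNK (N.inv_mem (hxN j))) (hu j), map_sub, map_zsmul]
  -- the group of cycles over the ray
  let W : AddSubgroup (Fin d → 𝒱.MQ hNK r.R) :=
    { carrier := {u | (∀ j, u j ∈ 𝒱.Fq hNK r 0) ∧ bdy w x u = 0}
      zero_mem' := ⟨fun j => zero_mem _, bdy_zero w x⟩
      add_mem' := fun ha hb => ⟨fun j => add_mem (ha.1 j) (hb.1 j), by
        rw [bdy_add, ha.2, hb.2, add_zero]⟩
      neg_mem' := fun ha => ⟨fun j => neg_mem (ha.1 j), by rw [bdy_neg, ha.2, neg_zero]⟩ }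
  let F : ℕ → AddSubgroup W := fun k =>
    { carrier := {u | ∀ j, (u : Fin d → 𝒱.MQ hNK r.R) j ∈ 𝒱.Fq hNK r k}
      zero_mem' := fun j => zero_mem _
      add_mem' := fun ha hb j => add_mem (ha j) (hb j)
      neg_mem' := fun ha j => neg_mem (ha j) }
  have hpiece : ∀ s ∈ r.S, ∀ (k : ℕ) (u : Fin d → 𝒱.MQ hNK r.R), (∀ j, u j ∈ 𝒱.Fq hNK r k) →
      ∀ j, Zs s (Cf s u) j ∈ 𝒱.Fq hNK r (k + 1) := by
    intro s hs k u hu
    refine (hZs s hs).2.2 k _ (fun j => 𝒱.Fq_cut hNK r _ (hu j)) fun j y hy => ?_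
    exact (𝒱.cutM_ne hNK hy).2
  let Z0 : (Fin d → 𝒱.MQ hNK r.R) →+ (Fin d → 𝒱.MQ hNK r.R) :=
    ∑ s ∈ r.S, (Zs s).comp (Cf s)
  have hZ0 : ∀ u, Z0 u = ∑ s ∈ r.S, Zs s (Cf s u) := by
    intro u
    change (∑ s ∈ r.S, (Zs s).comp (Cf s)) u = _
    rw [AddMonoidHom.finsetSum_apply]
    rfl
  have hZ0j : ∀ u j, Z0 u j = ∑ s ∈ r.S, Zs s (Cf s u) j := by
    intro u j
    rw [hZ0, Finset.sum_apply]
  have hZ0F : ∀ k (u : Fin d → 𝒱.MQ hNK r.R), (∀ j, u j ∈ 𝒱.Fq hNK r k) →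
      ∀ j, Z0 u j ∈ 𝒱.Fq hNK r (k + 1) := by
    intro k u hu j
    rw [hZ0j]
    exact sum_mem fun s hs => hpiece s hs k u hu j
  have hbsum : ∀ (T : Finset G) (f : G → Fin d → 𝒱.MQ hNK r.R),
      bdy w x (∑ s ∈ T, f s) = ∑ s ∈ T, bdy w x (f s) := by
    intro T f
    induction T using Finset.induction_on with
    | empty => rw [Finset.sum_empty, Finset.sum_empty, bdy_zero]
    | insert a T ha ih => rw [Finset.sum_insert ha, Finset.sum_insert ha, bdy_add, ih]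
  let Z : W →+ W := AddMonoidHom.mk' (fun u => ⟨Z0 u.1,
      fun j => 𝒱.Fq_mono hNK r 0 (hZ0F 0 u.1 u.2.1 j), by
        rw [hZ0, hbsum]
        refine Finset.sum_eq_zero fun s hs => (hZs s hs).2.1 _ ?_
        rw [hCb s u.1 u.2.1, u.2.2, map_zero]⟩)
    (fun u u' => Subtype.ext (map_add Z0 u.1 u'.1))
  obtain ⟨s, hs, hs'⟩ := exists_fix' F (fun k u hu j => 𝒱.Fq_mono hNK r k (hu j))
    (fun u hu => Subtype.ext (funext fun j => 𝒱.Fq_sep hNK r _ fun l => hu l j))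
    (by
      intro u hu
      choose s hs using fun j => 𝒱.Fq_comp hNK r (fun k => (u k : Fin d → 𝒱.MQ hNK r.R) j)
        (fun k => hu k j)
      have hcoe : ∀ l : ℕ, ((∑ k ∈ Finset.range l, u k : W) : Fin d → 𝒱.MQ hNK r.R) =
          ∑ k ∈ Finset.range l, (u k : Fin d → 𝒱.MQ hNK r.R) := by
        intro l
        exact AddSubmonoidClass.coe_finsetSum _ _
      have hlev : ∀ l j, s j - ∑ k ∈ Finset.range l, (u k : Fin d → 𝒱.MQ hNK r.R) j ∈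
          𝒱.Fq hNK r l := fun l j => hs j l
      have hs0 : ∀ j, s j ∈ 𝒱.Fq hNK r 0 := by
        intro j
        have := hs j 0
        rwa [Finset.range_zero, Finset.sum_empty, sub_zero] at this
      have hsb : bdy w x s = 0 := by
        refine 𝒱.Fq_sep hNK r _ fun l => ?_
        have h1 : s = (s - ∑ k ∈ Finset.range l, (u k : Fin d → 𝒱.MQ hNK r.R)) +
            ∑ k ∈ Finset.range l, (u k : Fin d → 𝒱.MQ hNK r.R) := by abel
        have h2 : bdy w x (∑ k ∈ Finset.range l, (u k : Fin d → 𝒱.MQ hNK r.R)) = 0 := by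
          rw [← hcoe]
          exact (∑ k ∈ Finset.range l, u k : W).2.2
        rw [h1, bdy_add, h2, add_zero]
        have h3 : ∀ j, (s - ∑ k ∈ Finset.range l, (u k : Fin d → 𝒱.MQ hNK r.R)) j ∈
            𝒱.Fq hNK r l := by
          intro j
          rw [Pi.sub_apply, Finset.sum_apply]
          exact hlev l j
        refine sum_mem fun j _ => sub_mem (zsmul_mem ?_ _) (h3 j)
        exact 𝒱.Fq_gof hNK r (hNK (N.inv_mem (hxN j))) (h3 j)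
      refine ⟨⟨s, hs0, hsb⟩, fun l j => ?_⟩
      have h4 : (((⟨s, hs0, hsb⟩ : W) - ∑ k ∈ Finset.range l, u k : W) :
          Fin d → 𝒱.MQ hNK r.R) j = s j -
          ∑ k ∈ Finset.range l, (u k : Fin d → 𝒱.MQ hNK r.R) j := by
        rw [AddSubgroup.coe_sub, Pi.sub_apply, hcoe, Finset.sum_apply]
      rw [h4]
      exact hlev l j) Z
    (fun k u hu j => hZ0F k u.1 hu j) ⟨c, hc, hbc⟩ hc
  have h1 : c = (s : Fin d → 𝒱.MQ hNK r.R) - Z0 s.1 := (congrArg Subtype.val hs').symm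
  have h2 : ∑ j, (δ (x j)).ev (Z0 s.1 j) = ∑ j, (δ (x j)).ev ((s : Fin d → 𝒱.MQ hNK r.R) j) := by
    have h3 : ∀ j, (s : Fin d → 𝒱.MQ hNK r.R) j = ∑ t ∈ r.S, Cf t s.1 j := by
      intro j
      exact (𝒱.sum_cutM hNK r.S (fun c => r.st (r.lev (pu K c)))
        ((s : Fin d → 𝒱.MQ hNK r.R) j) fun y _ => r.hst _).symm
    have h4 : ∑ j, (δ (x j)).ev ((s : Fin d → 𝒱.MQ hNK r.R) j) =
        ∑ t ∈ r.S, ∑ j, (δ (x j)).ev (Cf t s.1 j) := by
      rw [Finset.sum_comm]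
      refine Finset.sum_congr rfl fun j _ => ?_
      rw [← map_sum, ← h3]
    rw [h4]
    have h5 : ∑ j, (δ (x j)).ev (Z0 s.1 j) =
        ∑ t ∈ r.S, ∑ j, (δ (x j)).ev (Zs t (Cf t s.1) j) := by
      rw [Finset.sum_comm]
      refine Finset.sum_congr rfl fun j _ => ?_
      rw [hZ0j, map_sum]
    rw [h5]
    refine Finset.sum_congr rfl fun t ht => ?_
    refine ((hZs t ht).1 δ hδ _ ?_).symm
    rw [hCb t s.1 s.2.1, s.2.2, map_zero]
  have h6 : ∀ j, c j = (s : Fin d → 𝒱.MQ hNK r.R) j - Z0 s.1 j := fun j => by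
    conv_lhs => rw [h1]
    rfl
  rw [Finset.sum_congr rfl fun j _ => by rw [h6 j, map_sub], Finset.sum_sub_distrib, h2, sub_self]

end Vq

end

end Pool.Agent.J4H59.PF
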