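import Pool.Agent.J4H59.PF.Push

/-!
# Derivations which are inner on a submodule
-/

set_option autoImplicit false
set_option linter.unusedSectionVars false

open scoped Classical

namespace Pool.Agent.J4H59.PF

open Pool.Agent.Helper386.PD3 Pool.Agent.J4H59.PD

noncomputable section

variable {G : Type} [Group G] {w : G →* ℤˣ}

section gen

variable {F : Type} [AddCommGroup F] [Module (RR G) F]

/-- restriction of characters -/
def resD {M' M : Submodule (RR G) F} (hle : M' ≤ M) (ψ : Du w M) : Du w M' :=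
  ψ.ev.comp (Submodule.inclusion hle).toAddMonoidHom

theorem resD_ev {M' M : Submodule (RR G) F} (hle : M' ≤ M) (ψ : Du w M) (m : M') :
    (resD hle ψ).ev m = ψ.ev (Submodule.inclusion hle m) := rfl

theorem resD_der {M' M : Submodule (RR G) F} (hle : M' ≤ M) {δ : G → Du w M}
    (hδ : ∀ g h, δ (g * h) = δ g + gof g • δ h) :
    ∀ g h, resD hle (δ (g * h)) = resD hle (δ g) + gof g • resD hle (δ h) := by
  intro g h
  refine Du.ext fun m => ?_
  rw [Du.ev_add, Du.ev_gof, resD_ev, resD_ev, resD_ev, hδ, Du.ev_add, Du.ev_gof]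
  congr 3

variable (w) in
/-- every derivation with values in the characters of `M` is inner on `M'` -/
def ResInner {M' M : Submodule (RR G) F} (hle : M' ≤ M) : Prop :=
  ∀ δ : G → Du w M, (∀ g h, δ (g * h) = δ g + gof g • δ h) →
    ∃ μ : Du w M', ∀ g, resD hle (δ g) = gof g • μ - μ

end gen

variable {N K : Subgroup G} {Ω : Type} [MulAction G Ω]

namespace Vq

variable (𝒱 : Vq N Ω)

/-- restriction to a cell -/
def cutV (y : G ⧸ N) : 𝒱.V →+ 𝒱.V where
  toFun f := ⟨cutq {x | 𝒱.p x = y} f.1, 𝒱.hcut _ f.2 y⟩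
  map_zero' := Subtype.ext (map_zero _)
  map_add' _ _ := Subtype.ext (map_add _ _ _)

theorem cutV_coe (y : G ⧸ N) (f : 𝒱.V) :
    ((𝒱.cutV y f : 𝒱.V) : FQ Ω) = cutq {x | 𝒱.p x = y} (f : FQ Ω) := rfl

/-- supported over a cell -/
def Ov (y : G ⧸ N) (f : FQ Ω) : Prop := ∀ x, f x ≠ 0 → 𝒱.p x = y

variable {𝒱}

theorem Ov.smul {y : G ⧸ N} {f : FQ Ω} (h : 𝒱.Ov y f) (g : G) : 𝒱.Ov (g • y) (gof g • f) := by
  intro x hx
  rw [gofq_apply] at hx
  rw [← h _ hx, 𝒱.hp, smul_inv_smul]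

theorem Ov.base {f : FQ Ω} (h : 𝒱.Ov ((1 : G) : G ⧸ N) f) {n : G} (hn : n ∈ N) :
    𝒱.Ov ((1 : G) : G ⧸ N) (gof n • f) := by
  have h1 := h.smul n
  have h2 : n • ((1 : G) : G ⧸ N) = ((1 : G) : G ⧸ N) := by
    change ((n * 1 : G) : G ⧸ N) = _
    rw [mul_one, eq_comm, QuotientGroup.eq, inv_one, one_mul]
    exact hn
  rwa [h2] at h1

theorem ov_cut (y : G ⧸ N) (f : FQ Ω) : 𝒱.Ov y (cutq {x | 𝒱.p x = y} f) := by
  intro x hx
  by_contra hcon
  exact hx (cutq_of_notMem f hcon)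

theorem Ov.cut_eq {y : G ⧸ N} {f : FQ Ω} (h : 𝒱.Ov y f) : cutq {x | 𝒱.p x = y} f = f := by
  refine fq_ext fun x => ?_
  by_cases hx : f x = 0
  · rw [cutq_apply, hx, ite_self]
  · exact cutq_of_mem (s := {x | 𝒱.p x = y}) f (h x hx)

theorem Ov.cut_ne {y y' : G ⧸ N} {f : FQ Ω} (h : 𝒱.Ov y f) (hy : y' ≠ y) :
    cutq {x | 𝒱.p x = y'} f = 0 := by
  refine fq_ext fun x => ?_
  rw [fqzero_apply]
  by_cases hx : f x = 0
  · rw [cutq_apply, hx, ite_self]
  · refine cutq_of_notMem (s := {x | 𝒱.p x = y'}) f fun hx' => hy ?_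
    have hx' : 𝒱.p x = y' := hx'
    rw [← hx', h x hx]

variable (𝒱)

/-- additive maps are determined by the functions supported over one cell -/
theorem ind_ov (E : 𝒱.V →+ EE)
    (hE : ∀ (y : G ⧸ N) (f : 𝒱.V), 𝒱.Ov y (f : FQ Ω) → E f = 0) (f : 𝒱.V) : E f = 0 := by
  have hkey : ∀ (T : Finset (G ⧸ N)) (f : 𝒱.V), (∀ x, (f : FQ Ω) x ≠ 0 → 𝒱.p x ∈ T) →
      E f = 0 := by
    intro T
    induction T using Finset.induction_on with
    | empty =>
      intro f hf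
      have : f = 0 := by
        apply Subtype.ext
        refine fq_ext fun x => ?_
        by_contra hcon
        exact absurd (hf x hcon) (Finset.notMem_empty _)
      rw [this, map_zero]
    | insert c T hc ih =>
      intro f hf
      have h1 : f = 𝒱.cutV c f + (f - 𝒱.cutV c f) := by abel
      rw [h1, map_add, hE c _ (ov_cut c _), zero_add]
      apply ih
      intro x hx
      have hx : (f : FQ Ω) x - cutq {x | 𝒱.p x = c} (f : FQ Ω) x ≠ 0 := hx
      by_cases hxc : 𝒱.p x = c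
      · exact absurd (by rw [cutq_of_mem (s := {x | 𝒱.p x = c}) (f : FQ Ω) hxc,
          sub_self]) hx
      · rw [cutq_of_notMem (s := {x | 𝒱.p x = c}) (f : FQ Ω) hxc, sub_zero] at hx
        rcases Finset.mem_insert.1 (hf x hx) with h | h
        · exact absurd h hxc
        · exact h
  refine hkey (𝒱.hfin _ f.2).toFinset f fun x hx => ?_
  rw [Set.Finite.mem_toFinset]
  exact ⟨x, hx, rfl⟩

/-- Shapiro's lemma: a derivation which vanishes on the generators of `N` and functions over the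
base cell is inner. -/
theorem inner_of_base {d : ℕ} (x : Fin d → G) (hx : Subgroup.closure (Set.range x) = N)
    (δ : G → Du w 𝒱.V) (hδ : ∀ g h, δ (g * h) = δ g + gof g • δ h)
    (h0 : ∀ c : Fin d → 𝒱.V, (∀ j, 𝒱.Ov ((1 : G) : G ⧸ N) (c j : FQ Ω)) → bdy w x c = 0 →
      ∑ j, (δ (x j)).ev (c j) = 0) :
    ∃ μ : Du w 𝒱.V, ∀ g, δ g = gof g • μ - μ := by
  have hxN : ∀ j, x j ∈ N := fun j => by
    rw [← hx]
    exact Subgroup.subset_closure ⟨j, rfl⟩
  let b : G ⧸ N := ((1 : G) : G ⧸ N)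
  let P0 : 𝒱.V →+ 𝒱.V := 𝒱.cutV b
  have hP0 : ∀ m : 𝒱.V, 𝒱.Ov b (m : FQ Ω) → P0 m = m := fun m hm => Subtype.ext hm.cut_eq
  have hP0o : ∀ m : 𝒱.V, 𝒱.Ov b (P0 m : FQ Ω) := fun m => ov_cut b _
  let J : (Fin d → 𝒱.V) →+ 𝒱.V := AddMonoidHom.mk' (fun c => bdy w x fun j => P0 (c j)) (by
    intro c c'
    rw [← bdy_add]
    congr 1
    funext j
    exact map_add _ _ _)
  let Ψ : (Fin d → 𝒱.V) →+ EE := AddMonoidHom.mk' (fun c => ∑ j, (δ (x j)).ev (P0 (c j))) (by
    intro c c'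
    rw [← Finset.sum_add_distrib]
    refine Finset.sum_congr rfl fun j _ => ?_
    rw [Pi.add_apply, map_add, map_add])
  obtain ⟨μ₁', hμ₁⟩ := exists_extension J Ψ (by
    intro c hc
    exact h0 (fun j => P0 (c j)) (fun j => hP0o _) hc)
  let μ₁ : Du w 𝒱.V := μ₁'
  have hμ₁ : ∀ c : Fin d → 𝒱.V, μ₁.ev (bdy w x fun j => P0 (c j)) = ∑ j, (δ (x j)).ev (P0 (c j)) := hμ₁
  let δ' : G → Du w 𝒱.V := fun g => δ g - (gof g • μ₁ - μ₁)
  have hδ' : ∀ g h, δ' (g * h) = δ' g + gof g • δ' h := der_sub hδ μ₁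
  have hgen : ∀ j, ∀ m : 𝒱.V, 𝒱.Ov b (m : FQ Ω) → (δ' (x j)).ev m = 0 := by
    intro j m hm
    have h1 := hμ₁ (Pi.single j m)
    rw [ev_bdy] at h1
    have h2 : ∀ (φ : Fin d → Du w 𝒱.V), ∑ i, (φ i).ev (P0 ((Pi.single j m : Fin d → 𝒱.V) i)) =
        (φ j).ev m := by
      intro φ
      rw [Finset.sum_eq_single j]
      · rw [Pi.single_eq_same, hP0 m hm]
      · intro i _ hi
        rw [Pi.single_eq_of_ne hi, map_zero, map_zero]
      · intro h
        exact absurd (Finset.mem_univ _) h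
    rw [h2, h2] at h1
    change (δ (x j) - (gof (x j) • μ₁ - μ₁)).ev m = 0
    rw [Du.ev_sub, h1, sub_self]
  have hvan : ∀ n ∈ N, ∀ m : 𝒱.V, 𝒱.Ov b (m : FQ Ω) → (δ' n).ev m = 0 := by
    intro n hn
    rw [← hx] at hn
    induction hn using Subgroup.closure_induction with
    | mem n hn =>
      obtain ⟨j, rfl⟩ := hn
      exact hgen j
    | one =>
      intro m _
      rw [der_one hδ']
      exact Du.ev_zero m
    | mul n n' hn hn' ih ih' =>
      intro m hm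
      rw [hx] at hn
      rw [hδ', Du.ev_add, Du.ev_gof, ih m hm, ih' _ (hm.base (N.inv_mem hn)), smul_zero, add_zero]
    | inv n hn ih =>
      intro m hm
      rw [hx] at hn
      have h1 : 𝒱.Ov b ((gof n • m : 𝒱.V) : FQ Ω) := hm.base hn
      rw [der_inv hδ', Du.ev_neg, Du.ev_gof, inv_inv, ih _ h1, smul_zero, neg_zero]
  have hfin : ∀ f : 𝒱.V, (Function.support fun y => (δ' (rp y)).ev (𝒱.cutV y f)).Finite := by
    intro f
    refine (𝒱.hfin _ f.2).subset ?_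
    intro y hy
    by_contra hcon
    apply hy
    have h1 : 𝒱.cutV y f = 0 := by
      apply Subtype.ext
      refine fq_ext fun x => ?_
      by_cases hx : (f : FQ Ω) x = 0
      · change cutq {x | 𝒱.p x = y} (f : FQ Ω) x = 0
        rw [cutq_apply, hx, ite_self]
      · exact cutq_of_notMem (s := {x | 𝒱.p x = y}) _ fun hxc => hcon ⟨x, hx, hxc⟩
    change (δ' (rp y)).ev (𝒱.cutV y f) = 0
    rw [h1, map_zero]
  let μ₂' : 𝒱.V →+ EE := AddMonoidHom.mk'
    (fun f => -∑ᶠ y, (δ' (rp y)).ev (𝒱.cutV y f)) (by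
      intro f f'
      rw [← neg_add, ← finsum_add_distrib (hfin f) (hfin f')]
      congr 1
      exact finsum_congr fun c => by rw [map_add, map_add])
  let μ₂ : Du w 𝒱.V := μ₂'
  have hμ₂ : ∀ (y : G ⧸ N) (f : 𝒱.V), 𝒱.Ov y (f : FQ Ω) → μ₂.ev f = -(δ' (rp y)).ev f := by
    intro y f hf
    change -∑ᶠ y, (δ' (rp y)).ev (𝒱.cutV y f) = _
    rw [finsum_eq_single _ y]
    · have h1 : 𝒱.cutV y f = f := Subtype.ext hf.cut_eq
      rw [h1]
    · intro y' hy'
      have h1 : 𝒱.cutV y' f = 0 := Subtype.ext (hf.cut_ne hy')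
      rw [h1, map_zero]
  have hrp : ∀ y : G ⧸ N, rp y • b = y := by
    intro y
    change ((rp y * 1 : G) : G ⧸ N) = y
    rw [mul_one, mk_rp]
  have hfinal : ∀ g, δ' g = gof g • μ₂ - μ₂ := by
    intro g
    rw [← sub_eq_zero]
    refine Du.ext fun f => ?_
    rw [Du.ev_zero]
    refine 𝒱.ind_ov _ (fun c f hf => ?_) f
    have h0 : (δ' g - (gof g • μ₂ - μ₂)).ev f =
      (δ' g).ev f - ((gof g • μ₂).ev f - μ₂.ev f) := rfl
    rw [h0, Du.ev_gof, hμ₂ c f hf]
    have h1 : 𝒱.Ov (g⁻¹ • c) ((gof g⁻¹ • f : 𝒱.V) : FQ Ω) := hf.smul g⁻¹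
    rw [hμ₂ _ _ h1]
    set r := rp c with hr
    set r' := rp (g⁻¹ • c) with hr'
    have h2 : ((w g : ℤˣ) : ℤ) • (δ' r').ev (gof g⁻¹ • f) = (δ' (g * r')).ev f - (δ' g).ev f := by
      rw [← Du.ev_gof, hδ', Du.ev_add]
      abel
    have h3 : (δ' (g * r')).ev f = (δ' r).ev f := by
      have h4 : g * r' = r * (r⁻¹ * g * r') := by group
      have h5 : r⁻¹ * g * r' ∈ N := by
        have h6 : (r⁻¹ * g * r') • b = b := by
          rw [mul_smul, mul_smul, hr', hrp, smul_inv_smul, hr, inv_smul_eq_iff, hrp]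
        have h6 : ((r⁻¹ * g * r' * 1 : G) : G ⧸ N) = ((1 : G) : G ⧸ N) := h6
        rw [mul_one, eq_comm, QuotientGroup.eq, inv_one, one_mul] at h6
        exact h6
      rw [h4, hδ', Du.ev_add, Du.ev_gof, hvan _ h5, smul_zero, add_zero]
      have h6 : 𝒱.Ov (r⁻¹ • c) ((gof r⁻¹ • f : 𝒱.V) : FQ Ω) := hf.smul r⁻¹
      have h7 : r⁻¹ • c = b := by
        rw [inv_smul_eq_iff, hr, hrp]
      rw [← h7]
      exact h6
    rw [smul_neg, h2, h3]
    abel
  refine ⟨μ₁ + μ₂, fun g => ?_⟩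
  have h1 := hfinal g
  have h2 : δ g = δ' g + (gof g • μ₁ - μ₁) := by
    change _ = (δ g - (gof g • μ₁ - μ₁)) + _
    abel
  rw [h2, h1, smul_add]
  abel

/-- Derivations with values in the characters of the functions over a ray are inner on functions
with support in finitely many cells. -/
theorem resInner_ray (hNK : N ≤ K) (r : Ray K) {d : ℕ} (x : Fin d → G)
    (hx : Subgroup.closure (Set.range x) = N)
    (hS : ∀ s ∈ r.S, (As N s).index ≠ 0) (hr0 : (r.h 0 : G ⧸ K) = ((1 : G) : G ⧸ K))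
    (hne : r.R.Nonempty) : ResInner w (𝒱.V_le_MQ hNK hne) := by
  intro δ hδ
  refine 𝒱.inner_of_base x hx _ (resD_der _ hδ) fun c hc hbc => ?_
  refine 𝒱.push hNK r x hx hS δ hδ (fun j => Submodule.inclusion (𝒱.V_le_MQ hNK hne) (c j))
    (fun j y hy => ⟨0, le_rfl, ?_⟩) ?_
  · have h1 : 𝒱.p y = ((1 : G) : G ⧸ N) := hc j y hy
    rw [h1, pu_mk hNK, hr0]
  · have h1 : bdy w x (fun j => Submodule.inclusion (𝒱.V_le_MQ hNK hne) (c j)) =
        Submodule.inclusion (𝒱.V_le_MQ hNK hne) (bdy w x c) := by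
      unfold bdy
      rw [map_sum]
      refine Finset.sum_congr rfl fun j _ => ?_
      rw [map_sub, map_zsmul, LinearMap.map_smul]
    rw [h1, hbc, map_zero]

end Vq

end

end Pool.Agent.J4H59.PF
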