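import Pool.Agent.J4H59.PF.Oq

/-!
# Pushing cycles along a ray by means of transfers
-/

set_option autoImplicit false
set_option linter.unusedSectionVars false

open scoped Classical

namespace Pool.Agent.J4H59.PF

open Pool.Agent.Helper386.PD3 Pool.Agent.J4H59.PD

noncomputable section

variable {G : Type} [Group G]

/-- the elements of `N` conjugated into `N` by `s` -/
def As (N : Subgroup G) (s : G) : Subgroup N where
  carrier := {n | s * (n : G) * s⁻¹ ∈ N}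
  one_mem' := by
    change s * ((1 : N) : G) * s⁻¹ ∈ N
    rw [Subgroup.coe_one, mul_one, mul_inv_cancel]
    exact N.one_mem
  mul_mem' {a b} ha hb := by
    change s * ((a * b : N) : G) * s⁻¹ ∈ N
    have h1 : s * ((a * b : N) : G) * s⁻¹ = (s * (a : G) * s⁻¹) * (s * (b : G) * s⁻¹) := by
      rw [Subgroup.coe_mul]
      group
    rw [h1]
    exact N.mul_mem ha hb
  inv_mem' {a} ha := by
    change s * ((a⁻¹ : N) : G) * s⁻¹ ∈ N
    have h1 : s * ((a⁻¹ : N) : G) * s⁻¹ = (s * (a : G) * s⁻¹)⁻¹ := by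
      rw [Subgroup.coe_inv]
      group
    rw [h1]
    exact N.inv_mem ha

/-- The transfer of a derivation. -/
theorem transfer_id {D : Type} [AddCommGroup D] [Module (RR G) D] (δ : G → D)
    (hδ : ∀ g h, δ (g * h) = δ g + gof g • δ h) {N : Subgroup G} (A : Subgroup N)
    [Fintype (N ⧸ A)] (s : G) (n : N) :
    ∑ i : N ⧸ A, gof (((rp (n • i) : N) : G) * s⁻¹) •
      δ (s * ((((rp (n • i))⁻¹ * n * rp i : N)) : G) * s⁻¹) =
      ((Fintype.card (N ⧸ A) : ℕ) : ℤ) • δ (n : G) +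
        (gof (n : G) • (∑ i : N ⧸ A, δ (((rp i : N) : G) * s⁻¹)) -
          ∑ i : N ⧸ A, δ (((rp i : N) : G) * s⁻¹)) := by
  have h1 : ∀ i : N ⧸ A, gof (((rp (n • i) : N) : G) * s⁻¹) •
      δ (s * ((((rp (n • i))⁻¹ * n * rp i : N)) : G) * s⁻¹) =
      δ (n : G) + gof (n : G) • δ (((rp i : N) : G) * s⁻¹) - δ (((rp (n • i) : N) : G) * s⁻¹) := by
    intro i
    have h2 : δ ((((rp (n • i) : N) : G) * s⁻¹) *
        (s * ((((rp (n • i))⁻¹ * n * rp i : N)) : G) * s⁻¹)) =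
        δ ((n : G) * (((rp i : N) : G) * s⁻¹)) := by
      congr 1
      simp only [Subgroup.coe_mul, Subgroup.coe_inv]
      group
    rw [hδ, hδ (n : G)] at h2
    rw [← h2]
    abel
  rw [Finset.sum_congr rfl fun i _ => h1 i, Finset.sum_sub_distrib, Finset.sum_add_distrib,
    Finset.sum_const, Finset.card_univ, Finset.smul_sum, natCast_zsmul]
  have h3 : ∑ i : N ⧸ A, δ (((rp (n • i) : N) : G) * s⁻¹) =
      ∑ i : N ⧸ A, δ (((rp i : N) : G) * s⁻¹) :=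
    Equiv.sum_comp (MulAction.toPerm n) (fun i : N ⧸ A => δ (((rp i : N) : G) * s⁻¹))
  rw [h3]
  abel

variable {N K : Subgroup G} {Ω : Type} [MulAction G Ω]

/-- the boundary of a chain with coefficients in a module -/
def bdy {M : Type} [AddCommGroup M] [Module (RR G) M] (w : G →* ℤˣ) {d : ℕ} (x : Fin d → G)
    (c : Fin d → M) : M :=
  ∑ j, (((w (x j) : ℤˣ) : ℤ) • gof (x j)⁻¹ • c j - c j)

theorem bdy_add {M : Type} [AddCommGroup M] [Module (RR G) M] (w : G →* ℤˣ) {d : ℕ}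
    (x : Fin d → G) (c c' : Fin d → M) : bdy w x (c + c') = bdy w x c + bdy w x c' := by
  unfold bdy
  rw [← Finset.sum_add_distrib]
  refine Finset.sum_congr rfl fun j _ => ?_
  rw [Pi.add_apply, smul_add, smul_add]
  abel

theorem bdy_neg {M : Type} [AddCommGroup M] [Module (RR G) M] (w : G →* ℤˣ) {d : ℕ}
    (x : Fin d → G) (c : Fin d → M) : bdy w x (-c) = -bdy w x c := by
  unfold bdy
  rw [← Finset.sum_neg_distrib]
  refine Finset.sum_congr rfl fun j _ => ?_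
  rw [Pi.neg_apply, smul_neg, smul_neg]
  abel

theorem bdy_zero {M : Type} [AddCommGroup M] [Module (RR G) M] (w : G →* ℤˣ) {d : ℕ}
    (x : Fin d → G) : bdy w x (0 : Fin d → M) = 0 := by
  unfold bdy
  refine Finset.sum_eq_zero fun j _ => ?_
  rw [Pi.zero_apply, smul_zero, smul_zero, sub_zero]

theorem ev_bdy {M : Type} [AddCommGroup M] [Module (RR G) M] {w : G →* ℤˣ} {d : ℕ}
    (x : Fin d → G) (ν : Du w M) (c : Fin d → M) :
    ν.ev (bdy w x c) = ∑ j, (gof (x j) • ν - ν).ev (c j) := by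
  unfold bdy
  rw [map_sum]
  refine Finset.sum_congr rfl fun j _ => ?_
  rw [map_sub, Du.ev_sub, Du.ev_gof, ← ev_zsmul']

namespace Vq

variable (𝒱 : Vq N Ω) (hNK : N ≤ K) (r : Ray K)

/-- functions supported over the points of the ray with index at least `k` -/
def Fq (k : ℕ) : AddSubgroup (𝒱.MQ hNK r.R) where
  carrier := {f | ∀ y, (f : FQ Ω) y ≠ 0 → ∃ l, k ≤ l ∧ pu K (𝒱.p y) = (r.h l : G ⧸ K)}
  zero_mem' := fun y hy => absurd rfl hy
  add_mem' {f f'} hf hf' y hy := by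
    by_cases h : (f : FQ Ω) y = 0
    · exact hf' y (fun h' => hy (by rw [Submodule.coe_add, fqadd_apply, h, h', add_zero]))
    · exact hf y h
  neg_mem' {f} hf y hy := hf y (fun h => hy (by
    rw [Submodule.coe_neg, fqneg_apply, h, neg_zero]))

theorem Fq_mono (k : ℕ) : 𝒱.Fq hNK r (k + 1) ≤ 𝒱.Fq hNK r k := by
  intro f hf y hy
  obtain ⟨l, hl, h⟩ := hf y hy
  exact ⟨l, by omega, h⟩

theorem Fq_sep (f : 𝒱.MQ hNK r.R) (h : ∀ l : ℕ, f ∈ 𝒱.Fq hNK r l) : f = 0 := by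
  apply Subtype.ext
  refine fq_ext fun y => ?_
  by_contra hcon
  obtain ⟨k, -, hk⟩ := h 0 y hcon
  obtain ⟨l, hl, hl'⟩ := h (k + 1) y hcon
  have := r.hinj _ _ (hk.symm.trans hl')
  omega

theorem Fq_comp (u : ℕ → 𝒱.MQ hNK r.R) (hu : ∀ k : ℕ, u k ∈ 𝒱.Fq hNK r k) :
    ∃ s, ∀ l : ℕ, s - ∑ k ∈ Finset.range l, u k ∈ 𝒱.Fq hNK r l := by
  let s : FQ Ω := fun y => ∑ k ∈ Finset.range (r.lev (pu K (𝒱.p y)) + 1), (u k : FQ Ω) y
  have hs : s ∈ 𝒱.MQ hNK r.R := by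
    refine ⟨fun c => ?_, fun z => ?_, {1}, fun y hy => ?_⟩
    · have h1 : cutq {x | 𝒱.p x = c} s =
          ∑ k ∈ Finset.range (r.lev (pu K c) + 1), cutq {x | 𝒱.p x = c} (u k : FQ Ω) := by
        refine fq_ext fun y => ?_
        rw [fqsum_apply]
        by_cases hy : 𝒱.p y = c
        · rw [cutq_of_mem (s := {x | 𝒱.p x = c}) s hy]
          change ∑ k ∈ Finset.range (r.lev (pu K (𝒱.p y)) + 1), (u k : FQ Ω) y = _
          rw [hy]
          exact Finset.sum_congr rfl fun k _ =>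
            (cutq_of_mem (s := {x | 𝒱.p x = c}) (u k : FQ Ω) hy).symm
        · rw [cutq_of_notMem (s := {x | 𝒱.p x = c}) s hy, Finset.sum_eq_zero]
          exact fun k _ => cutq_of_notMem (s := {x | 𝒱.p x = c}) (u k : FQ Ω) hy
      rw [h1]
      exact Submodule.sum_mem _ fun k _ => (u k).2.1 c
    · have h1 : (⋃ i ∈ Finset.range (r.lev z + 1),
          {y | y ∈ 𝒱.p '' spq (u i : FQ Ω) ∧ pu K y = z}).Finite :=
        Set.Finite.biUnion (Finset.finite_toSet _) fun i _ => (u i).2.2.1 z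
      refine h1.subset ?_
      rintro _ ⟨⟨y, hy, rfl⟩, hz⟩
      have hy : s y ≠ 0 := hy
      obtain ⟨i, hi, hi'⟩ := Finset.exists_ne_zero_of_sum_ne_zero hy
      rw [hz] at hi
      exact Set.mem_iUnion₂.2 ⟨i, hi, ⟨y, hi', rfl⟩, hz⟩
    · have hy : s y ≠ 0 := hy
      obtain ⟨i, hi, hi'⟩ := Finset.exists_ne_zero_of_sum_ne_zero hy
      obtain ⟨l, -, hl⟩ := hu i y hi'
      refine ⟨1, Finset.mem_singleton_self 1, ?_⟩
      rw [inv_one, one_smul]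
      exact ⟨l, hl.symm⟩
  refine ⟨⟨s, hs⟩, fun l y hy => ?_⟩
  have hy1 : s y - ∑ k ∈ Finset.range l, (u k : FQ Ω) y ≠ 0 := by
    rw [← coe_sumq]
    exact hy
  have h2 : ∃ j, pu K (𝒱.p y) = (r.h j : G ⧸ K) := by
    by_contra hcon
    apply hy1
    have h3 : ∀ k, (u k : FQ Ω) y = 0 := by
      intro k
      by_contra h4
      obtain ⟨j, -, hj⟩ := hu k y h4
      exact hcon ⟨j, hj⟩
    change ∑ k ∈ Finset.range (r.lev (pu K (𝒱.p y)) + 1), (u k : FQ Ω) y - _ = 0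
    rw [Finset.sum_eq_zero fun k _ => h3 k, Finset.sum_eq_zero fun k _ => h3 k, sub_zero]
  obtain ⟨j, hj⟩ := h2
  refine ⟨j, ?_, hj⟩
  by_contra hcon
  apply hy1
  change ∑ k ∈ Finset.range (r.lev (pu K (𝒱.p y)) + 1), (u k : FQ Ω) y - _ = 0
  rw [hj, r.lev_h, sub_eq_zero]
  apply Finset.sum_subset
  · intro k hk
    rw [Finset.mem_range] at hk ⊢
    omega
  · intro k hk hk'
    rw [Finset.mem_range, not_lt] at hk'
    by_contra h0
    obtain ⟨j', hj1, hj2⟩ := hu k y h0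
    have := r.hinj _ _ (hj.symm.trans hj2)
    omega

theorem Fq_gof {n : G} (hn : n ∈ K) {k : ℕ} {f : 𝒱.MQ hNK r.R} (hf : f ∈ 𝒱.Fq hNK r k) :
    gof n • f ∈ 𝒱.Fq hNK r k := by
  intro y hy
  rw [Submodule.coe_smul, gofq_apply] at hy
  obtain ⟨l, h1, h2⟩ := hf _ hy
  rw [𝒱.hp, pu_smul hNK, inv_smul_eq_iff, r.fix hn] at h2
  exact ⟨l, h1, h2⟩

theorem Fq_cut (s : Set (G ⧸ N)) {k : ℕ} {f : 𝒱.MQ hNK r.R} (hf : f ∈ 𝒱.Fq hNK r k) :
    𝒱.cutM hNK r.R s f ∈ 𝒱.Fq hNK r k := fun y hy => hf y (𝒱.cutM_ne hNK hy).1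

theorem Fq_sc (q : ℚ) {k : ℕ} {f : 𝒱.MQ hNK r.R} (hf : f ∈ 𝒱.Fq hNK r k) :
    𝒱.scM hNK r.R q f ∈ 𝒱.Fq hNK r k := fun y hy => hf y (spq_scq q (f : FQ Ω) hy)

/-- the cells over points at which the step is `s` -/
def Pc (N : Subgroup G) (r : Ray K) (s : G) : Set (G ⧸ N) := {c | r.st (r.lev (pu K c)) = s}

theorem Fq_step {k : ℕ} {s : G} {f : 𝒱.MQ hNK r.R} (hf : f ∈ 𝒱.Fq hNK r k)
    (hs : ∀ y, (f : FQ Ω) y ≠ 0 → 𝒱.p y ∈ Pc N r s) : gof s • f ∈ 𝒱.Fq hNK r (k + 1) := by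
  intro y hy
  rw [Submodule.coe_smul, gofq_apply] at hy
  obtain ⟨l, h1, h2⟩ := hf _ hy
  have h3 : r.st (r.lev (pu K (𝒱.p (s⁻¹ • y)))) = s := hs _ hy
  rw [h2, r.lev_h] at h3
  refine ⟨l + 1, by omega, ?_⟩
  rw [← r.step, h3, ← h2, 𝒱.hp, pu_smul hNK, smul_inv_smul]

/-- the stabilizer of the points preserves the pieces -/
theorem gof_piece {n : G} (hn : n ∈ K) {s : G} {f : 𝒱.MQ hNK r.R} (hf : f ∈ 𝒱.Fq hNK r 0)
    (hs : ∀ y, (f : FQ Ω) y ≠ 0 → 𝒱.p y ∈ Pc N r s) :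
    ∀ y, ((gof n • f : 𝒱.MQ hNK r.R) : FQ Ω) y ≠ 0 → 𝒱.p y ∈ Pc N r s := by
  intro y hy
  rw [Submodule.coe_smul, gofq_apply] at hy
  obtain ⟨l, -, hl⟩ := hf _ hy
  have h2 : r.st (r.lev (pu K (𝒱.p (n⁻¹ • y)))) = s := hs _ hy
  rw [hl] at h2
  rw [𝒱.hp, pu_smul hNK, inv_smul_eq_iff, r.fix hn] at hl
  change r.st (r.lev (pu K (𝒱.p y))) = s
  rw [hl, h2]

theorem gof_cutM {n : G} (hn : n ∈ K) {s : G} {f : 𝒱.MQ hNK r.R} (hf : f ∈ 𝒱.Fq hNK r 0) :
    gof n • 𝒱.cutM hNK r.R (Pc N r s) f = 𝒱.cutM hNK r.R (Pc N r s) (gof n • f) := by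
  apply Subtype.ext
  refine fq_ext fun y => ?_
  rw [Submodule.coe_smul, gofq_apply, cutM_coe, cutM_coe, Submodule.coe_smul]
  by_cases h0 : (f : FQ Ω) (n⁻¹ • y) = 0
  · rw [cutq_apply, cutq_apply, gofq_apply, h0, ite_self, ite_self]
  · obtain ⟨l, -, hl⟩ := hf _ h0
    have hl' := hl
    rw [𝒱.hp, pu_smul hNK, inv_smul_eq_iff, r.fix hn] at hl'
    have h1 : (𝒱.p (n⁻¹ • y) ∈ Pc N r s) ↔ (𝒱.p y ∈ Pc N r s) := by
      change r.st (r.lev (pu K (𝒱.p (n⁻¹ • y)))) = s ↔ r.st (r.lev (pu K (𝒱.p y))) = s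
      rw [hl, hl']
    by_cases h2 : 𝒱.p y ∈ Pc N r s
    · rw [cutq_of_mem (s := {x | 𝒱.p x ∈ Pc N r s}) _ h2,
        cutq_of_mem (s := {x | 𝒱.p x ∈ Pc N r s}) _ (h1.2 h2), gofq_apply]
    · rw [cutq_of_notMem (s := {x | 𝒱.p x ∈ Pc N r s}) _ h2,
        cutq_of_notMem (s := {x | 𝒱.p x ∈ Pc N r s}) _ (mt h1.1 h2)]

variable {w : G →* ℤˣ}

/-- The Fox calculus. -/
theorem foxU {d : ℕ} (x : Fin d → G) (hx : Subgroup.closure (Set.range x) = N) (n : G)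
    (hn : n ∈ N) :
    ∃ β : Fin d → RR G,
      (∀ j, ∀ (k : ℕ) (m : 𝒱.MQ hNK r.R), m ∈ 𝒱.Fq hNK r k → β j • m ∈ 𝒱.Fq hNK r k) ∧
      ∀ δ : G → Du w (𝒱.MQ hNK r.R), (∀ g h, δ (g * h) = δ g + gof g • δ h) →
        ∀ m, (δ n).ev m = ∑ j, (δ (x j)).ev (β j • m) := by
  rw [← hx] at hn
  induction hn using Subgroup.closure_induction with
  | mem n hn =>
    obtain ⟨i, rfl⟩ := hn
    refine ⟨Pi.single i 1, fun j k m hm => ?_, fun δ hδ m => ?_⟩
    · by_cases hj : j = i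
      · rw [hj, Pi.single_eq_same, one_smul]
        exact hm
      · rw [Pi.single_eq_of_ne hj, zero_smul]
        exact zero_mem _
    · rw [Finset.sum_eq_single i]
      · rw [Pi.single_eq_same, one_smul]
      · intro j _ hj
        rw [Pi.single_eq_of_ne hj, zero_smul, map_zero]
      · intro h
        exact absurd (Finset.mem_univ i) h
  | one =>
    refine ⟨0, fun j k m hm => ?_, fun δ hδ m => ?_⟩
    · rw [Pi.zero_apply, zero_smul]
      exact zero_mem _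
    · rw [der_one hδ, Du.ev_zero, Finset.sum_eq_zero]
      intro j _
      rw [Pi.zero_apply, zero_smul, map_zero]
  | mul n n' hn hn' h h' =>
    rw [hx] at hn hn'
    obtain ⟨β, hβ, hβ'⟩ := h
    obtain ⟨β', hb, hb'⟩ := h'
    refine ⟨fun j => β j + β' j * (((w n : ℤˣ) : ℤ) • gof n⁻¹), fun j k m hm => ?_,
      fun δ hδ m => ?_⟩
    · rw [add_smul, mul_smul, smul_assoc]
      exact add_mem (hβ j k m hm) (hb j k _ (zsmul_mem
        (𝒱.Fq_gof hNK r (hNK (N.inv_mem hn)) hm) _))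
    · rw [hδ, Du.ev_add, Du.ev_gof, hβ' δ hδ, hb' δ hδ, Finset.smul_sum,
        ← Finset.sum_add_distrib]
      refine Finset.sum_congr rfl fun j _ => ?_
      rw [add_smul, map_add, mul_smul, smul_assoc, ← ev_zsmul']
      congr 2
      exact (smul_comm _ _ _)
  | inv n hn h =>
    rw [hx] at hn
    obtain ⟨β, hβ, hβ'⟩ := h
    refine ⟨fun j => (β j * (((-(w n : ℤˣ) : ℤˣ) : ℤ) • gof n)), fun j k m hm => ?_,
      fun δ hδ m => ?_⟩
    · rw [mul_smul, smul_assoc]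
      exact hβ j k _ (zsmul_mem (𝒱.Fq_gof hNK r (hNK hn) hm) _)
    · rw [der_inv hδ, Du.ev_neg, Du.ev_gof, hβ' δ hδ, Finset.smul_sum, ← Finset.sum_neg_distrib]
      refine Finset.sum_congr rfl fun j _ => ?_
      rw [mul_smul, smul_assoc, ← ev_zsmul', inv_inv, map_inv, Int.units_inv_eq_self,
        ← map_neg, Units.val_neg]
      congr 1
      have e1 : (-((w n : ℤˣ) : ℤ)) • (gof n • m) = -(((w n : ℤˣ) : ℤ) • (gof n • m)) :=
        neg_smul _ _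
      rw [e1, smul_neg, smul_comm]

end Vq

end

end Pool.Agent.J4H59.PF
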