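import Pool.Agent.J4H59.PF.ModQ

/-!
# Shapiro's lemma for derivations with values in characters
-/

set_option autoImplicit false
set_option linter.unusedSectionVars false

open scoped Classical

namespace Pool.Agent.J4H59.PF

open Pool.Agent.Helper386.PD3 Pool.Agent.J4H59.PD Pool.Agent.J4H59.PE

noncomputable section

variable {G : Type} [Group G] {N : Subgroup G} {Ω : Type} [MulAction G Ω] {w : G →* ℤˣ}

namespace Vq

variable {𝒱 : Vq N Ω}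

theorem cutV_gof (g : G) (y : G ⧸ N) (f : 𝒱.V) :
    𝒱.cutV y (gof g • f) = gof g • 𝒱.cutV (g⁻¹ • y) f :=
  Subtype.ext (𝒱.cut_gof g y f.1)

theorem cutV_fin (f : 𝒱.V) (F : G ⧸ N → 𝒱.V →+ EE) :
    (Function.support fun y => F y (𝒱.cutV y f)).Finite := by
  refine (𝒱.hfin f.1 f.2).subset ?_
  intro y hy
  by_contra hcon
  apply hy
  have h1 : 𝒱.cutV y f = 0 := by
    apply Subtype.ext
    refine fq_ext fun p => ?_
    by_cases hp : (f : FQ Ω) p = 0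
    · change cutq {p | 𝒱.p p = y} f.1 p = 0
      rw [cutq_apply, hp, ite_self]
    · exact cutq_of_notMem (s := {p | 𝒱.p p = y}) f.1 fun h => hcon ⟨p, hp, h⟩
  change F y (𝒱.cutV y f) = 0
  rw [h1, map_zero]

theorem Ov.toBase {y : G ⧸ N} {f : 𝒱.V} (h : 𝒱.Ov y (f : FQ Ω)) :
    𝒱.Ov ((1 : G) : G ⧸ N) ((gof (rp' y)⁻¹ • f : 𝒱.V) : FQ Ω) := by
  have h1 := h.smul (rp' y)⁻¹
  have h3 : (rp' y)⁻¹ • y = ((1 : G) : G ⧸ N) := by
    rw [inv_smul_eq_iff]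
    change y = ((rp' y * 1 : G) : G ⧸ N)
    rw [mul_one, mk_rp']
  rwa [h3] at h1

/-- the summands of the extension of a derivation -/
def TT (D : N → Du w 𝒱.V) (g : G) (y : G ⧸ N) : 𝒱.V →+ EE :=
  AddMonoidHom.mk' (fun f => ((w (rp' y) : ℤˣ) : ℤ) • (D (al' g y)).ev (gof (rp' y)⁻¹ • f)) (by
    intro f f'
    rw [smul_add, map_add, smul_add])

theorem TT_apply (D : N → Du w 𝒱.V) (g : G) (y : G ⧸ N) (f : 𝒱.V) :
    TT D g y f = ((w (rp' y) : ℤˣ) : ℤ) • (D (al' g y)).ev (gof (rp' y)⁻¹ • f) := rfl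

/-- the extension of a derivation -/
def kap (D : N → Du w 𝒱.V) (g : G) : Du w 𝒱.V :=
  (AddMonoidHom.mk' (fun f => ∑ᶠ y, TT D g y (𝒱.cutV y f)) (by
    intro f f'
    rw [← finsum_add_distrib (cutV_fin f _) (cutV_fin f' _)]
    exact finsum_congr fun y => by rw [map_add, map_add]) : 𝒱.V →+ EE)

theorem kap_ev (D : N → Du w 𝒱.V) (g : G) (f : 𝒱.V) :
    (kap D g).ev f = ∑ᶠ y, TT D g y (𝒱.cutV y f) := rfl

/-- derivations on the functions supported over the base cell -/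
def BD (D : N → Du w 𝒱.V) : Prop :=
  ∀ (n m : N) (f : 𝒱.V), 𝒱.Ov ((1 : G) : G ⧸ N) (f : FQ Ω) →
    (D (n * m)).ev f = (D n).ev f + (gof (n : G) • D m).ev f

theorem TT_mul {D : N → Du w 𝒱.V} (hD : BD D) (g h : G) {y : G ⧸ N} {f : 𝒱.V}
    (hf : 𝒱.Ov y (f : FQ Ω)) : TT D (g * h) y f =
      TT D g y f + ((w g : ℤˣ) : ℤ) • TT D h (g⁻¹ • y) (gof g⁻¹ • f) := by
  rw [TT_apply, TT_apply, TT_apply, al'_mul, hD _ _ _ hf.toBase, smul_add, Du.ev_gof]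
  congr 1
  rw [smul_smul, smul_smul, smul_smul, smul_smul, ← gof_mul, ← gof_mul]
  have h1 : (al' g y : G)⁻¹ * (rp' y)⁻¹ = (rp' (g⁻¹ • y))⁻¹ * g⁻¹ := by
    rw [al'_coe]
    group
  have h2 : ((w (rp' y) : ℤˣ) : ℤ) * ((w (al' g y : G) : ℤˣ) : ℤ) =
      ((w g : ℤˣ) : ℤ) * ((w (rp' (g⁻¹ • y)) : ℤˣ) : ℤ) := by
    rw [← Units.val_mul, ← Units.val_mul, ← map_mul, ← map_mul, al'_coe, mul_inv_cancel_left]
  rw [h1, h2]

theorem kap_der {D : N → Du w 𝒱.V} (hD : BD D) (g h : G) :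
    kap D (g * h) = kap D g + gof g • kap D h := by
  refine Du.ext fun f => ?_
  rw [Du.ev_add, Du.ev_gof, kap_ev, kap_ev, kap_ev]
  have h1 : (∑ᶠ y, TT D h y (𝒱.cutV y (gof g⁻¹ • f))) =
      ∑ᶠ y, TT D h (g⁻¹ • y) (gof g⁻¹ • 𝒱.cutV y f) := by
    rw [← finsum_comp_equiv (MulAction.toPerm g⁻¹)]
    refine finsum_congr fun y => ?_
    rw [MulAction.toPerm_apply, cutV_gof, inv_inv, smul_inv_smul]
  let F : G ⧸ N → 𝒱.V →+ EE := fun y => AddMonoidHom.mk'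
    (fun f => TT D h (g⁻¹ • y) (gof g⁻¹ • f)) (by
      intro f f'
      rw [smul_add, map_add])
  have h2 : (Function.support fun y => TT D h (g⁻¹ • y) (gof g⁻¹ • 𝒱.cutV y f)).Finite :=
    cutV_fin f F
  rw [h1, smul_finsum' _ h2, ← finsum_add_distrib (cutV_fin f _)]
  · exact finsum_congr fun y => TT_mul hD g h (ov_cut y _)
  · refine h2.subset ?_
    intro y hy hy0
    apply hy
    have hy0 : TT D h (g⁻¹ • y) (gof g⁻¹ • 𝒱.cutV y f) = 0 := hy0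
    change ((w g : ℤˣ) : ℤ) • TT D h (g⁻¹ • y) (gof g⁻¹ • 𝒱.cutV y f) = 0
    rw [hy0, smul_zero]

theorem kap_base {D : N → Du w 𝒱.V} (n : N) {f : 𝒱.V}
    (hf : 𝒱.Ov ((1 : G) : G ⧸ N) (f : FQ Ω)) : (kap D (n : G)).ev f = (D n).ev f := by
  rw [kap_ev, finsum_eq_single _ ((1 : G) : G ⧸ N)]
  · have h0 : 𝒱.cutV ((1 : G) : G ⧸ N) f = f := Subtype.ext hf.cut_eq
    rw [h0, TT_apply, rp'_one, map_one, Units.val_one, one_smul, inv_one, gof_one, one_smul]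
    have h1 : al' (n : G) ((1 : G) : G ⧸ N) = n := by
      apply Subtype.ext
      have h2 : (n : G)⁻¹ • ((1 : G) : G ⧸ N) = ((1 : G) : G ⧸ N) := by
        change (((n : G)⁻¹ * 1 : G) : G ⧸ N) = _
        rw [QuotientGroup.eq]
        simp
      rw [al'_coe, h2, rp'_one, inv_one, one_mul, mul_one]
    rw [h1]
  · intro y hy
    have h0 : 𝒱.cutV y f = 0 := Subtype.ext (hf.cut_ne hy)
    rw [h0, map_zero]

theorem inner_base (hall : AllDer (G := G) (Du w 𝒱.V)) {D : N → Du w 𝒱.V} (hD : BD D) :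
    ∃ μ : Du w 𝒱.V, ∀ (n : N) (f : 𝒱.V), 𝒱.Ov ((1 : G) : G ⧸ N) (f : FQ Ω) →
      (D n).ev f = (gof (n : G) • μ - μ).ev f := by
  obtain ⟨μ, hμ⟩ := hall (kap D) (kap_der hD)
  exact ⟨μ, fun n f hf => by rw [← hμ, kap_base n hf]⟩

end Vq

end

end Pool.Agent.J4H59.PF
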